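import Pool.Agent.RYD.St

/-!
Project RYD (MP_95e38d_lc): the bound of `al` by sums of products (module ALE).
-/

namespace Pool.Agent.RYD

open Finset Filter Pool.Agent.Lib_helper62.PToda Pool.Agent.Lib_helper58.RToda

namespace ALE

lemma qd_nonneg (d : ℕ) : 0 ≤ qd d := by
  unfold qd
  have h : (1 : ℝ) ≤ 2 ^ d := one_le_pow₀ (by norm_num)
  linarith

lemma phA_nonneg {d : ℕ} (y : El d) : 0 ≤ phA y := by
  unfold phA
  have h1 := qd_nonneg d
  have h2 : (0 : ℝ) ≤ qd d / 2 ^ d := div_nonneg h1 (by positivity)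
  split_ifs
  · exact le_refl 0
  · norm_num
  · norm_num
  · norm_num
  · positivity

lemma pow_card_filter {E : Type} [DecidableEq E] (B : Finset E) (p : E → Prop) [DecidablePred p]
    (c : ℝ) : c ^ (B.filter p).card = ∏ e ∈ B, if p e then c else 1 := by
  rw [← Finset.prod_filter, Finset.prod_const]

lemma prod_eq {E : Type} [Fintype E] [DecidableEq E] (d : ℕ) (B : Finset E) (y : E → El d) :
    (cw (fN (fun e => (y e).1) (fun e => (y e).2.1) B) (fun e => (y e).2.2))⁻¹ *
      ((cw (fI (fun e => (y e).1) (fun e => (y e).2.1) B) (fun e => (y e).2.2))⁻¹ *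
        no1 (fI (fun e => (y e).1) (fun e => (y e).2.1) B) (fun e => (y e).2.2)) *
      (((1 : ℝ) / 2) ^ (fU (fun e => (y e).1) (fun e => (y e).2.1) B).card *
        ((1 : ℝ) / 2) ^ (fU (fun e => (y e).2.1) (fun e => (y e).1) B).card) *
      ((qd d / 2 ^ d) ^ (fU (fun e => (y e).1) (fun e => (y e).2.1) B).card *
        (qd d / 2 ^ d) ^ (fU (fun e => (y e).2.1) (fun e => (y e).1) B).card)
      = ∏ e ∈ B, phA (y e) := by
  unfold cw no1 fN fI fU
  simp only [pow_card_filter, Finset.prod_filter, ← Finset.prod_inv_distrib]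
  rw [← Finset.prod_mul_distrib, ← Finset.prod_mul_distrib, ← Finset.prod_mul_distrib,
    ← Finset.prod_mul_distrib, ← Finset.prod_mul_distrib, ← Finset.prod_mul_distrib]
  refine Finset.prod_congr rfl fun e _ => ?_
  have ho : one (fun e => (y e).2.2) e ↔ oneE (y e) := Iff.rfl
  unfold phA
  by_cases h : oneE (y e)
  · have h' : one (fun e => (y e).2.2) e := ho.2 h
    rcases h1 : (y e).1 with _ | _ <;> rcases h2 : (y e).2.1 with _ | _ <;> simp [h, h']
  · have h' : ¬ one (fun e => (y e).2.2) e := fun hh => h (ho.1 hh)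
    rcases h1 : (y e).1 with _ | _ <;> rcases h2 : (y e).2.1 with _ | _ <;> simp [h, h']

lemma sum_eq {E : Type} [Fintype E] [DecidableEq E] (d : ℕ) (B : Finset E) (y : E → El d) :
    ∑ i ∈ B, psA (y i) * ∏ e ∈ B.erase i, phA (y e)
      = 2 * (((fU (fun e => (y e).1) (fun e => (y e).2.1) B).card : ℝ) +
        ((fU (fun e => (y e).2.1) (fun e => (y e).1) B).card : ℝ)) * ∏ e ∈ B, phA (y e) := by
  unfold fU
  rw [Finset.card_filter, Finset.card_filter]
  push_cast
  rw [← Finset.sum_add_distrib, Finset.mul_sum, Finset.sum_mul]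
  refine Finset.sum_congr rfl fun i hi => ?_
  rw [← Finset.mul_prod_erase B (fun e => phA (y e)) hi, ← mul_assoc]
  congr 1
  unfold psA phA
  rcases h1 : (y i).1 with _ | _ <;> rcases h2 : (y i).2.1 with _ | _ <;> simp

end ALE

open ALE in
/-- ALE: the bound of `al`. -/
theorem t_ALE : St_ALE := by
  intro E _ _ d B y
  have hP : 0 ≤ ∏ e ∈ B, phA (y e) := Finset.prod_nonneg fun e _ => phA_nonneg (y e)
  have hk := prod_eq d B y
  rw [sum_eq d B y]
  unfold al ga bd
  set u := (fU (fun e => (y e).1) (fun e => (y e).2.1) B).card with hu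
  set u' := (fU (fun e => (y e).2.1) (fun e => (y e).1) B).card with hu'
  have h1 : 0 ≤ (Real.sqrt (u : ℝ) - Real.sqrt (u' : ℝ)) ^ 2 := sq_nonneg _
  have h2 : Real.sqrt (u : ℝ) ^ 2 = (u : ℝ) := Real.sq_sqrt (Nat.cast_nonneg u)
  have h3 : Real.sqrt (u' : ℝ) ^ 2 = (u' : ℝ) := Real.sq_sqrt (Nat.cast_nonneg u')
  have h4 : 4 * (Real.sqrt (u : ℝ) * Real.sqrt (u' : ℝ)) ≤ 2 * ((u : ℝ) + (u' : ℝ)) := by
    nlinarith [h1, h2, h3]
  have h5 := mul_le_mul_of_nonneg_right h4 hP
  refine le_trans (le_of_eq ?_) h5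
  rw [← hk, pow_add]
  ring

end Pool.Agent.RYD
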