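import Pool.Agent.RYD.St2

/-!
Project RYD, module WT0: the weight of the first node is at most 2.
-/

set_option autoImplicit false

namespace Pool.Agent.RYD

open Finset Filter Pool.Agent.Lib_helper62.PToda Pool.Agent.Lib_helper58.RToda

namespace WT0

theorem factor (a : ℝ) (ha : 0 < a) (j : ℕ) :
    (node a 0 - node a (Nat.succ j))⁻¹ * (0 - node a (Nat.succ j)) =
      1 + 1 / (100 * ((j : ℝ) + 1) ^ 2 - 1) := by
  rw [node_zero, node_pos a _ (by omega)]
  push_cast
  have hj : (0 : ℝ) ≤ (j : ℝ) := Nat.cast_nonneg j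
  have h1 : a - 100 * a * ((j : ℝ) + 1) ^ 2 = -(a * (100 * ((j : ℝ) + 1) ^ 2 - 1)) := by ring
  have h2 : (0 : ℝ) < 100 * ((j : ℝ) + 1) ^ 2 - 1 := by nlinarith
  rw [h1, inv_neg, zero_sub, neg_mul_neg, inv_mul_eq_div]
  field_simp
  ring

end WT0

theorem t_WT0 : St_WT0 := by
  intro a ha K
  unfold wt
  have e1 : (Finset.range (K + 1)).erase 0 = (Finset.range K).image Nat.succ := by
    ext x
    simp only [Finset.mem_erase, Finset.mem_range, Finset.mem_image]
    constructor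
    · rintro ⟨h1, h2⟩
      exact ⟨x - 1, by omega, by omega⟩
    · rintro ⟨y, h1, rfl⟩
      exact ⟨by omega, by omega⟩
  rw [e1, Finset.prod_image (fun x _ y _ h => Nat.succ_injective h)]
  have hpos : ∀ j : ℕ, (0 : ℝ) < 1 / (100 * ((j : ℝ) + 1) ^ 2 - 1) := by
    intro j
    have hj : (0 : ℝ) ≤ (j : ℝ) := Nat.cast_nonneg j
    have h2 : (0 : ℝ) < 100 * ((j : ℝ) + 1) ^ 2 - 1 := by nlinarith
    positivity
  have h1 : ∏ j ∈ Finset.range K, ((node a 0 - node a (Nat.succ j))⁻¹ *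
      (0 - node a (Nat.succ j))) ≤
      ∏ j ∈ Finset.range K, Real.exp (1 / (100 * ((j : ℝ) + 1) ^ 2 - 1)) := by
    refine Finset.prod_le_prod (fun j _ => ?_) fun j _ => ?_
    · rw [WT0.factor a ha j]
      have := hpos j
      linarith
    · rw [WT0.factor a ha j, add_comm]
      exact Real.add_one_le_exp _
  refine h1.trans ?_
  rw [← Real.exp_sum]
  have h2 : ∑ j ∈ Finset.range K, 1 / (100 * ((j : ℝ) + 1) ^ 2 - 1) ≤ Real.log 2 := by
    have h3 := sum_small K
    have h4 : ∑ i ∈ Finset.range K, (2 : ℝ) / (100 * ((i : ℝ) + 1) ^ 2 - 1) =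
        2 * ∑ j ∈ Finset.range K, 1 / (100 * ((j : ℝ) + 1) ^ 2 - 1) := by
      rw [Finset.mul_sum]
      refine Finset.sum_congr rfl fun i _ => ?_
      ring
    rw [h4] at h3
    have h5 : (0 : ℝ) < 1 / ((K : ℝ) + 1 / 2) := by positivity
    have h6 := Real.log_two_gt_d9
    linarith
  calc Real.exp (∑ j ∈ Finset.range K, 1 / (100 * ((j : ℝ) + 1) ^ 2 - 1))
      ≤ Real.exp (Real.log 2) := Real.exp_le_exp.2 h2
    _ = 2 := Real.exp_log (by norm_num)

end Pool.Agent.RYD
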