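import Pool.Agent.RYD.AN4
import Pool.Agent.RYD.WT0

/-! Project RYD: the analytic lemma for instances with at most one solution. -/

namespace Pool.Agent.RYD

open Finset Polynomial Filter Pool.Agent.Lib_helper62.PToda Pool.Agent.Lib_helper58.RToda

namespace F4U

/-- Bounded polynomials of degree at most `K` change slowly near `0`. -/
theorem poly_u (K : ℕ) (hK : 1 ≤ K) (R : ℝ[X]) (hdeg : R.degree < ((K + 1 : ℕ) : WithBot ℕ))
    (hb : ∀ θ : ℝ, 0 ≤ θ → θ ≤ 1 → |R.eval θ| ≤ 1 + 1 / 100) (θ₁ : ℝ) (h0 : 0 ≤ θ₁)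
    (h1 : θ₁ ≤ 1) : |R.eval θ₁ - R.eval 0| ≤ θ₁ * (420 * (K:ℝ) ^ 2) := by
  have hK0 : (0:ℝ) < K := by exact_mod_cast hK
  set a : ℝ := 1 / (100 * (K:ℝ) ^ 2) with hadef
  have hapos : 0 < a := by positivity
  have ha1 : a ≤ 1 := by
    rw [hadef, div_le_one (by positivity)]
    have : (1:ℝ) ≤ (K:ℝ) := by exact_mod_cast hK
    nlinarith
  -- the quotient
  have hR : ∀ θ : ℝ, R.eval θ = R.divX.eval θ * θ + R.eval 0 := by
    intro θ
    conv_lhs => rw [← Polynomial.divX_mul_X_add R]
    rw [Polynomial.eval_add, Polynomial.eval_mul, Polynomial.eval_X, Polynomial.eval_C,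
      Polynomial.coeff_zero_eq_eval_zero]
  set g : ℝ[X] := R.divX.comp (C θ₁ + C (1 - θ₁) * X) with hg
  have hgeval : ∀ y : ℝ, g.eval y = R.divX.eval (θ₁ + (1 - θ₁) * y) := by
    intro y
    rw [hg, Polynomial.eval_comp]
    simp
  have hnd : R.natDegree ≤ K := by
    rcases eq_or_ne R 0 with h | h
    · rw [h]; simp
    · rw [Polynomial.degree_eq_natDegree h] at hdeg
      have : R.natDegree < K + 1 := by exact_mod_cast hdeg
      omega
  have hgdeg : g.degree < ((K + 1 : ℕ) : WithBot ℕ) := by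
    have h2 : g.natDegree ≤ K := by
      rw [hg]
      refine Polynomial.natDegree_comp_le.trans ?_
      have h3 : (C θ₁ + C (1 - θ₁) * X : ℝ[X]).natDegree ≤ 1 := by
        rw [add_comm]
        exact Polynomial.natDegree_linear_le
      have h4 : R.divX.natDegree ≤ K := by
        rw [Polynomial.natDegree_divX_eq_natDegree_tsub_one]
        omega
      calc R.divX.natDegree * (C θ₁ + C (1 - θ₁) * X : ℝ[X]).natDegree ≤ K * 1 :=
            Nat.mul_le_mul h4 h3
        _ = K := by omega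
    refine lt_of_le_of_lt Polynomial.degree_le_natDegree ?_
    exact_mod_cast Nat.lt_succ_of_le h2
  have hnode : ∀ i ≤ K, a ≤ node a i ∧ node a i ≤ 1 := by
    intro i hi
    rcases Nat.eq_zero_or_pos i with h | h
    · rw [h, node_zero]; exact ⟨le_rfl, ha1⟩
    · rw [node_pos a i h]
      have h2 : (1:ℝ) ≤ (i:ℝ) := by exact_mod_cast h
      have h3 : (i:ℝ) ≤ (K:ℝ) := by exact_mod_cast hi
      have h4 : (1:ℝ) ≤ (i:ℝ) ^ 2 := one_le_pow₀ h2
      have h5 : (i:ℝ) ^ 2 ≤ (K:ℝ) ^ 2 := pow_le_pow_left₀ (by positivity) h3 2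
      constructor
      · nlinarith
      · calc 100 * a * (i:ℝ) ^ 2 ≤ 100 * a * (K:ℝ) ^ 2 :=
              mul_le_mul_of_nonneg_left h5 (by positivity)
          _ = 1 := by rw [hadef]; field_simp
  have hgb : ∀ i ≤ K, |g.eval (node a i)| ≤ 202 * (K:ℝ) ^ 2 := by
    intro i hi
    obtain ⟨n0, n1⟩ := hnode i hi
    rw [hgeval]
    set θ : ℝ := θ₁ + (1 - θ₁) * node a i with hθ
    have t0 : a ≤ θ := by rw [hθ]; nlinarith
    have t1 : θ ≤ 1 := by rw [hθ]; nlinarith
    have tpos : 0 < θ := lt_of_lt_of_le hapos t0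
    have e : R.divX.eval θ = (R.eval θ - R.eval 0) / θ := by
      rw [hR θ]
      field_simp
      ring
    rw [e, abs_div, abs_of_pos tpos, div_le_iff₀ tpos]
    have b1 := hb θ tpos.le t1
    have b2 := hb 0 le_rfl zero_le_one
    have b3 : |R.eval θ - R.eval 0| ≤ 2 + 2 / 100 := by
      refine (abs_sub _ _).trans ?_
      linarith
    have b4 : 202 * (K:ℝ) ^ 2 * a = 2 + 2 / 100 := by
      rw [hadef]; field_simp; norm_num
    calc |R.eval θ - R.eval 0| ≤ 202 * (K:ℝ) ^ 2 * a := by rw [b4]; exact b3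
      _ ≤ 202 * (K:ℝ) ^ 2 * θ := mul_le_mul_of_nonneg_left t0 (by positivity)
  have h := eval_zero_eq a hapos K g hgdeg
  rw [hgeval 0, mul_zero, add_zero, Finset.sum_range_succ'] at h
  have hs1 : |∑ i ∈ Finset.range K, g.eval (node a (i + 1)) * wt a K (i + 1)|
      ≤ (202 * (K:ℝ) ^ 2) * (4 / 75) := by
    refine (Finset.abs_sum_le_sum_abs _ _).trans ?_
    have : ∀ i ∈ Finset.range K, |g.eval (node a (i + 1)) * wt a K (i + 1)|
        ≤ (202 * (K:ℝ) ^ 2) * (2 / (100 * ((i:ℝ) + 1) ^ 2 - 1)) := by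
      intro i hi
      rw [Finset.mem_range] at hi
      rw [abs_mul]
      exact mul_le_mul (hgb (i + 1) (by omega)) (wt_succ a hapos K i hi) (abs_nonneg _)
        (by positivity)
    refine (Finset.sum_le_sum this).trans ?_
    rw [← Finset.mul_sum]
    apply mul_le_mul_of_nonneg_left _ (by positivity)
    refine (sum_small K).trans ?_
    have : (0:ℝ) < 1 / ((K:ℝ) + 1 / 2) := by positivity
    linarith
  have hs0 : |g.eval (node a 0) * wt a K 0| ≤ (202 * (K:ℝ) ^ 2) * 2 := by
    rw [abs_mul]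
    apply mul_le_mul (hgb 0 (by omega)) _ (abs_nonneg _) (by positivity)
    rw [abs_of_nonneg (le_trans zero_le_one (wt_zero a hapos K))]
    exact t_WT0 a hapos K
  have hh : |R.divX.eval θ₁| ≤ 420 * (K:ℝ) ^ 2 := by
    rw [h]
    refine (abs_add_le _ _).trans ?_
    have : (0:ℝ) ≤ (K:ℝ) ^ 2 := by positivity
    nlinarith
  rw [hR θ₁]
  have : R.divX.eval θ₁ * θ₁ + R.eval 0 - R.eval 0 = R.divX.eval θ₁ * θ₁ := by ring
  rw [this, abs_mul, abs_of_nonneg h0, mul_comm]
  exact mul_le_mul_of_nonneg_left hh h0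

section
variable {W M : Type} [Fintype W] [Nonempty W] [Fintype M] [DecidableEq M]

/-- Lower bound of the average with bias `1 - 2 θ` by the points of weight `0` and `1`. -/
theorem low_u (χ : W → M → ℝ) (hχ : ∀ w j, χ w j = 1 ∨ χ w j = -1)
    (hav : ∀ S : Finset M, S.Nonempty → av (fun w => ∏ j ∈ S, χ w j) = 0)
    (P : W → ℝ) (hP0 : ∀ w, 0 ≤ P w)
    (hyes : ∀ w j, χ w j = -1 → (∀ j', j' ≠ j → χ w j' = 1) → 2 / 3 ≤ P w)
    (m : ℕ) (hcard : Fintype.card M = m) (hm : 1 ≤ m) (θ : ℝ) (h0 : 0 ≤ θ) (h1 : θ ≤ 1) :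
    (1 - θ) ^ m * av (fun w => P w * dens χ 1 w) + 2 / 3 * θ * (1 - θ) ^ (m - 1) * m
      ≤ av (fun w => P w * dens χ (1 - 2 * θ) w) := by
  set e : M → W → ℝ := fun j w => dens (fun w j' => if j' = j then -χ w j' else χ w j') 1 w with he
  have heav : ∀ j, av (e j) = 1 := by
    intro j
    apply av_dens
    intro S hS
    have h2 : (fun w => ∏ j' ∈ S, (if j' = j then -χ w j' else χ w j'))
        = (fun w => (if j ∈ S then -1 else 1) * ∏ j' ∈ S, χ w j') := by
      funext w
      by_cases hj : j ∈ S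
      · rw [if_pos hj, ← Finset.mul_prod_erase S _ hj, ← Finset.mul_prod_erase S (fun j' => χ w j') hj,
          if_pos rfl]
        have : ∏ x ∈ S.erase j, (if x = j then -χ w x else χ w x) = ∏ x ∈ S.erase j, χ w x :=
          Finset.prod_congr rfl fun x hx => if_neg (Finset.ne_of_mem_erase hx)
        rw [this]
        ring
      · rw [if_neg hj, one_mul]
        exact Finset.prod_congr rfl fun x hx => if_neg fun h => hj (by rw [← h]; exact hx)
    rw [h2, av_mul_left, hav S hS, mul_zero]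
  have key : ∀ w, (1 - θ) ^ m * (P w * dens χ 1 w) + 2 / 3 * θ * (1 - θ) ^ (m - 1) * ∑ j, e j w
      ≤ P w * dens χ (1 - 2 * θ) w := by
    intro w
    have hdn := dens_nonneg χ hχ (1 - 2 * θ) (by linarith) (by linarith) w
    by_cases hall : ∀ j, χ w j = 1
    · have e1 : dens χ (1 - 2 * θ) w = (2 * (1 - θ)) ^ m := by
        unfold Pool.Agent.Lib_helper58.RToda.dens
        simp only [hall, mul_one]
        rw [Finset.prod_const, Finset.card_univ, hcard]
        congr 1
        ring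
      have e2 : dens χ 1 w = 2 ^ m := by
        unfold Pool.Agent.Lib_helper58.RToda.dens
        simp only [hall, mul_one]
        rw [Finset.prod_const, Finset.card_univ, hcard]
        norm_num
      have e3 : ∀ j, e j w = 0 := by
        intro j
        rw [he]
        unfold Pool.Agent.Lib_helper58.RToda.dens
        refine Finset.prod_eq_zero (Finset.mem_univ j) ?_
        show 1 + 1 * (if j = j then -χ w j else χ w j) = 0
        rw [if_pos rfl, hall j]
        ring
      simp only [e3, Finset.sum_const_zero, mul_zero, add_zero]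
      rw [e1, e2, mul_pow]
      apply le_of_eq
      ring
    · push Not at hall
      obtain ⟨j₀, hj₀⟩ := hall
      have hj0 : χ w j₀ = -1 := (hχ w j₀).resolve_left hj₀
      have e2 : dens χ 1 w = 0 := by
        unfold Pool.Agent.Lib_helper58.RToda.dens
        exact Finset.prod_eq_zero (Finset.mem_univ j₀) (by rw [hj0]; ring)
      rw [e2, mul_zero, mul_zero, zero_add]
      by_cases hone : ∀ j', j' ≠ j₀ → χ w j' = 1
      · have hP := hyes w j₀ hj0 hone
        have e3 : ∑ j, e j w = 2 ^ m := by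
          rw [Finset.sum_eq_single j₀]
          · rw [he]
            unfold Pool.Agent.Lib_helper58.RToda.dens
            have : ∀ j' : M, 1 + 1 * (if j' = j₀ then -χ w j' else χ w j') = 2 := by
              intro j'
              by_cases h : j' = j₀
              · rw [if_pos h, h, hj0]; norm_num
              · rw [if_neg h, hone j' h]; norm_num
            simp only [this]
            rw [Finset.prod_const, Finset.card_univ, hcard]
          · intro j _ hj
            rw [he]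
            unfold Pool.Agent.Lib_helper58.RToda.dens
            refine Finset.prod_eq_zero (Finset.mem_univ j) ?_
            show 1 + 1 * (if j = j then -χ w j else χ w j) = 0
            rw [if_pos rfl, hone j hj]
            ring
          · intro h
            exact absurd (Finset.mem_univ _) h
        have e1 : dens χ (1 - 2 * θ) w = θ * (1 - θ) ^ (m - 1) * 2 ^ m := by
          unfold Pool.Agent.Lib_helper58.RToda.dens
          rw [← Finset.mul_prod_erase Finset.univ _ (Finset.mem_univ j₀), hj0]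
          have : ∏ x ∈ Finset.univ.erase j₀, (1 + (1 - 2 * θ) * χ w x)
              = ∏ x ∈ Finset.univ.erase j₀, (2 * (1 - θ)) :=
            Finset.prod_congr rfl fun x hx => by
              rw [hone x (Finset.ne_of_mem_erase hx)]; ring
          rw [this, Finset.prod_const, Finset.card_erase_of_mem (Finset.mem_univ _),
            Finset.card_univ, hcard, mul_pow]
          obtain ⟨m', rfl⟩ : ∃ m', m = m' + 1 := ⟨m - 1, by omega⟩
          rw [Nat.add_sub_cancel, pow_succ]
          ring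
        rw [e3, e1]
        have h5 : 0 ≤ θ * (1 - θ) ^ (m - 1) * 2 ^ m := by
          have : 0 ≤ 1 - θ := by linarith
          positivity
        calc 2 / 3 * θ * (1 - θ) ^ (m - 1) * 2 ^ m = 2 / 3 * (θ * (1 - θ) ^ (m - 1) * 2 ^ m) := by
              ring
          _ ≤ P w * (θ * (1 - θ) ^ (m - 1) * 2 ^ m) := mul_le_mul_of_nonneg_right hP h5
      · push Not at hone
        obtain ⟨j₁, hne, hj₁⟩ := hone
        have hj1 : χ w j₁ = -1 := (hχ w j₁).resolve_left hj₁
        have e3 : ∀ j, e j w = 0 := by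
          intro j
          rw [he]
          unfold Pool.Agent.Lib_helper58.RToda.dens
          by_cases h : j = j₀
          · refine Finset.prod_eq_zero (Finset.mem_univ j₁) ?_
            show 1 + 1 * (if j₁ = j then -χ w j₁ else χ w j₁) = 0
            rw [if_neg (by rw [h]; exact hne), hj1]
            ring
          · refine Finset.prod_eq_zero (Finset.mem_univ j₀) ?_
            show 1 + 1 * (if j₀ = j then -χ w j₀ else χ w j₀) = 0
            rw [if_neg (Ne.symm h), hj0]
            ring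
        simp only [e3, Finset.sum_const_zero, mul_zero]
        exact mul_nonneg (hP0 w) hdn
  have h3 := av_mono key
  have h4 : av (fun w => (1 - θ) ^ m * (P w * dens χ 1 w)
      + 2 / 3 * θ * (1 - θ) ^ (m - 1) * ∑ j, e j w)
      = (1 - θ) ^ m * av (fun w => P w * dens χ 1 w) + 2 / 3 * θ * (1 - θ) ^ (m - 1) * m := by
    have := av_sum (Finset.univ : Finset (Fin 2)) (fun i (w : W) =>
      if i = 0 then (1 - θ) ^ m * (P w * dens χ 1 w)
      else 2 / 3 * θ * (1 - θ) ^ (m - 1) * ∑ j, e j w)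
    simp only [Fin.sum_univ_two, Fin.isValue, if_true, one_ne_zero, if_false] at this
    rw [this, av_mul_left, av_mul_left, av_sum]
    simp only [heav, Finset.sum_const, Finset.card_univ, hcard, nsmul_eq_mul, mul_one]
  rw [← h4]
  exact h3

theorem analytic_u (χ : W → M → ℝ) (hχ : ∀ w j, χ w j = 1 ∨ χ w j = -1)
    (hav : ∀ S : Finset M, S.Nonempty → av (fun w => ∏ j ∈ S, χ w j) = 0)
    (P : W → ℝ) (hP0 : ∀ w, 0 ≤ P w) (hP1 : ∀ w, P w ≤ 1) (T δ : ℝ) (hT : 0 ≤ T) (hδ : 0 ≤ δ)
    (hhat : ∀ S : Finset M, |av (fun w => P w * ∏ j ∈ S, χ w j)| ≤ T * δ ^ S.card)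
    (hno : ∀ w, (∀ j, χ w j = 1) → P w ≤ 1 / 3)
    (hyes : ∀ w j, χ w j = -1 → (∀ j', j' ≠ j → χ w j' = 1) → 2 / 3 ≤ P w)
    (m K : ℕ) (hcard : Fintype.card M = m) (hK : 1 ≤ K) (hm : 20000 * K ^ 2 ≤ m)
    (hδm : m * δ ≤ K + 1) (herr : T * (3 * (m * δ) / (K + 1)) ^ (K + 1) ≤ 1 / 1000) :
    False := by
  have hm20 : 20000 ≤ m := by
    have : 1 ≤ K ^ 2 := Nat.one_le_pow _ _ (by omega)
    omega
  have hm0 : (0:ℝ) < m := by
    have : 0 < m := by omega
    exact_mod_cast this
  set Q : ℝ → ℝ := fun x => av (fun w => P w * dens χ x w) with hQ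
  set H : Finset M → ℝ := fun S => av (fun w => P w * ∏ j ∈ S, χ w j) with hH
  set R : ℝ[X] := ∑ S ∈ (Finset.univ : Finset (Finset M)).filter (fun S => S.card ≤ K),
    C (H S) * (1 - C 2 * X) ^ S.card with hR
  have hReval : ∀ θ : ℝ, R.eval θ
      = ∑ S ∈ (Finset.univ : Finset (Finset M)).filter (fun S => S.card ≤ K),
        H S * (1 - 2 * θ) ^ S.card := by
    intro θ
    rw [hR, Polynomial.eval_finsetSum]
    refine Finset.sum_congr rfl fun S _ => ?_
    simp
  have hQR : ∀ θ : ℝ, 0 ≤ θ → θ ≤ 1 → |Q (1 - 2 * θ) - R.eval θ| ≤ 1 / 1000 := by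
    intro θ h0 h1
    have e : Q (1 - 2 * θ) - R.eval θ
        = ∑ S ∈ (Finset.univ : Finset (Finset M)).filter (fun S => ¬ S.card ≤ K),
          (1 - 2 * θ) ^ S.card * H S := by
      rw [hQ, hReval]
      simp only
      rw [av_mul_dens, ← Finset.sum_filter_add_sum_filter_not Finset.univ (fun S : Finset M => S.card ≤ K)]
      have : ∀ S : Finset M, (1 - 2 * θ) ^ S.card * av (fun w => P w * ∏ j ∈ S, χ w j)
          = H S * (1 - 2 * θ) ^ S.card := fun S => by rw [hH]; ring
      simp only [this]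
      rw [add_sub_cancel_left]
      exact Finset.sum_congr rfl fun S _ => mul_comm _ _
    rw [e]
    refine (Finset.abs_sum_le_sum_abs _ _).trans ?_
    have h2 : ∀ S ∈ (Finset.univ : Finset (Finset M)).filter (fun S => ¬ S.card ≤ K),
        |(1 - 2 * θ) ^ S.card * H S| ≤ T * δ ^ S.card := by
      intro S _
      rw [abs_mul, abs_pow]
      have h3 : |1 - 2 * θ| ≤ 1 := abs_le.2 ⟨by linarith, by linarith⟩
      have h4 : |1 - 2 * θ| ^ S.card ≤ 1 := pow_le_one₀ (abs_nonneg _) h3
      have h5 := hhat S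
      calc |1 - 2 * θ| ^ S.card * |H S| ≤ 1 * |H S| :=
            mul_le_mul_of_nonneg_right h4 (abs_nonneg _)
        _ ≤ T * δ ^ S.card := by rw [one_mul]; exact h5
    refine (Finset.sum_le_sum h2).trans ?_
    rw [← Finset.mul_sum]
    refine le_trans ?_ herr
    exact mul_le_mul_of_nonneg_left (F4.tail_bound2 m hcard (by omega) δ hδ K hδm) hT
  have hDn := fun x h0 h1 w => dens_nonneg χ hχ x h0 h1 w
  have hDa := av_dens χ hav
  -- bounds for Q
  have hQ0 : ∀ x, -1 ≤ x → x ≤ 1 → 0 ≤ Q x := fun x h0 h1 =>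
    av_nonneg fun w => mul_nonneg (hP0 w) (hDn x h0 h1 w)
  have hQ1 : ∀ x, -1 ≤ x → x ≤ 1 → Q x ≤ 1 := by
    intro x h0 h1
    rw [← hDa x]
    apply av_mono
    intro w
    have := mul_le_mul_of_nonneg_right (hP1 w) (hDn x h0 h1 w)
    linarith
  have hD1 : ∀ w, (¬ ∀ j, χ w j = 1) → dens χ 1 w = 0 := by
    intro w hw
    push Not at hw
    obtain ⟨j, hj⟩ := hw
    have : χ w j = -1 := (hχ w j).resolve_left hj
    unfold Pool.Agent.Lib_helper58.RToda.dens
    exact Finset.prod_eq_zero (Finset.mem_univ j) (by rw [this]; ring)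
  have hQone : Q 1 ≤ 1 / 3 := by
    have : Q 1 ≤ av (fun w => (1 / 3) * dens χ 1 w) := by
      apply av_mono
      intro w
      by_cases hw : ∀ j, χ w j = 1
      · exact mul_le_mul_of_nonneg_right (hno w hw) (hDn 1 (by norm_num) le_rfl w)
      · rw [hD1 w hw]; simp
    rw [av_mul_left, hDa] at this
    linarith
  -- the polynomial
  have hdeg : R.degree < ((K + 1 : ℕ) : WithBot ℕ) := by
    refine lt_of_le_of_lt (Polynomial.degree_sum_le _ _) ?_
    rw [Finset.sup_lt_iff (by exact WithBot.bot_lt_coe _)]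
    intro S hS
    rw [Finset.mem_filter] at hS
    have hlin : (1 - C 2 * X : ℝ[X]).natDegree ≤ 1 := by
      have : (1 - C 2 * X : ℝ[X]) = C (-2) * X + C 1 := by
        rw [Polynomial.C_neg, Polynomial.C_1]; ring
      rw [this]
      exact Polynomial.natDegree_linear_le
    have h1 : (C (H S) * (1 - C 2 * X) ^ S.card : ℝ[X]).natDegree ≤ K := by
      refine (Polynomial.natDegree_C_mul_le _ _).trans ?_
      refine (Polynomial.natDegree_pow_le).trans ?_
      calc S.card * (1 - C 2 * X : ℝ[X]).natDegree ≤ S.card * 1 := Nat.mul_le_mul_left _ hlin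
        _ ≤ K := by omega
    have h2 := Polynomial.degree_le_natDegree (p := (C (H S) * (1 - C 2 * X) ^ S.card : ℝ[X]))
    refine lt_of_le_of_lt h2 ?_
    exact_mod_cast Nat.lt_succ_of_le h1
  have hRb : ∀ θ : ℝ, 0 ≤ θ → θ ≤ 1 → |R.eval θ| ≤ 1 + 1 / 100 := by
    intro θ h0 h1
    have h2 := abs_le.1 (hQR θ h0 h1)
    have h3 := hQ0 (1 - 2 * θ) (by linarith) (by linarith)
    have h4 := hQ1 (1 - 2 * θ) (by linarith) (by linarith)
    rw [abs_le]
    constructor <;> linarith [h2.1, h2.2]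
  -- the point
  set θ₁ : ℝ := 1 / 4 / m with hθ₁
  have t0 : 0 ≤ θ₁ := by positivity
  have hmθ : m * θ₁ = 1 / 4 := by rw [hθ₁]; field_simp
  have t1 : θ₁ ≤ 1 := by
    have h1 : (1:ℝ) ≤ m := by
      have : 1 ≤ m := by omega
      exact_mod_cast this
    nlinarith
  have hp := F4U.poly_u K hK R hdeg hRb θ₁ t0 t1
  have hKm : θ₁ * (420 * (K:ℝ) ^ 2) ≤ 1 / 100 := by
    have h1 : (20000:ℝ) * (K:ℝ) ^ 2 ≤ m := by exact_mod_cast hm
    have h2 : θ₁ * (20000 * (K:ℝ) ^ 2) ≤ θ₁ * m := mul_le_mul_of_nonneg_left h1 t0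
    have h3 : θ₁ * m = 1 / 4 := by rw [mul_comm]; exact hmθ
    nlinarith
  have hlow := low_u χ hχ hav P hP0 hyes m hcard (by omega) θ₁ t0 t1
  have hq1 := (abs_le.1 (hQR θ₁ t0 t1)).2
  have hq0 := (abs_le.1 (hQR 0 le_rfl zero_le_one)).1
  rw [mul_zero, sub_zero] at hq0
  have hb0 := hQ0 1 (by norm_num) le_rfl
  have p1 : 3 / 4 ≤ (1 - θ₁) ^ m := by
    have := one_add_mul_le_pow (a := -θ₁) (by linarith) m
    have e : (m:ℝ) * -θ₁ = -(1 / 4) := by rw [mul_neg, hmθ]
    rw [e] at this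
    have e2 : 1 + -θ₁ = 1 - θ₁ := by ring
    rw [e2] at this
    linarith
  have p2 : 3 / 4 ≤ (1 - θ₁) ^ (m - 1) := by
    refine p1.trans ?_
    exact pow_le_pow_of_le_one (by linarith) (by linarith) (Nat.sub_le m 1)
  have hQeq : av (fun w => P w * dens χ 1 w) = Q 1 := rfl
  have hQeq2 : av (fun w => P w * dens χ (1 - 2 * θ₁) w) = Q (1 - 2 * θ₁) := rfl
  rw [hQeq, hQeq2] at hlow
  have l1 : 3 / 4 * Q 1 ≤ (1 - θ₁) ^ m * Q 1 := mul_le_mul_of_nonneg_right p1 hb0
  have l2 : 1 / 8 ≤ 2 / 3 * θ₁ * (1 - θ₁) ^ (m - 1) * m := by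
    have e : 2 / 3 * θ₁ * (1 - θ₁) ^ (m - 1) * m = 2 / 3 * (m * θ₁) * (1 - θ₁) ^ (m - 1) := by ring
    rw [e, hmθ]
    linarith
  have hp' := (abs_le.1 hp).2
  linarith

end

end F4U

end Pool.Agent.RYD
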