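import Pool.Agent.RYD.St

/-!
Project RYD, module AVE: averages over the data of one element.
-/

namespace Pool.Agent.RYD

open Finset Filter Pool.Agent.Lib_helper62.PToda Pool.Agent.Lib_helper58.RToda

namespace AVE

lemma av_bool (f : Bool → ℝ) : av f = (f true + f false) / 2 := by
  unfold av
  simp

lemma av_lin {Y : Type} [Fintype Y] [Nonempty Y] (c k : ℝ) (f : Y → ℝ) :
    av (fun y => c + k * f y) = c + k * av f := by
  have hc : (Fintype.card Y : ℝ) ≠ 0 := by exact_mod_cast Fintype.card_ne_zero
  unfold av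
  rw [Finset.sum_add_distrib, ← Finset.mul_sum]
  simp only [Finset.sum_const, nsmul_eq_mul, Finset.card_univ]
  field_simp

lemma av_ite (d : ℕ) (c1 c2 : ℝ) :
    av (fun a : Fin (d+1) → Bool => if ∀ t : Fin d, a t.succ = true then c1 else c2)
      = c2 + (c1 - c2) * (1 / 2 ^ d) := by
  let h : Fin (d+1) → Bool → ℝ :=
    Fin.cons (fun _ => 1) (fun _ b => if b = true then 1 else 0)
  have h1 : (fun a : Fin (d+1) → Bool => if ∀ t : Fin d, a t.succ = true then c1 else c2)
      = fun a => c2 + (c1 - c2) * ∏ j, h j (a j) := by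
    funext a
    rw [Fin.prod_univ_succ]
    simp only [h, Fin.cons_zero, Fin.cons_succ, one_mul]
    split_ifs with h
    · simp [h]
    · push Not at h
      obtain ⟨t, ht⟩ := h
      rw [Finset.prod_eq_zero (Finset.mem_univ t) (by simp [ht])]
      ring
  rw [h1, av_lin, av_pi, Fin.prod_univ_succ]
  have h2 : av (h 0) = 1 := by
    rw [av_bool]
    simp [h]
  have h3 : ∀ t : Fin d, av (h t.succ) = 1 / 2 := by
    intro t
    rw [av_bool]
    simp [h]
  rw [h2, Finset.prod_congr rfl (fun t _ => h3 t)]
  simp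

lemma av_El (d : ℕ) (f : El d → ℝ) :
    av f = ((av (fun a => f (true, true, a)) + av (fun a => f (true, false, a))) / 2 +
      (av (fun a => f (false, true, a)) + av (fun a => f (false, false, a))) / 2) / 2 := by
  have h1 : av f = av (fun b : Bool => av (fun z : Bool × (Fin (d+1) → Bool) => f (b, z))) :=
    av_prod (fun (b : Bool) (z : Bool × (Fin (d+1) → Bool)) => f (b, z))
  have h2 : ∀ b : Bool, av (fun z : Bool × (Fin (d+1) → Bool) => f (b, z))
      = av (fun b' : Bool => av (fun a : Fin (d+1) → Bool => f (b, b', a))) := fun b =>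
    av_prod (fun (b' : Bool) (a : Fin (d+1) → Bool) => f (b, b', a))
  rw [h1, av_bool, h2, h2, av_bool, av_bool]

end AVE

open AVE in
theorem t_AVE : St_AVE := by
  intro d
  have hp : (2:ℝ) ^ d ≠ 0 := by positivity
  refine ⟨?_, ?_, ?_, ?_⟩
  · rw [av_El]
    have e1 : av (fun a => phA (d := d) (true, true, a)) = 1 / 2 + (0 - 1 / 2) * (1 / 2 ^ d) := by
      rw [← av_ite]
      congr 1
    have e2 : av (fun a => phA (d := d) (true, false, a)) = 1 / 2 * (qd d / 2 ^ d) := by
      rw [← av_const (Y := Fin (d+1) → Bool) (1 / 2 * (qd d / 2 ^ d))]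
      congr 1
    have e3 : av (fun a => phA (d := d) (false, true, a)) = 1 / 2 * (qd d / 2 ^ d) := by
      rw [← av_const (Y := Fin (d+1) → Bool) (1 / 2 * (qd d / 2 ^ d))]
      congr 1
    have e4 : av (fun a => phA (d := d) (false, false, a)) = 1 / 2 + (1 - 1 / 2) * (1 / 2 ^ d) := by
      rw [← av_ite]
      congr 1
    rw [e1, e2, e3, e4]
    unfold qd
    field_simp
    ring
  · rw [av_El]
    have e1 : av (fun a => phB (d := d) (true, true, a)) = 1 / 2 + (0 - 1 / 2) * (1 / 2 ^ d) := by
      rw [← av_ite]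
      congr 1
    have e2 : av (fun a => phB (d := d) (true, false, a)) = 1 / 2 + (0 - 1 / 2) * (1 / 2 ^ d) := by
      rw [← av_ite]
      congr 1
    have e3 : av (fun a => phB (d := d) (false, true, a)) = 1 / 2 + (0 - 1 / 2) * (1 / 2 ^ d) := by
      rw [← av_ite]
      congr 1
    have e4 : av (fun a => phB (d := d) (false, false, a)) = 1 / 2 + (1 - 1 / 2) * (1 / 2 ^ d) := by
      rw [← av_ite]
      congr 1
    rw [e1, e2, e3, e4]
    unfold qd
    field_simp
    ring
  · rw [av_El]
    have e1 : av (fun a => psA (d := d) (true, true, a)) = 0 := by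
      rw [← av_const (Y := Fin (d+1) → Bool) 0]
      congr 1
    have e4 : av (fun a => psA (d := d) (false, false, a)) = 0 := by
      rw [← av_const (Y := Fin (d+1) → Bool) 0]
      congr 1
    have e2 : av (fun a => psA (d := d) (true, false, a)) = 2 * (1 / 2 * (qd d / 2 ^ d)) := by
      rw [← av_const (Y := Fin (d+1) → Bool) (2 * (1 / 2 * (qd d / 2 ^ d)))]
      congr 1
    have e3 : av (fun a => psA (d := d) (false, true, a)) = 2 * (1 / 2 * (qd d / 2 ^ d)) := by
      rw [← av_const (Y := Fin (d+1) → Bool) (2 * (1 / 2 * (qd d / 2 ^ d)))]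
      congr 1
    rw [e1, e2, e3, e4]
    field_simp
    ring
  · rw [av_El]
    have e1 : av (fun a => psB (d := d) (true, true, a)) = 0 + (1 - 0) * (1 / 2 ^ d) := by
      rw [← av_ite]
      congr 1
      funext a
      simp [psB, oneE]
    have e2 : av (fun a => psB (d := d) (true, false, a)) = 0 := by
      rw [← av_const (Y := Fin (d+1) → Bool) 0]
      congr 1
    have e3 : av (fun a => psB (d := d) (false, true, a)) = 0 := by
      rw [← av_const (Y := Fin (d+1) → Bool) 0]
      congr 1
    have e4 : av (fun a => psB (d := d) (false, false, a)) = 0 := by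
      rw [← av_const (Y := Fin (d+1) → Bool) 0]
      congr 1
    rw [e1, e2, e3, e4]
    field_simp
    ring

end Pool.Agent.RYD
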