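import Pool.Agent.RYD.St

/-!
Project RYD, module BASE: the case of one player.
-/

set_option autoImplicit false

namespace Pool.Agent.RYD

open Finset Pool.Agent.Lib_helper62.PToda

namespace BASE

variable {E : Type} [DecidableEq E]

omit [DecidableEq E] in
/-- All elements are one. -/
theorem one0 (x : Pt E 0) (e : E) : one x e := fun t => t.elim0

/-- Flip the bits of the elements of `B`. -/
def fl (B : Finset E) (x : Pt E 0) : Pt E 0 := fun e t => if e ∈ B then !(x e t) else x e t

theorem fl_fl (B : Finset E) (x : Pt E 0) : fl B (fl B x) = x := by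
  funext e t
  by_cases h : e ∈ B <;> simp [fl, h]

theorem no1_fl (B C : Finset E) (x : Pt E 0) : no1 C (fl B x) = no1 C x := by
  unfold no1
  refine prod_congr rfl fun e _ => ?_
  rw [if_pos (one0 _ e), if_pos (one0 _ e)]

theorem sg_neg (B : Finset E) (x : Pt E 0) : sg B (fl B x) = - sg B x := by
  unfold sg
  rw [← Finset.sum_neg_distrib]
  refine sum_congr rfl fun i hi => ?_
  rw [no1_fl, if_pos (one0 _ i), if_pos (one0 _ i)]
  have h : sgn (fl B x i 0) = - sgn (x i 0) := by
    unfold fl
    rw [if_pos hi]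
    cases x i 0 <;> simp [sgn]
  rw [h]
  ring

theorem sg_off (B C : Finset E) (h : Disjoint B C) (x : Pt E 0) : sg C (fl B x) = sg C x := by
  unfold sg
  refine sum_congr rfl fun i hi => ?_
  rw [no1_fl, if_pos (one0 _ i), if_pos (one0 _ i)]
  have h : fl B x i 0 = x i 0 := by
    unfold fl
    rw [if_neg (fun hB => (Finset.disjoint_left.mp h hB hi))]
  rw [h]

theorem bd0 (l : ℕ) : bd 0 l = 0 := by
  unfold bd qd
  rcases l with _ | l
  · simp
  · simp

end BASE

open BASE in
theorem t_BASE : St_BASE := by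
  intro E _ _ J _ _ B hB f hf hind
  rcases isEmpty_or_nonempty J with hJ | hJ
  · have h1 : ∏ j : J, bd 0 (B j).card = 1 := by
      rw [Finset.univ_eq_empty, Finset.prod_empty]
    rw [h1]
    refine (abs_av_le _).trans ?_
    refine (av_mono (g := fun _ => (1 : ℝ)) fun x => ?_).trans (le_of_eq (av_const 1))
    have h2 : ∏ j : J, sg (B j) x = 1 := by rw [Finset.univ_eq_empty, Finset.prod_empty]
    rw [h2, one_mul, Fin.prod_univ_one]
    exact hf 0 x
  · obtain ⟨j0⟩ := hJ
    have h0 : ∏ j, bd 0 (B j).card = 0 := Finset.prod_eq_zero (mem_univ j0) (bd0 _)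
    rw [h0]
    have hF : ∀ x : Pt E 0, (∏ j, sg (B j) (fl (B j0) x)) * ∏ t, f t (fl (B j0) x)
        = - ((∏ j, sg (B j) x) * ∏ t, f t x) := by
      intro x
      have h1 : ∏ t, f t (fl (B j0) x) = ∏ t, f t x := by
        refine prod_congr rfl fun t _ => ?_
        apply hind t
        intro e t' ht'
        exact absurd (Subsingleton.elim (α := Fin 1) t' t) ht'
      have h2 : ∏ j, sg (B j) (fl (B j0) x) = - ∏ j, sg (B j) x := by
        rw [← Finset.mul_prod_erase univ _ (mem_univ j0), ← Finset.mul_prod_erase univ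
          (fun j => sg (B j) x) (mem_univ j0), sg_neg, neg_mul]
        congr 2
        refine prod_congr rfl fun j hj => ?_
        exact sg_off _ _ (hB j0 j (Finset.ne_of_mem_erase hj).symm) x
      rw [h1, h2, neg_mul]
    let e : Pt E 0 ≃ Pt E 0 :=
      { toFun := fl (B j0)
        invFun := fl (B j0)
        left_inv := fl_fl (B j0)
        right_inv := fl_fl (B j0) }
    have hav := av_equiv e (fun x : Pt E 0 => (∏ j, sg (B j) x) * ∏ t, f t x)
    have hav' : av (fun x : Pt E 0 => -1 * ((∏ j, sg (B j) x) * ∏ t, f t x)) =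
        av (fun x : Pt E 0 => (∏ j, sg (B j) x) * ∏ t, f t x) := by
      rw [← hav]
      congr 1
      funext x
      rw [neg_one_mul]
      exact (hF x).symm
    rw [av_mul_left] at hav'
    have hz : av (fun x : Pt E 0 => (∏ j, sg (B j) x) * ∏ t, f t x) = 0 := by linarith
    rw [hz, abs_zero]

end Pool.Agent.RYD
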