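import Pool.Agent.RYD.St

/-!
# Project RYD, module BEE (helper52): `be` as a sum of products
-/

set_option autoImplicit false

namespace Pool.Agent.RYD

open Finset

namespace BEE

section

variable {E : Type} {d : ℕ}

theorem fI_erase [DecidableEq E] (Z Z' : E → Bool) (B : Finset E) (i : E) :
    (fI Z Z' B).erase i = fI Z Z' (B.erase i) := by
  ext e
  unfold fI
  rw [Finset.mem_erase, Finset.mem_filter, Finset.mem_filter, Finset.mem_erase]
  tauto

theorem fU_erase [DecidableEq E] (Z Z' : E → Bool) (B : Finset E) (i : E)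
    (h : ¬(Z i = true ∧ Z' i = false)) : fU Z Z' B = fU Z Z' (B.erase i) := by
  ext e
  unfold fU
  rw [Finset.mem_filter, Finset.mem_filter, Finset.mem_erase]
  constructor
  · rintro ⟨h1, h2⟩
    refine ⟨⟨?_, h1⟩, h2⟩
    rintro rfl
    exact h h2
  · rintro ⟨⟨-, h1⟩, h2⟩
    exact ⟨h1, h2⟩

/-- The product over the remaining elements. -/
theorem rest (Z Z' : E → Bool) (C : Finset E) (x : Pt E d) :
    (cw C x)⁻¹ * (no1 (fU Z Z' C) x * no1 (fU Z' Z C) x * no1 (fI Z Z' C) x) =
      ∏ e ∈ C, phB (d := d) (Z e, Z' e, x e) := by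
  unfold cw no1 fU fI
  rw [Finset.prod_filter, Finset.prod_filter, Finset.prod_filter, ← Finset.prod_inv_distrib,
    ← Finset.prod_mul_distrib, ← Finset.prod_mul_distrib, ← Finset.prod_mul_distrib]
  refine Finset.prod_congr rfl fun e _ => ?_
  unfold phB
  have h1 : oneE (d := d) (Z e, Z' e, x e) ↔ one x e := Iff.rfl
  show _ = if Z e = false ∧ Z' e = false then
      (if oneE (d := d) (Z e, Z' e, x e) then (1 : ℝ) else 1 / 2)
    else (if oneE (d := d) (Z e, Z' e, x e) then 0 else 1 / 2)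
  by_cases ho : one x e
  · have ho' := h1.2 ho
    cases hz : Z e <;> cases hz' : Z' e <;> simp [ho, hz, hz'] <;> simp_all
  · have ho' : ¬ oneE (d := d) (Z e, Z' e, x e) := fun h => ho (h1.1 h)
    cases hz : Z e <;> cases hz' : Z' e <;> simp [ho, hz, hz'] <;> simp_all

theorem cw_erase [DecidableEq E] (B : Finset E) (x : Pt E d) {i : E} (hi : i ∈ B)
    (ho : one x i) : cw B x = cw (B.erase i) x := by
  unfold cw
  rw [← Finset.mul_prod_erase B _ hi, if_pos ho, one_mul]

theorem key [DecidableEq E] (Z Z' : E → Bool) (B : Finset E) (x : Pt E d) :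
    be Z Z' B x = ∑ i ∈ B, psB (d := d) (Z i, Z' i, x i) *
      ∏ e ∈ B.erase i, phB (d := d) (Z e, Z' e, x e) := by
  have h0 : ex1 (fI Z Z' B) x = ∑ i ∈ B, if Z i = true ∧ Z' i = true then
      (if one x i then (1 : ℝ) else 0) * no1 ((fI Z Z' B).erase i) x else 0 := by
    unfold ex1
    rw [← Finset.sum_filter]
    rfl
  unfold be
  rw [h0, Finset.mul_sum, Finset.mul_sum]
  refine Finset.sum_congr rfl fun i hi => ?_
  have h1 : oneE (d := d) (Z i, Z' i, x i) ↔ one x i := Iff.rfl
  have hps : psB (d := d) (Z i, Z' i, x i) =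
      if Z i = true ∧ Z' i = true ∧ oneE (d := d) (Z i, Z' i, x i) then 1 else 0 := rfl
  rw [hps]
  by_cases hz : Z i = true ∧ Z' i = true
  · by_cases ho : one x i
    · rw [if_pos hz, if_pos ho, if_pos ⟨hz.1, hz.2, h1.2 ho⟩, one_mul, one_mul, fI_erase,
        fU_erase Z Z' B i (by rw [hz.2]; simp), fU_erase Z' Z B i (by rw [hz.1]; simp),
        cw_erase B x hi ho]
      exact rest Z Z' (B.erase i) x
    · rw [if_pos hz, if_neg ho, if_neg (fun h => ho (h1.1 h.2.2))]
      ring
  · rw [if_neg hz, if_neg (fun h => hz ⟨h.1, h.2.1⟩)]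
    ring

end

end BEE

open BEE in
theorem t_BEE : St_BEE := by
  intro E _ _ d B y
  exact key (fun e => (y e).1) (fun e => (y e).2.1) B (fun e => (y e).2.2)

end Pool.Agent.RYD
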