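import Pool.Agent.RYD.St2

/-! Project RYD, module BOTH: the final theorem. -/

namespace Pool.Agent.RYD

open Finset Filter Pool.Agent.Lib_helper62.PToda Pool.Agent.Lib_helper58.RToda

namespace BOTH

lemma yes_congr (k n : ℕ) (A A' : Bits → Bool) (h : ∀ b : Bits, b.2.1 ≤ n → A b = A' b) :
    Yes A k n ↔ Yes A' k n := by
  unfold Yes
  have : ∀ (s : Fin k → Fin n) (v : Fin n),
      A (k, n, List.ofFn (fun i => (s i : ℕ)), (v : ℕ))
      = A' (k, n, List.ofFn (fun i => (s i : ℕ)), (v : ℕ)) :=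
    fun s v => h _ le_rfl
  simp only [this]

lemma fin_ra (S : RandAlg Bits) (k n : ℕ) : ∃ N : ℕ, ∀ A A' : Bits → Bool,
    (∀ b : Bits, b.2.1 ≤ N → A b = A' b) → (¬ Solves2 S A k n ↔ ¬ Solves2 S A' k n) := by
  obtain ⟨N, hN⟩ := RandAlg.finite S
  refine ⟨max n N, fun A A' h => ?_⟩
  have e1 : S.prob A = S.prob A' := hN A A' (fun b hb => h b (le_trans hb (le_max_right _ _)))
  have e2 : Yes A k n ↔ Yes A' k n :=
    yes_congr k n A A' (fun b hb => h b (le_trans hb (le_max_left _ _)))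
  unfold Solves2
  rw [e1, e2]

lemma fin_ma (S : MAAlg Bits) (k n : ℕ) : ∃ N : ℕ, ∀ A A' : Bits → Bool,
    (∀ b : Bits, b.2.1 ≤ N → A b = A' b) → (¬ SolvesCo S A k n ↔ ¬ SolvesCo S A' k n) := by
  choose M hM using fun y => RandAlg.finite (S.run y)
  refine ⟨max n (Finset.univ.sup M), fun A A' h => ?_⟩
  have e1 : ∀ y, (S.run y).prob A = (S.run y).prob A' := fun y =>
    hM y A A' (fun b hb => h b (le_trans (le_trans hb
      (Finset.le_sup (f := M) (Finset.mem_univ y))) (le_max_right _ _)))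
  have e2 : Yes A k n ↔ Yes A' k n :=
    yes_congr k n A A' (fun b hb => h b (le_trans hb (le_max_left _ _)))
  unfold SolvesCo
  simp only [e1, e2]

end BOTH

open BOTH in
theorem t_BOTH (hDIAG : St_DIAG) (hONE : St_ONE4) (hPAR : St_PAR4) (hONEM : St_ONEM)
    (hPARM : St_PARM) : St_BOTH := by
  intro ι ι' _ _ ma ra c c' hma hra
  obtain ⟨A, hA⟩ := hDIAG (ι' ⊕ ι)
    (fun x k n A => Sum.elim (fun i => ¬ Solves2 (ra i k n) A k n)
      (fun i => ¬ SolvesCo (ma i k n) A k n) x)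
    (by
      rintro (i | i) k n
      · exact fin_ra (ra i k n) k n
      · exact fin_ma (ma i k n) k n)
    (fun x k => Sum.elim (fun i => 4 * c' i < k) (fun i => 15 * c i + 20 < k) x)
    (by
      rintro (i | i) k hk
      · have hk' : 4 * c' i < k := hk
        obtain ⟨F, G, hFG⟩ := hra i
        filter_upwards [hPAR (c' i) k (F k) (G k) hk'] with n hn A₀
        obtain ⟨hG, m, l, K, hm1, hl, hK, hm, hKm, hδ, herr⟩ := hn
        exact hONE k n (G k) m l K (F k * n ^ c' i) (G k)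
          (F k * n ^ c' i) hG hm1 hl hK hm hKm hδ herr A₀ (ra i k n)
          (fun ω => (hFG k n ω).1) (fun ω => (hFG k n ω).2)
      · have hk' : 15 * c i + 20 < k := hk
        obtain ⟨F, G, hFG⟩ := hma i
        filter_upwards [hPARM (c i) k (F k) (G k) hk'] with n hn A₀
        obtain ⟨hG, m, l, K, hm1, hl, hK, hm, hδ, hpow, herr⟩ := hn
        exact hONEM k n (G k) m l K (F k * n ^ c i) (G k)
          (F k * n ^ c i) (F k * n ^ c i) hG hm1 hl hK hm hδ hpow herr A₀ (ma i k n)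
          (hFG k n).1 (fun y ω => ((hFG k n).2 y ω).1) (fun y ω => ((hFG k n).2 y ω).2))
  exact ⟨A, fun i k hk n₀ => hA (Sum.inl i) k hk n₀, fun i k hk n₀ => hA (Sum.inr i) k hk n₀⟩

end Pool.Agent.RYD
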