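import Pool.Agent.RYD.PAR4

namespace Pool.Agent.RYD

open Finset Filter Pool.Agent.Lib_helper62.PToda Pool.Agent.Lib_helper58.RToda

/-- MPAR: parameters of the Merlin-Arthur form. -/
def St_MPAR : Prop := ∀ (c k F G : ℕ), 8 * c < k →
    ∀ᶠ n : ℕ in atTop, G + 2 ≤ n ∧ ∃ m l K, 1 ≤ m ∧ 1 ≤ l ∧ 1 ≤ K ∧ m * l ≤ n ^ k ∧
      200 * K ^ 2 ≤ m ∧ (m:ℝ) * (qd (G+1) / Real.sqrt l) ≤ K + 1 ∧
      (((3 * (((F * n ^ c + 1) ^ G + 1) ^ (G + 1 + 1)) ^ (F * n ^ c)) ^ (F * n ^ c + 2) : ℕ) : ℝ) *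
        (3 * ((m:ℝ) * (qd (G+1) / Real.sqrt l)) / (K + 1)) ^ (K + 1) ≤ 1 / 100

namespace MPAR

/-- The arithmetic for a bound `T n ≤ n ^ (E n^c)`. -/
lemma core (c k G E : ℕ) (hk : 4 * c < k) (T : ℕ → ℕ) (hTT : ∀ᶠ n : ℕ in atTop, T n ≤ n ^ (E * n ^ c)) :
    ∀ᶠ n : ℕ in atTop, G + 2 ≤ n ∧ ∃ m l K, 1 ≤ m ∧ 1 ≤ l ∧ 1 ≤ K ∧ m * l ≤ n ^ k ∧
      200 * K ^ 2 ≤ m ∧ (m:ℝ) * (qd (G+1) / Real.sqrt l) ≤ K + 1 ∧
      ((T n : ℕ) : ℝ) *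
        (3 * ((m:ℝ) * (qd (G+1) / Real.sqrt l)) / (K + 1)) ^ (K + 1) ≤ 1 / 100 := by
  obtain ⟨A, hA⟩ : ∃ A, A = 3200 * (E + 1) ^ 2 := ⟨_, rfl⟩
  obtain ⟨Q, hQ⟩ : ∃ Q, Q = 2 ^ (G + 1) := ⟨_, rfl⟩
  filter_upwards [eventually_ge_atTop (G + 100), hTT, eventually_ge_atTop A,
    eventually_ge_atTop (4 * A ^ 2 * (81 * 200 ^ 4 * (4 * (E + 1)) ^ 4 * Q ^ 4))]
    with n hn1 hT hn2 hn3
  have hn0 : 0 < n := by omega
  have hnc : 1 ≤ n ^ c := Nat.one_le_pow _ _ hn0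
  have hA0 : 0 < A := by rw [hA]; positivity
  obtain ⟨l, hl⟩ : ∃ l, l = n ^ (2 * c + 1) / A := ⟨_, rfl⟩
  obtain ⟨K, hK⟩ : ∃ K, K = 4 * (E + 1) * n ^ c := ⟨_, rfl⟩
  have hK1 : 1 ≤ K := by
    rw [hK]
    have : 1 * 1 ≤ (4 * (E + 1)) * n ^ c := Nat.mul_le_mul (by omega) hnc
    omega
  have hy : A ≤ n ^ (2 * c + 1) := by
    calc A ≤ n := hn2
      _ = n ^ 1 := (pow_one n).symm
      _ ≤ n ^ (2 * c + 1) := Nat.pow_le_pow_right hn0 (by omega)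
  have hl1 : 1 ≤ l := by
    rw [hl]
    exact (Nat.le_div_iff_mul_le hA0).2 (by rw [one_mul]; exact hy)
  have hyl : n ^ (2 * c + 1) ≤ 2 * A * l := by
    have h1 := Nat.lt_mul_div_succ (n ^ (2 * c + 1)) hA0
    rw [← hl] at h1
    have h2 : A * (l + 1) ≤ A * (2 * l) := Nat.mul_le_mul_left _ (by omega)
    calc n ^ (2 * c + 1) ≤ A * (l + 1) := h1.le
      _ ≤ A * (2 * l) := h2
      _ = 2 * A * l := by ring
  have hm : 200 * K ^ 2 = A * n ^ (2 * c) := by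
    rw [hK, hA]
    ring
  have hbig : 81 * 200 ^ 4 * K ^ 4 * Q ^ 4 * n ≤ l ^ 2 := by
    have h1 : (4 * A ^ 2) * (81 * 200 ^ 4 * K ^ 4 * Q ^ 4 * n) ≤ (4 * A ^ 2) * l ^ 2 := by
      calc (4 * A ^ 2) * (81 * 200 ^ 4 * K ^ 4 * Q ^ 4 * n)
          = (4 * A ^ 2 * (81 * 200 ^ 4 * (4 * (E + 1)) ^ 4 * Q ^ 4)) * n ^ (4 * c + 1) := by
            rw [hK]; ring
        _ ≤ n * n ^ (4 * c + 1) := Nat.mul_le_mul_right _ hn3
        _ = (n ^ (2 * c + 1)) ^ 2 := by ring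
        _ ≤ (2 * A * l) ^ 2 := Nat.pow_le_pow_left hyl 2
        _ = (4 * A ^ 2) * l ^ 2 := by ring
    exact Nat.le_of_mul_le_mul_left h1 (by positivity)
  have hKE : 4 * (E * n ^ c + 1) ≤ K + 1 := by
    have : K = 4 * (E * n ^ c) + 4 * n ^ c := by rw [hK]; ring
    omega
  have hq0 : 0 ≤ qd (G+1) := by
    unfold qd
    have : (1:ℝ) ≤ 2 ^ (G+1) := one_le_pow₀ (by norm_num)
    linarith
  have hqQ : qd (G+1) ≤ (Q:ℝ) := by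
    unfold qd
    rw [hQ]
    push_cast
    linarith
  have hreal := PAR4.real_part n (200 * K ^ 2) l K Q _ (E * n ^ c) (qd (G+1)) hq0 hqQ (by omega)
    hl1 hK1 rfl hbig hT hKE
  refine ⟨by omega, 200 * K ^ 2, l, K, ?_, hl1, hK1, ?_, le_rfl, hreal.1, hreal.2⟩
  · have : 1 ≤ K ^ 2 := Nat.one_le_pow _ _ (by omega)
    omega
  · rw [hm]
    calc A * n ^ (2 * c) * l = n ^ (2 * c) * (n ^ (2 * c + 1) / A * A) := by rw [hl]; ring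
      _ ≤ n ^ (2 * c) * n ^ (2 * c + 1) := Nat.mul_le_mul_left _ (Nat.div_mul_le_self _ _)
      _ = n ^ (4 * c + 1) := by ring
      _ ≤ n ^ k := Nat.pow_le_pow_right hn0 hk


end MPAR

theorem t_MPAR : St_MPAR := by
  intro c k F G hk
  obtain ⟨E, hE⟩ : ∃ E, E = (c + 1) * (G + 1) * (G + 2) * F := ⟨_, rfl⟩
  refine MPAR.core (2 * c) k G ((E + 1) * (F + 2)) (by omega)
    (fun n => (3 * (((F * n ^ c + 1) ^ G + 1) ^ (G + 1 + 1)) ^ (F * n ^ c)) ^ (F * n ^ c + 2)) ?_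
  filter_upwards [eventually_ge_atTop (G + F + 100)] with n hn1
  have hn0 : 0 < n := by omega
  have hnc : 1 ≤ n ^ c := Nat.one_le_pow _ _ hn0
  have hT : (((F * n ^ c + 1) ^ G + 1) ^ (G + 1 + 1)) ^ (F * n ^ c) ≤ n ^ (E * n ^ c) := by
    have hb1 : F * n ^ c + 2 ≤ n ^ (c + 1) := by
      rw [pow_succ, mul_comm (n ^ c)]
      calc F * n ^ c + 2 ≤ F * n ^ c + 2 * n ^ c := by omega
        _ = (F + 2) * n ^ c := by ring
        _ ≤ n * n ^ c := Nat.mul_le_mul_right _ (by omega)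
    have hb3 : (F * n ^ c + 1) ^ G + 1 ≤ (n ^ (c + 1)) ^ (G + 1) := by
      calc (F * n ^ c + 1) ^ G + 1 ≤ (F * n ^ c + 2) ^ (G + 1) := by
            have h1 : (F * n ^ c + 1) ^ G ≤ (F * n ^ c + 2) ^ G := Nat.pow_le_pow_left (by omega) _
            have h2 : 1 ≤ (F * n ^ c + 2) ^ G := Nat.one_le_pow _ _ (by omega)
            calc (F * n ^ c + 1) ^ G + 1 ≤ (F * n ^ c + 2) ^ G + (F * n ^ c + 2) ^ G := by omega
              _ = (F * n ^ c + 2) ^ G * 2 := by ring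
              _ ≤ (F * n ^ c + 2) ^ G * (F * n ^ c + 2) := Nat.mul_le_mul_left _ (by omega)
              _ = (F * n ^ c + 2) ^ (G + 1) := by rw [pow_succ]
        _ ≤ _ := Nat.pow_le_pow_left hb1 _
    refine (Nat.pow_le_pow_left (Nat.pow_le_pow_left hb3 _) _).trans (le_of_eq ?_)
    rw [← pow_mul, ← pow_mul, ← pow_mul]
    congr 1
    rw [hE]
    ring
  have h3 : 3 * (((F * n ^ c + 1) ^ G + 1) ^ (G + 1 + 1)) ^ (F * n ^ c)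
      ≤ n ^ ((E + 1) * n ^ c) := by
    calc 3 * (((F * n ^ c + 1) ^ G + 1) ^ (G + 1 + 1)) ^ (F * n ^ c)
        ≤ n * n ^ (E * n ^ c) := Nat.mul_le_mul (by omega) hT
      _ = n ^ (E * n ^ c + 1) := by rw [pow_succ, mul_comm]
      _ ≤ n ^ ((E + 1) * n ^ c) := Nat.pow_le_pow_right hn0 (by
          have : (E + 1) * n ^ c = E * n ^ c + n ^ c := by ring
          omega)
  calc (3 * (((F * n ^ c + 1) ^ G + 1) ^ (G + 1 + 1)) ^ (F * n ^ c)) ^ (F * n ^ c + 2)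
      ≤ (n ^ ((E + 1) * n ^ c)) ^ (F * n ^ c + 2) := Nat.pow_le_pow_left h3 _
    _ = n ^ (((E + 1) * n ^ c) * (F * n ^ c + 2)) := by rw [← pow_mul]
    _ ≤ n ^ ((E + 1) * (F + 2) * n ^ (2 * c)) := by
        apply Nat.pow_le_pow_right hn0
        have e : (E + 1) * (F + 2) * n ^ (2 * c) = ((E + 1) * n ^ c) * ((F + 2) * n ^ c) := by ring
        rw [e]
        apply Nat.mul_le_mul_left
        have : (F + 2) * n ^ c = F * n ^ c + 2 * n ^ c := by ring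
        omega

end Pool.Agent.RYD
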