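import Pool.Agent.RYD.St

namespace Pool.Agent.RYD

open Finset Filter Pool.Agent.Lib_helper62.PToda Pool.Agent.Lib_helper58.RToda

/-- MSM: products of `r` deterministic algorithms have small correlation with the signs. -/
def St_MSM : Prop := ∀ (β : Type) (m l d : ℕ), 1 ≤ l → 1 ≤ d →
    ∀ (inst : Pt (Fin m × Fin l) d → β → Bool) (owner : β → Option (Fin (d+1))),
    (∀ t w w', AgO t w w' → ∀ b, owner b ≠ some t → inst w b = inst w' b) →
    ∀ (N₀ κ₀ : ℕ) (B : ℕ), 1 ≤ B → ((N₀ + 1) ^ κ₀ + 1) ^ (d + 1) ≤ B →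
    ∀ (r : ℕ) (S : Fin r → Strat β), (∀ i, (S i).Deterministic) →
    ∀ D, (∀ i, (S i).Within N₀ κ₀ d D) → ∀ U : Finset (Fin m),
    |av (fun w : Sm m l d => (∏ i, ind ((S i).Accepts (inst w.1))) * ∏ j ∈ U, ch w j)|
      ≤ ((B:ℝ) ^ D) ^ r * (qd d / Real.sqrt l) ^ U.card

theorem t_MSM (hC : St_COV) (hR : St_COR) : St_MSM := by
  classical
  intro β m l d hl hd inst owner hown N₀ κ₀ B hB1 hB r S hdet D hS U
  choose ι hf φ hc hi ha using fun i : Fin r =>
    hC β (Fin m × Fin l) d inst owner hown N₀ κ₀ B hB1 hB (S i) (hdet i) D (hS i)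
  have e : (fun w : Sm m l d => (∏ i, ind ((S i).Accepts (inst w.1))) * ∏ j ∈ U, ch w j)
      = (fun w : Sm m l d => ∑ a : (∀ i, ι i),
        (∏ t, ∏ i, (if φ i (a i) t w.1 = true then (1:ℝ) else 0)) * ∏ j ∈ U, ch w j) := by
    funext w
    rw [← Finset.sum_mul]
    congr 1
    have h1 : ∀ i, ind ((S i).Accepts (inst w.1))
        = ∑ a : ι i, ∏ t, (if φ i a t w.1 = true then (1:ℝ) else 0) := fun i => ha i w.1
    simp only [h1]
    rw [Finset.prod_univ_sum, Fintype.piFinset_univ]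
    refine Finset.sum_congr rfl fun a _ => ?_
    rw [Finset.prod_comm]
  rw [e, av_sum]
  refine (Finset.abs_sum_le_sum_abs _ _).trans ?_
  have hcor : ∀ a : (∀ i, ι i), |av (fun w : Sm m l d =>
      (∏ t, ∏ i, (if φ i (a i) t w.1 = true then (1:ℝ) else 0)) * ∏ j ∈ U, ch w j)|
      ≤ (qd d / Real.sqrt l) ^ U.card := by
    intro a
    refine hR m l d hl hd U
      (fun t x => ∏ i, (if φ i (a i) t x = true then (1:ℝ) else 0)) ?_ ?_
    · intro t x
      rw [Finset.abs_prod]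
      refine Finset.prod_le_one (fun i _ => abs_nonneg _) (fun i _ => ?_)
      split_ifs <;> simp
    · intro t x x' h
      refine Finset.prod_congr rfl fun i _ => ?_
      simp only [hi i (a i) t x x' h]
  refine (Finset.sum_le_sum fun a _ => hcor a).trans ?_
  rw [Finset.sum_const, Finset.card_univ, nsmul_eq_mul]
  apply mul_le_mul_of_nonneg_right
  · rw [Fintype.card_pi]
    calc ((∏ i, Fintype.card (ι i) : ℕ) : ℝ) ≤ ((∏ _i : Fin r, B ^ D : ℕ) : ℝ) := by
          exact_mod_cast Finset.prod_le_prod' fun i _ => hc i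
      _ = ((B:ℝ) ^ D) ^ r := by
          rw [Finset.prod_const, Finset.card_univ, Fintype.card_fin]
          push_cast
          rfl
  · apply pow_nonneg
    apply div_nonneg _ (Real.sqrt_nonneg _)
    unfold qd
    have : (1:ℝ) ≤ 2 ^ d := one_le_pow₀ (by norm_num)
    linarith

end Pool.Agent.RYD
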