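import Pool.Agent.RYD.St

namespace Pool.Agent.RYD

open Finset Filter Pool.Agent.Lib_helper62.PToda Pool.Agent.Lib_helper58.RToda

namespace ONE

theorem within_mono {β : Type} {N₀ κ₀ d d' : ℕ} (h : d ≤ d') : ∀ (S : Strat β) (D : ℕ),
    S.Within N₀ κ₀ d D → S.Within N₀ κ₀ d' D
  | .answer b, D, _ => by cases D <;> trivial
  | .guess s0 s1, 0, hS => by exact hS.elim
  | .guess s0 s1, D + 1, hS => ⟨within_mono h s0 D hS.1, within_mono h s1 D hS.2⟩
  | .count N κ T next, 0, hS => by exact hS.elim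
  | .count N κ T next, D + 1, hS =>
    ⟨hS.1, hS.2.1, fun y => (hS.2.2.1 y).trans h, fun c => within_mono h (next c) D (hS.2.2.2 c)⟩

end ONE

theorem t_ONE (hNEM : St_NEM) (hCHI : St_CHI) (hUNC : St_UNC) (hSMALL : St_SMALL)
    (hINST : St_INST) : St_ONE := by
  intro k n G m l K N₀ κ₀ D hn hm1 hl hK hm hKm hδ herr A₀ S hdet hS
  by_contra hcon
  have hdec : ∀ A : Bits → Bool, (∀ b : Bits, ¬ (b.1 = k ∧ b.2.1 = n) → A b = A₀ b) →
      Solves2 S A k n := fun A hA => by_contra fun h => hcon ⟨A, hA, h⟩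
  have hne : Nonempty (Sm m l (G+1)) := hNEM m l (G+1) hl (by omega)
  have hcard : Fintype.card (Fin m × Fin l) ≤ Fintype.card (Fin k → Fin n) := by
    simp only [Fintype.card_prod, Fintype.card_fin, Fintype.card_fun]
    exact hm
  obtain ⟨emb⟩ := Function.Embedding.nonempty_of_card_le hcard
  obtain ⟨h1, h2, h3⟩ := hINST m l (G+1) k n (by omega) emb A₀
  have hB1 : 1 ≤ ((N₀ + 1) ^ κ₀ + 1) ^ (G + 1 + 1) := Nat.one_le_pow _ _ (by omega)
  have hyes : ∀ w : Sm m l (G+1), Yes (mkI emb A₀ w.1) k n ↔ ∃ j, ch w j = -1 := by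
    intro w
    rw [h3 w.1]
    constructor
    · rintro ⟨j, i, h⟩
      exact ⟨j, ((hCHI m l (G+1) w j).2).2 ⟨i, h⟩⟩
    · rintro ⟨j, h⟩
      obtain ⟨i, hi⟩ := ((hCHI m l (G+1) w j).2).1 h
      exact ⟨j, i, hi⟩
  have hq : 0 ≤ qd (G+1) := by
    unfold qd
    have : (1:ℝ) ≤ 2 ^ (G+1) := one_le_pow₀ (by norm_num)
    linarith
  refine analytic_core (W := Sm m l (G+1)) (M := Fin m) (fun w j => ch w j)
    (fun w j => (hCHI m l (G+1) w j).1) (fun U hU => hUNC m l (G+1) U hU)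
    (fun w => S.prob (mkI emb A₀ w.1)) ?_ ?_
    (((((N₀ + 1) ^ κ₀ + 1) ^ (G + 1 + 1)) ^ D : ℕ) : ℝ) (qd (G+1) / Real.sqrt l) (by positivity)
    (by positivity) ?_ ?_ ?_ m K (by simp) hK hKm hδ herr
  · intro w
    rw [RandAlg.prob_eq]
    exact av_nonneg fun ω => ind_nonneg _
  · intro w
    rw [RandAlg.prob_eq]
    exact (av_mono fun ω => ind_le_one _).trans (le_of_eq (av_const 1))
  · intro U
    have e1 : (fun w : Sm m l (G+1) => S.prob (mkI emb A₀ w.1) * ∏ j ∈ U, ch w j)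
        = (fun w : Sm m l (G+1) =>
          av (fun ω => ind ((S.run ω).Accepts (mkI emb A₀ w.1)) * ∏ j ∈ U, ch w j)) := by
      funext w
      rw [RandAlg.prob_eq, mul_comm, ← av_mul_left]
      congr 1
      funext ω
      ring
    rw [e1, av_swap]
    refine (abs_av_le _).trans ?_
    refine le_trans (av_mono (g := fun _ =>
      (((((N₀ + 1) ^ κ₀ + 1) ^ (G + 1 + 1)) ^ D : ℕ) : ℝ) *
        (qd (G+1) / Real.sqrt l) ^ U.card) ?_) (le_of_eq (av_const _))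
    intro ω
    have := hSMALL Bits m l (G+1) hl (by omega) (mkI emb A₀) (mkO k n (G+1)) h1 N₀ κ₀
      (((N₀ + 1) ^ κ₀ + 1) ^ (G + 1 + 1)) hB1 le_rfl (S.run ω) (hdet ω) D
      (ONE.within_mono (Nat.le_succ G) _ _ (hS ω)) U
    push_cast at this ⊢
    exact this
  · intro w hw
    apply (hdec (mkI emb A₀ w.1) (h2 w.1)).2
    rw [hyes]
    rintro ⟨j, hj⟩
    have := hw j
    rw [this] at hj
    norm_num at hj
  · intro w hw
    exact (hdec (mkI emb A₀ w.1) (h2 w.1)).1 ((hyes w).2 hw)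

end Pool.Agent.RYD
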