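import Pool.Agent.RYD.St

namespace Pool.Agent.RYD

open Finset Filter Pool.Agent.Lib_helper62.PToda Pool.Agent.Lib_helper58.RToda

/-- PAR4: parameters, with `K = 4 (E+1) n^c`, `m = 200 K^2`, `l = n^(2c+1) / (3200 (E+1)^2)`. -/
def St_PAR4 : Prop := ∀ (c k F G : ℕ), 4 * c < k →
    ∀ᶠ n : ℕ in atTop, G + 2 ≤ n ∧ ∃ m l K, 1 ≤ m ∧ 1 ≤ l ∧ 1 ≤ K ∧ m * l ≤ n ^ k ∧
      200 * K ^ 2 ≤ m ∧ (m:ℝ) * (qd (G+1) / Real.sqrt l) ≤ K + 1 ∧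
      (((((F * n ^ c + 1) ^ G + 1) ^ (G + 1 + 1)) ^ (F * n ^ c) : ℕ) : ℝ) *
        (3 * ((m:ℝ) * (qd (G+1) / Real.sqrt l)) / (K + 1)) ^ (K + 1) ≤ 1 / 100

namespace PAR4

lemma real_part (n m l K Q T E : ℕ) (q : ℝ) (hq0 : 0 ≤ q) (hqQ : q ≤ Q) (hn : 100 ≤ n)
    (hl : 1 ≤ l) (hK : 1 ≤ K) (hm : m = 200 * K ^ 2)
    (hbig : 81 * 200 ^ 4 * K ^ 4 * Q ^ 4 * n ≤ l ^ 2) (hT : T ≤ n ^ E) (hKE : 4 * (E + 1) ≤ K + 1) :
    (m:ℝ) * (q / Real.sqrt l) ≤ K + 1 ∧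
      (T:ℝ) * (3 * ((m:ℝ) * (q / Real.sqrt l)) / (K + 1)) ^ (K + 1) ≤ 1 / 100 := by
  have hn0 : (0:ℝ) < n := by
    have : 0 < n := by omega
    exact_mod_cast this
  have hl0 : (0:ℝ) < l := by exact_mod_cast hl
  have hK0 : (0:ℝ) < K := by exact_mod_cast hK
  have hs0 : 0 < Real.sqrt l := Real.sqrt_pos.2 hl0
  have hs4 : Real.sqrt l ^ 4 = (l:ℝ) ^ 2 := by
    have : Real.sqrt l ^ 4 = (Real.sqrt l ^ 2) ^ 2 := by ring
    rw [this, Real.sq_sqrt hl0.le]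
  set x : ℝ := 3 * ((m:ℝ) * (q / Real.sqrt l)) / (K + 1) with hx
  have hx0 : 0 ≤ x := by positivity
  have hmR : (m:ℝ) = 200 * (K:ℝ) ^ 2 := by rw [hm]; push_cast; ring
  have hx4 : x ^ 4 ≤ 1 / n := by
    have e1 : x ^ 4 = 81 * 200 ^ 4 * (K:ℝ) ^ 8 * q ^ 4 / ((l:ℝ) ^ 2 * ((K:ℝ) + 1) ^ 4) := by
      rw [hx, hmR, ← hs4]
      field_simp
      ring
    have hbigR : 81 * 200 ^ 4 * (K:ℝ) ^ 4 * (Q:ℝ) ^ 4 * n ≤ (l:ℝ) ^ 2 := by exact_mod_cast hbig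
    rw [e1, div_le_div_iff₀ (by positivity) hn0]
    have h1 : q ^ 4 ≤ (Q:ℝ) ^ 4 := pow_le_pow_left₀ hq0 hqQ 4
    have h2 : (K:ℝ) ^ 4 ≤ ((K:ℝ) + 1) ^ 4 := pow_le_pow_left₀ hK0.le (by linarith) 4
    calc 81 * 200 ^ 4 * (K:ℝ) ^ 8 * q ^ 4 * n
        ≤ 81 * 200 ^ 4 * (K:ℝ) ^ 8 * (Q:ℝ) ^ 4 * n := by
          apply mul_le_mul_of_nonneg_right _ hn0.le
          apply mul_le_mul_of_nonneg_left h1 (by positivity)
      _ = (K:ℝ) ^ 4 * (81 * 200 ^ 4 * (K:ℝ) ^ 4 * (Q:ℝ) ^ 4 * n) := by ring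
      _ ≤ ((K:ℝ) + 1) ^ 4 * (l:ℝ) ^ 2 := mul_le_mul h2 hbigR (by positivity) (by positivity)
      _ = 1 * ((l:ℝ) ^ 2 * ((K:ℝ) + 1) ^ 4) := by ring
  have hn1 : (1:ℝ) / n ≤ 1 := by
    rw [div_le_one hn0]
    have : (100:ℝ) ≤ n := by exact_mod_cast hn
    linarith
  have hx1 : x ≤ 1 := by
    by_contra h
    push Not at h
    have := one_lt_pow₀ h (n := 4) (by norm_num)
    linarith
  refine ⟨?_, ?_⟩
  · have h3 : 3 * ((m:ℝ) * (q / Real.sqrt l)) ≤ K + 1 := by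
      have := (div_le_one (show (0:ℝ) < (K:ℝ) + 1 by positivity)).1 hx1
      exact this
    have h4 : 0 ≤ (m:ℝ) * (q / Real.sqrt l) := by positivity
    linarith
  · have hT' : (T:ℝ) ≤ (n:ℝ) ^ E := by exact_mod_cast hT
    have h5 : x ^ (K + 1) ≤ (1 / (n:ℝ)) ^ (E + 1) := by
      calc x ^ (K + 1) ≤ x ^ (4 * (E + 1)) := pow_le_pow_of_le_one hx0 hx1 hKE
        _ = (x ^ 4) ^ (E + 1) := by rw [pow_mul]
        _ ≤ (1 / (n:ℝ)) ^ (E + 1) := pow_le_pow_left₀ (by positivity) hx4 _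
    calc (T:ℝ) * x ^ (K + 1) ≤ (n:ℝ) ^ E * (1 / (n:ℝ)) ^ (E + 1) :=
          mul_le_mul hT' h5 (by positivity) (by positivity)
      _ = 1 / n := by
          rw [one_div, inv_pow, pow_succ]
          field_simp
      _ ≤ 1 / 100 := by
          rw [div_le_div_iff₀ hn0 (by norm_num)]
          have : (100:ℝ) ≤ n := by exact_mod_cast hn
          linarith

end PAR4

theorem t_PAR4 : St_PAR4 := by
  intro c k F G hk
  obtain ⟨E, hE⟩ : ∃ E, E = (c + 1) * (G + 1) * (G + 2) * F := ⟨_, rfl⟩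
  obtain ⟨A, hA⟩ : ∃ A, A = 3200 * (E + 1) ^ 2 := ⟨_, rfl⟩
  obtain ⟨Q, hQ⟩ : ∃ Q, Q = 2 ^ (G + 1) := ⟨_, rfl⟩
  filter_upwards [eventually_ge_atTop (G + F + 100), eventually_ge_atTop A,
    eventually_ge_atTop (4 * A ^ 2 * (81 * 200 ^ 4 * (4 * (E + 1)) ^ 4 * Q ^ 4))]
    with n hn1 hn2 hn3
  have hn0 : 0 < n := by omega
  have hnc : 1 ≤ n ^ c := Nat.one_le_pow _ _ hn0
  have hA0 : 0 < A := by rw [hA]; positivity
  obtain ⟨l, hl⟩ : ∃ l, l = n ^ (2 * c + 1) / A := ⟨_, rfl⟩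
  obtain ⟨K, hK⟩ : ∃ K, K = 4 * (E + 1) * n ^ c := ⟨_, rfl⟩
  have hK1 : 1 ≤ K := by
    rw [hK]
    have : 1 * 1 ≤ (4 * (E + 1)) * n ^ c := Nat.mul_le_mul (by omega) hnc
    omega
  have hy : A ≤ n ^ (2 * c + 1) := by
    calc A ≤ n := hn2
      _ = n ^ 1 := (pow_one n).symm
      _ ≤ n ^ (2 * c + 1) := Nat.pow_le_pow_right hn0 (by omega)
  have hl1 : 1 ≤ l := by
    rw [hl]
    exact (Nat.le_div_iff_mul_le hA0).2 (by rw [one_mul]; exact hy)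
  have hyl : n ^ (2 * c + 1) ≤ 2 * A * l := by
    have h1 := Nat.lt_mul_div_succ (n ^ (2 * c + 1)) hA0
    rw [← hl] at h1
    have h2 : A * (l + 1) ≤ A * (2 * l) := Nat.mul_le_mul_left _ (by omega)
    calc n ^ (2 * c + 1) ≤ A * (l + 1) := h1.le
      _ ≤ A * (2 * l) := h2
      _ = 2 * A * l := by ring
  have hm : 200 * K ^ 2 = A * n ^ (2 * c) := by
    rw [hK, hA]
    ring
  have hbig : 81 * 200 ^ 4 * K ^ 4 * Q ^ 4 * n ≤ l ^ 2 := by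
    have h1 : (4 * A ^ 2) * (81 * 200 ^ 4 * K ^ 4 * Q ^ 4 * n) ≤ (4 * A ^ 2) * l ^ 2 := by
      calc (4 * A ^ 2) * (81 * 200 ^ 4 * K ^ 4 * Q ^ 4 * n)
          = (4 * A ^ 2 * (81 * 200 ^ 4 * (4 * (E + 1)) ^ 4 * Q ^ 4)) * n ^ (4 * c + 1) := by
            rw [hK]; ring
        _ ≤ n * n ^ (4 * c + 1) := Nat.mul_le_mul_right _ hn3
        _ = (n ^ (2 * c + 1)) ^ 2 := by ring
        _ ≤ (2 * A * l) ^ 2 := Nat.pow_le_pow_left hyl 2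
        _ = (4 * A ^ 2) * l ^ 2 := by ring
    exact Nat.le_of_mul_le_mul_left h1 (by positivity)
  have hT : (((F * n ^ c + 1) ^ G + 1) ^ (G + 1 + 1)) ^ (F * n ^ c) ≤ n ^ (E * n ^ c) := by
    have hb1 : F * n ^ c + 2 ≤ n ^ (c + 1) := by
      rw [pow_succ, mul_comm (n ^ c)]
      calc F * n ^ c + 2 ≤ F * n ^ c + 2 * n ^ c := by omega
        _ = (F + 2) * n ^ c := by ring
        _ ≤ n * n ^ c := Nat.mul_le_mul_right _ (by omega)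
    have hb3 : (F * n ^ c + 1) ^ G + 1 ≤ (n ^ (c + 1)) ^ (G + 1) := by
      calc (F * n ^ c + 1) ^ G + 1 ≤ (F * n ^ c + 2) ^ (G + 1) := by
            have h1 : (F * n ^ c + 1) ^ G ≤ (F * n ^ c + 2) ^ G := Nat.pow_le_pow_left (by omega) _
            have h2 : 1 ≤ (F * n ^ c + 2) ^ G := Nat.one_le_pow _ _ (by omega)
            calc (F * n ^ c + 1) ^ G + 1 ≤ (F * n ^ c + 2) ^ G + (F * n ^ c + 2) ^ G := by omega
              _ = (F * n ^ c + 2) ^ G * 2 := by ring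
              _ ≤ (F * n ^ c + 2) ^ G * (F * n ^ c + 2) := Nat.mul_le_mul_left _ (by omega)
              _ = (F * n ^ c + 2) ^ (G + 1) := by rw [pow_succ]
        _ ≤ _ := Nat.pow_le_pow_left hb1 _
    refine (Nat.pow_le_pow_left (Nat.pow_le_pow_left hb3 _) _).trans (le_of_eq ?_)
    rw [← pow_mul, ← pow_mul, ← pow_mul]
    congr 1
    rw [hE]
    ring
  have hKE : 4 * (E * n ^ c + 1) ≤ K + 1 := by
    have : K = 4 * (E * n ^ c) + 4 * n ^ c := by rw [hK]; ring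
    omega
  have hq0 : 0 ≤ qd (G+1) := by
    unfold qd
    have : (1:ℝ) ≤ 2 ^ (G+1) := one_le_pow₀ (by norm_num)
    linarith
  have hqQ : qd (G+1) ≤ (Q:ℝ) := by
    unfold qd
    rw [hQ]
    push_cast
    linarith
  have hreal := PAR4.real_part n (200 * K ^ 2) l K Q _ (E * n ^ c) (qd (G+1)) hq0 hqQ (by omega)
    hl1 hK1 rfl hbig hT hKE
  refine ⟨by omega, 200 * K ^ 2, l, K, ?_, hl1, hK1, ?_, le_rfl, hreal.1, hreal.2⟩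
  · have : 1 ≤ K ^ 2 := Nat.one_le_pow _ _ (by omega)
    omega
  · rw [hm]
    calc A * n ^ (2 * c) * l = n ^ (2 * c) * (n ^ (2 * c + 1) / A * A) := by rw [hl]; ring
      _ ≤ n ^ (2 * c) * n ^ (2 * c + 1) := Nat.mul_le_mul_left _ (Nat.div_mul_le_self _ _)
      _ = n ^ (4 * c + 1) := by ring
      _ ≤ n ^ k := Nat.pow_le_pow_right hn0 hk

end Pool.Agent.RYD
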