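import Pool.Agent.RYD.Main
import Pool.Agent.RYD.SEP4

/-!
Project RYD, second part: Merlin-Arthur algorithms (nondeterministic guesses, then randomness) with
exact counting queries do not accept the complement of the W[2] type property, relative to an
oracle.
-/

namespace Pool.Agent.RYD

open Finset Filter Pool.Agent.Lib_helper62.PToda Pool.Agent.Lib_helper58.RToda

/-- Merlin-Arthur algorithms: first a witness `y` is guessed (there are `wits + 1` possible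
witnesses), then the randomised algorithm `run y` is executed. -/
structure MAAlg (β : Type) where
  /-- There are `wits + 1` possible witnesses. -/
  wits : ℕ
  /-- The randomised algorithm for every witness. -/
  run : Fin (wits + 1) → RandAlg β

/-- The Merlin-Arthur algorithm accepts the complement of the property at `(k, n)`: if the property
is false some witness is accepted with probability at least 2/3, if it is true every witness is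
accepted with probability at most 1/3. -/
def SolvesCo (S : MAAlg Bits) (A : Bits → Bool) (k n : ℕ) : Prop :=
  (¬ Yes A k n → ∃ y, 2 / 3 ≤ (S.run y).prob A) ∧ (Yes A k n → ∀ y, (S.run y).prob A ≤ 1 / 3)

/-- WT0: the weight of the first node (`wt` of RToda/Poly.lean). PROOF: as in `wt_zero` it is the
product over `j < K` of `100 (j+1)^2 / (100 (j+1)^2 - 1) = 1 + 1 / (100 (j+1)^2 - 1)`, at most
`exp (∑ j, 1 / (100 (j+1)^2 - 1)) ≤ exp (2/75) ≤ 2` by `sum_small`. -/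
def St_WT0 : Prop := ∀ (a : ℝ), 0 < a → ∀ K : ℕ, wt a K 0 ≤ 2

/-- ANM: analytic lemma. PROOF (hypothesis WT0), as `analytic_core` in RToda/Analytic.lean: with
`Q x = av (P * dens χ x)`, `R` the truncation (terms with `card S ≤ K`) as a polynomial in
`θ`, `x = 1 - 2 θ`: `|Q (1 - 2θ) - R θ| ≤ ε := T * (3 * (m δ)^(K+1))` for `0 ≤ θ ≤ 1` (tail_bound).
For these θ: `0 ≤ Q (1 - 2θ) ≤ η + (1 - θ)^m`, as `P ≤ η + [all χ = 1]`, `av (dens) = 1`, and where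
all `χ = 1`: `dens χ x = (1+x)^m = (1-θ)^m * 2^m = (1-θ)^m * dens χ 1`. With `a = 1/(100 K^2)`:
`R 0 = ∑ i ≤ K, R (node a i) * wt a K i` (`eval_zero_eq`), nodes in `[a, 1]`,
`∑ |wt| ≤ 2 + 4/75 ≤ 3` (WT0, wt_succ, sum_small), `|R (node)| ≤ η + (1-a)^m + ε`. So
`Q 1 ≤ R 0 + ε ≤ 3 (η + (1-a)^m + ε) + ε`. -/
def St_ANM : Prop := ∀ (W M : Type) [Fintype W] [Nonempty W] [Fintype M] [DecidableEq M]
  (χ : W → M → ℝ), (∀ w j, χ w j = 1 ∨ χ w j = -1) →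
  (∀ S : Finset M, S.Nonempty → av (fun w => ∏ j ∈ S, χ w j) = 0) →
  ∀ P : W → ℝ, (∀ w, 0 ≤ P w) → (∀ w, P w ≤ 1) →
  ∀ T δ η : ℝ, 0 ≤ T → 0 ≤ δ → 0 ≤ η →
  (∀ S : Finset M, |av (fun w => P w * ∏ j ∈ S, χ w j)| ≤ T * δ ^ S.card) →
  (∀ w, (∃ j, χ w j = -1) → P w ≤ η) →
  ∀ m K : ℕ, Fintype.card M = m → 1 ≤ m → 1 ≤ K → m * δ ≤ 1 →
  av (fun w => P w * dens χ 1 w)
    ≤ 4 * (η + (1 - 1 / (100 * (K:ℝ) ^ 2)) ^ m + T * (3 * (m * δ) ^ (K + 1)))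

/-- POW: powers of the acceptance probability. PROOF (hypotheses COV, COR): `prob ^ r` is the average
over `(ω_1, ..., ω_r)` of the product of the indicators (`av` over `Fin r → Fin (coins + 1)`,
`av_pi`-like: product of sums, `Finset.prod_univ_sum` or induction on `r`); for fixed
`ω_1, ..., ω_r` the product of the indicators is by COV a sum over `i_1, ..., i_r` of
`∏ t, ∏ a, (if φ_a (i_a) t w then 1 else 0)`; by COR each summand has correlation at most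
`(qd d / sqrt l) ^ card U`; there are at most `(B^D)^r` of them. -/
def St_POW : Prop := ∀ (β : Type) (m l d : ℕ), 1 ≤ l → 1 ≤ d →
    ∀ (inst : Pt (Fin m × Fin l) d → β → Bool) (owner : β → Option (Fin (d+1))),
    (∀ t w w', AgO t w w' → ∀ b, owner b ≠ some t → inst w b = inst w' b) →
    ∀ (N₀ κ₀ : ℕ) (B : ℕ), 1 ≤ B → ((N₀ + 1) ^ κ₀ + 1) ^ (d + 1) ≤ B → ∀ S : RandAlg β,
    (∀ ω, (S.run ω).Deterministic) → ∀ D, (∀ ω, (S.run ω).Within N₀ κ₀ d D) →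
    ∀ (r : ℕ) (U : Finset (Fin m)),
    |av (fun w : Sm m l d => (S.prob (inst w.1)) ^ r * ∏ j ∈ U, ch w j)|
      ≤ ((B:ℝ) ^ D) ^ r * (qd d / Real.sqrt l) ^ U.card

/-- MON: more depth. PROOF: induction on the algorithm. -/
def St_MON : Prop := ∀ (β : Type) (S : Strat β) (N₀ κ₀ G G' D : ℕ), G ≤ G' →
  S.Within N₀ κ₀ G D → S.Within N₀ κ₀ G' D

/-- ONEM: one instance. PROOF (hypotheses NEM, CHI, UNC, POW, INST, ANM, MON): by contradiction, as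
`instance_contra` in RToda/Diag.lean; `d = G + 1`, `W = Sm m l (G+1)`, `χ = ch`, `r = g + 5`,
`P_y w = (prob of (S.run y) on mkI emb A₀ w.1) ^ r`, `η = (1/3)^r`, `T = ((...)^D)^r`. If all
`ch w j = 1` then (CHI, INST) `¬ Yes`, so some `P_y w ≥ (2/3)^r`; if some `ch w j = -1` then all
`P_y w ≤ (1/3)^r`. As `dens χ 1 w = 0` unless all `ch w j = 1` and `av (dens χ 1) = 1` (`av_dens`):
`(2/3)^r ≤ ∑ y, av (P_y * dens χ 1) ≤ 2^g * 4 * (3 * (1/3)^r)` by ANM, but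
`(2/3)^r = 32 * 2^g * (1/3)^r`: contradiction. -/
def St_ONEM : Prop := ∀ (k n G m l K N₀ κ₀ D g : ℕ), G + 2 ≤ n → 1 ≤ m → 1 ≤ l → 1 ≤ K →
    m * l ≤ n ^ k → (m:ℝ) * (qd (G+1) / Real.sqrt l) ≤ 1 →
    (1 - 1 / (100 * (K:ℝ) ^ 2)) ^ m ≤ (1 / 3) ^ (g + 5) →
    ((((((N₀ + 1) ^ κ₀ + 1) ^ (G + 1 + 1)) ^ D : ℕ) : ℝ)) ^ (g + 5) *
        (3 * ((m:ℝ) * (qd (G+1) / Real.sqrt l)) ^ (K + 1)) ≤ (1 / 3) ^ (g + 5) →
    ∀ (A₀ : Bits → Bool) (S : MAAlg Bits), S.wits + 1 ≤ 2 ^ g →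
    (∀ y ω, ((S.run y).run ω).Deterministic) →
    (∀ y ω, ((S.run y).run ω).Within N₀ κ₀ G D) →
    ∃ A : Bits → Bool, (∀ b : Bits, ¬ (b.1 = k ∧ b.2.1 = n) → A b = A₀ b) ∧ ¬ SolvesCo S A k n

/-- PARM: parameters. PROOF: `K = 3 n^(2c+2)`, `m = n^(5c+6)`, `l = n^(10c+15)`; `F n^c + 5 ≤ n^(c+1)`;
the number in the last condition without the power is at most `n^(E n^c)` with
`E = (c+1)(G+1)(G+2)F` as in PAR, so with the power at most `n^(n^(2c+2))`; `3^(F n^c + 5) ≤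
n^(n^(2c+2))`; `m * (qd (G+1) / sqrt l) ≤ 1/n` as `sqrt l ≥ 2^(G+1) n^(5c+7)` for `n ≥ 4^(G+1)`;
`(1 - x)^m ≤ exp (-m x)`, `m ≥ 100 K^2 * 2 (F n^c + 5)` and `exp 2 ≥ 3`;
`m * l = n^(15c+21) ≤ n^k`. -/
def St_PARM : Prop := ∀ (c k F G : ℕ), 15 * c + 20 < k →
    ∀ᶠ n : ℕ in atTop, G + 2 ≤ n ∧ ∃ m l K : ℕ, 1 ≤ m ∧ 1 ≤ l ∧ 1 ≤ K ∧ m * l ≤ n ^ k ∧
      (m:ℝ) * (qd (G+1) / Real.sqrt l) ≤ 1 ∧
      (1 - 1 / (100 * (K:ℝ) ^ 2)) ^ m ≤ (1 / 3) ^ (F * n ^ c + 5) ∧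
      ((((((F * n ^ c + 1) ^ G + 1) ^ (G + 1 + 1)) ^ (F * n ^ c) : ℕ) : ℝ)) ^ (F * n ^ c + 5) *
        (3 * ((m:ℝ) * (qd (G+1) / Real.sqrt l)) ^ (K + 1)) ≤ (1 / 3) ^ (F * n ^ c + 5)

/-- DIAG: the diagonal argument, once for all. `bad i k n A`: algorithm `i` is wrong at `(k, n)` with
the oracle `A`. PROOF: as `t_SEP` in SEP.lean (or `separation3` in RToda/Diag.lean) with
`¬ Solves (alg i k n) A k n` replaced by `bad i k n A`, and the finite set of bits on which `bad`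
depends from the second hypothesis. No hypotheses. -/
def St_DIAG : Prop := ∀ (ι : Type) [Countable ι] (bad : ι → ℕ → ℕ → (Bits → Bool) → Prop),
    (∀ i k n, ∃ N : ℕ, ∀ A A' : Bits → Bool, (∀ b : Bits, b.2.1 ≤ N → A b = A' b) →
      (bad i k n A ↔ bad i k n A')) →
    ∀ dom : ι → ℕ → Prop,
    (∀ i k, dom i k → ∀ᶠ n : ℕ in atTop, ∀ A₀ : Bits → Bool, ∃ A : Bits → Bool,
      (∀ b : Bits, ¬ (b.1 = k ∧ b.2.1 = n) → A b = A₀ b) ∧ bad i k n A) →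
    ∃ A : Bits → Bool, ∀ i k, dom i k → ∀ n₀, ∃ n, n₀ ≤ n ∧ bad i k n A

/-- BOTH: the final theorem. PROOF (hypotheses DIAG, ONE4, PAR4, ONEM, PARM, in this order): DIAG for
the index type `ι' ⊕ ι`, `bad (inl i) k n A = ¬ Solves2 (ra i k n) A k n`,
`bad (inr i) k n A = ¬ SolvesCo (ma i k n) A k n`, `dom (inl i) k = (4 * c' i < k)`,
`dom (inr i) k = (15 * c i + 20 < k)`. Finitely many bits: `RandAlg.finite` for all witnesses
(`Finset.univ.sup`) and `Yes A k n` depends only on bits with `b.2.1 = n`. Last hypothesis: PAR4 and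
ONE4, resp. PARM and ONEM with `g = F n^c`, `D = F n^c`. -/
def St_BOTH : Prop := ∀ (ι ι' : Type) [Countable ι] [Countable ι'] (ma : ι → ℕ → ℕ → MAAlg Bits)
    (ra : ι' → ℕ → ℕ → RandAlg Bits) (c : ι → ℕ) (c' : ι' → ℕ),
    (∀ i, ∃ F G : ℕ → ℕ, ∀ k n, (ma i k n).wits + 1 ≤ 2 ^ (F k * n ^ c i) ∧
      ∀ y ω, (((ma i k n).run y).run ω).Deterministic ∧
        (((ma i k n).run y).run ω).Within (F k * n ^ c i) (G k) (G k) (F k * n ^ c i)) →
    (∀ i, ∃ F G : ℕ → ℕ, ∀ k n ω, ((ra i k n).run ω).Deterministic ∧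
        ((ra i k n).run ω).Within (F k * n ^ c' i) (G k) (G k) (F k * n ^ c' i)) →
    ∃ A : Bits → Bool,
      (∀ i k, 4 * c' i < k → ∀ n₀, ∃ n, n₀ ≤ n ∧ ¬ Solves2 (ra i k n) A k n) ∧
      (∀ i k, 15 * c i + 20 < k → ∀ n₀, ∃ n, n₀ ≤ n ∧ ¬ SolvesCo (ma i k n) A k n)

end Pool.Agent.RYD
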