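import Pool.Agent.RYD.MAN
import Pool.Agent.RYD.MSM
import Pool.Agent.RYD.ONE
import Pool.Agent.RYD.St2

namespace Pool.Agent.RYD

open Finset Filter Pool.Agent.Lib_helper62.PToda Pool.Agent.Lib_helper58.RToda

/-- ONE8: one instance. -/
def St_ONE8 : Prop := ∀ (k n G m l K N₀ κ₀ D g : ℕ), G + 2 ≤ n → 1 ≤ m → 1 ≤ l → 1 ≤ K →
    m * l ≤ n ^ k → 200 * K ^ 2 ≤ m → (m:ℝ) * (qd (G+1) / Real.sqrt l) ≤ K + 1 →
    (((3 * (((N₀ + 1) ^ κ₀ + 1) ^ (G + 1 + 1)) ^ D) ^ (g + 2) : ℕ) : ℝ) *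
        (3 * ((m:ℝ) * (qd (G+1) / Real.sqrt l)) / (K + 1)) ^ (K + 1) ≤ 1 / 100 →
    ∀ (A₀ : Bits → Bool) (S : MAAlg Bits), S.wits + 1 ≤ 2 ^ g → (∀ y ω, ((S.run y).run ω).Deterministic) →
    (∀ y ω, ((S.run y).run ω).Within N₀ κ₀ G D) →
    ∃ A : Bits → Bool, (∀ b : Bits, ¬ (b.1 = k ∧ b.2.1 = n) → A b = A₀ b) ∧ ¬ SolvesCo S A k n

theorem t_ONE8 (hNEM : St_NEM) (hCHI : St_CHI) (hUNC : St_UNC) (hMSM : St_MSM)
    (hINST : St_INST) : St_ONE8 := by
  classical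
  intro k n G m l K N₀ κ₀ D g hn hm1 hl hK hm hKm hδ herr A₀ S hp hdet hS
  by_contra hcon
  have hdec : ∀ A : Bits → Bool, (∀ b : Bits, ¬ (b.1 = k ∧ b.2.1 = n) → A b = A₀ b) →
      SolvesCo S A k n := fun A hA => by_contra fun h => hcon ⟨A, hA, h⟩
  have hne : Nonempty (Sm m l (G+1)) := hNEM m l (G+1) hl (by omega)
  have hcard : Fintype.card (Fin m × Fin l) ≤ Fintype.card (Fin k → Fin n) := by
    simp only [Fintype.card_prod, Fintype.card_fin, Fintype.card_fun]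
    exact hm
  obtain ⟨emb⟩ := Function.Embedding.nonempty_of_card_le hcard
  obtain ⟨h1, h2, h3⟩ := hINST m l (G+1) k n (by omega) emb A₀
  have hB1 : 1 ≤ ((N₀ + 1) ^ κ₀ + 1) ^ (G + 1 + 1) := Nat.one_le_pow _ _ (by omega)
  have hyes : ∀ w : Sm m l (G+1), Yes (mkI emb A₀ w.1) k n ↔ ∃ j, ch w j = -1 := by
    intro w
    rw [h3 w.1]
    constructor
    · rintro ⟨j, i, h⟩
      exact ⟨j, ((hCHI m l (G+1) w j).2).2 ⟨i, h⟩⟩
    · rintro ⟨j, h⟩
      obtain ⟨i, hi⟩ := ((hCHI m l (G+1) w j).2).1 h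
      exact ⟨j, i, hi⟩
  have hq : 0 ≤ qd (G+1) := by
    unfold qd
    have : (1:ℝ) ≤ 2 ^ (G+1) := one_le_pow₀ (by norm_num)
    linarith
  obtain ⟨B, hB⟩ : ∃ B, B = ((N₀ + 1) ^ κ₀ + 1) ^ (G + 1 + 1) := ⟨_, rfl⟩
  rw [← hB] at herr hB1
  have hpr0 : ∀ (y : Fin (S.wits + 1)) (x : Bits → Bool), 0 ≤ (S.run y).prob x := by
    intro y x
    rw [RandAlg.prob_eq]
    exact av_nonneg fun ω => ind_nonneg _
  refine MA.analytic_coreMA (W := Sm m l (G+1)) (M := Fin m) (fun w j => ch w j)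
    (fun w j => (hCHI m l (G+1) w j).1) (fun U hU => hUNC m l (G+1) U hU)
    (fun w => ∑ y, (3 / 2 : ℝ) ^ (g + 2) * (S.run y).prob (mkI emb A₀ w.1) ^ (g + 2)) ?_
    (((3 * B ^ D) ^ (g + 2) : ℕ) : ℝ) (qd (G+1) / Real.sqrt l) (by positivity)
    (by positivity) ?_ ?_ ?_ m K (by simp) hK hKm hδ herr
  · intro w
    refine Finset.sum_nonneg fun y _ => ?_
    have := hpr0 y (mkI emb A₀ w.1)
    positivity
  · intro U
    have e1 : (fun w : Sm m l (G+1) =>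
        (∑ y, (3 / 2 : ℝ) ^ (g + 2) * (S.run y).prob (mkI emb A₀ w.1) ^ (g + 2)) *
          ∏ j ∈ U, ch w j)
        = (fun w : Sm m l (G+1) => ∑ y, (3 / 2 : ℝ) ^ (g + 2) *
          av (fun a : Fin (g + 2) → Fin ((S.run y).coins + 1) =>
            (∏ i, ind (((S.run y).run (a i)).Accepts (mkI emb A₀ w.1))) * ∏ j ∈ U, ch w j)) := by
      funext w
      rw [Finset.sum_mul]
      refine Finset.sum_congr rfl fun y _ => ?_
      have e2 : (S.run y).prob (mkI emb A₀ w.1) ^ (g + 2)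
          = av (fun a : Fin (g + 2) → Fin ((S.run y).coins + 1) =>
            ∏ i, ind (((S.run y).run (a i)).Accepts (mkI emb A₀ w.1))) := by
        rw [av_pi (fun (_ : Fin (g + 2)) (ω : Fin ((S.run y).coins + 1)) =>
          ind (((S.run y).run ω).Accepts (mkI emb A₀ w.1))), RandAlg.prob_eq, Finset.prod_const,
          Finset.card_univ, Fintype.card_fin]
      have e3 : (fun a : Fin (g + 2) → Fin ((S.run y).coins + 1) =>
          (∏ i, ind (((S.run y).run (a i)).Accepts (mkI emb A₀ w.1))) * ∏ j ∈ U, ch w j)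
          = (fun a : Fin (g + 2) → Fin ((S.run y).coins + 1) =>
          (∏ j ∈ U, ch w j) * (∏ i, ind (((S.run y).run (a i)).Accepts (mkI emb A₀ w.1)))) := by
        funext a
        ring
      rw [e3, av_mul_left, e2]
      ring
    rw [e1, av_sum]
    refine (Finset.abs_sum_le_sum_abs _ _).trans ?_
    have hterm : ∀ y : Fin (S.wits + 1), |av (fun w : Sm m l (G+1) => (3 / 2 : ℝ) ^ (g + 2) *
          av (fun a : Fin (g + 2) → Fin ((S.run y).coins + 1) =>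
            (∏ i, ind (((S.run y).run (a i)).Accepts (mkI emb A₀ w.1))) * ∏ j ∈ U, ch w j))|
        ≤ (3 / 2 : ℝ) ^ (g + 2) * (((B:ℝ) ^ D) ^ (g + 2) * (qd (G+1) / Real.sqrt l) ^ U.card) := by
      intro y
      rw [av_mul_left, abs_mul, abs_of_nonneg (by positivity : (0:ℝ) ≤ (3 / 2 : ℝ) ^ (g + 2))]
      apply mul_le_mul_of_nonneg_left _ (by positivity)
      rw [av_swap]
      refine (abs_av_le _).trans ?_
      refine le_trans (av_mono (g := fun _ =>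
        ((B:ℝ) ^ D) ^ (g + 2) * (qd (G+1) / Real.sqrt l) ^ U.card) ?_) (le_of_eq (av_const _))
      intro a
      exact hMSM Bits m l (G+1) hl (by omega) (mkI emb A₀) (mkO k n (G+1)) h1 N₀ κ₀ B hB1
        (le_of_eq hB.symm) (g + 2) (fun i => (S.run y).run (a i)) (fun i => hdet y (a i)) D
        (fun i => ONE.within_mono (Nat.le_succ G) _ _ (hS y (a i))) U
    refine (Finset.sum_le_sum fun y _ => hterm y).trans ?_
    rw [Finset.sum_const, Finset.card_univ, nsmul_eq_mul, Fintype.card_fin]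
    have hδ0 : (0:ℝ) ≤ (qd (G+1) / Real.sqrt l) ^ U.card := by positivity
    have h2g : ((S.wits + 1 : ℕ) : ℝ) ≤ 2 ^ g := by exact_mod_cast hp
    have h2p : ((S.wits + 1 : ℕ) : ℝ) ≤ 2 ^ (g + 2) :=
      h2g.trans (pow_le_pow_right₀ (by norm_num) (by omega))
    calc ((S.wits + 1 : ℕ) : ℝ) * ((3 / 2) ^ (g + 2) * (((B:ℝ) ^ D) ^ (g + 2) *
          (qd (G+1) / Real.sqrt l) ^ U.card))
        ≤ 2 ^ (g + 2) * ((3 / 2) ^ (g + 2) * (((B:ℝ) ^ D) ^ (g + 2) *
          (qd (G+1) / Real.sqrt l) ^ U.card)) := mul_le_mul_of_nonneg_right h2p (by positivity)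
      _ = (2 * (3 / 2) * (B:ℝ) ^ D) ^ (g + 2) * (qd (G+1) / Real.sqrt l) ^ U.card := by
          rw [mul_pow, mul_pow]
          ring
      _ = (3 * (B:ℝ) ^ D) ^ (g + 2) * (qd (G+1) / Real.sqrt l) ^ U.card := by norm_num
      _ = (((3 * B ^ D) ^ (g + 2) : ℕ) : ℝ) * (qd (G+1) / Real.sqrt l) ^ U.card := by
          push_cast
          ring
  · intro w hw
    have hny : ¬ Yes (mkI emb A₀ w.1) k n := by
      rw [hyes]
      rintro ⟨j, hj⟩
      have := hw j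
      rw [this] at hj
      norm_num at hj
    obtain ⟨y, hy⟩ := (hdec (mkI emb A₀ w.1) (h2 w.1)).1 hny
    have h5 : (1:ℝ) ≤ (3 / 2 : ℝ) ^ (g + 2) * (S.run y).prob (mkI emb A₀ w.1) ^ (g + 2) := by
      rw [← mul_pow]
      apply one_le_pow₀
      linarith
    refine h5.trans (Finset.single_le_sum (f := fun y =>
      (3 / 2 : ℝ) ^ (g + 2) * (S.run y).prob (mkI emb A₀ w.1) ^ (g + 2)) (fun y _ => ?_)
      (Finset.mem_univ y))
    have := hpr0 y (mkI emb A₀ w.1)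
    positivity
  · intro w hw
    have hy := (hdec (mkI emb A₀ w.1) (h2 w.1)).2 ((hyes w).2 hw)
    have hterm : ∀ y : Fin (S.wits + 1),
        (3 / 2 : ℝ) ^ (g + 2) * (S.run y).prob (mkI emb A₀ w.1) ^ (g + 2) ≤ (1 / 2) ^ (g + 2) := by
      intro y
      rw [← mul_pow]
      apply pow_le_pow_left₀
      · have := hpr0 y (mkI emb A₀ w.1)
        positivity
      · have := hy y
        linarith
    refine (Finset.sum_le_sum fun y _ => hterm y).trans ?_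
    rw [Finset.sum_const, Finset.card_univ, nsmul_eq_mul, Fintype.card_fin]
    have h2p : ((S.wits + 1 : ℕ) : ℝ) ≤ 2 ^ g := by exact_mod_cast hp
    calc ((S.wits + 1 : ℕ) : ℝ) * (1 / 2) ^ (g + 2) ≤ 2 ^ g * (1 / 2) ^ (g + 2) :=
          mul_le_mul_of_nonneg_right h2p (by positivity)
      _ = 1 / 4 := by
          rw [pow_add, ← mul_assoc, ← mul_pow]
          norm_num

end Pool.Agent.RYD
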