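import Pool.Agent.RYD.St

/-!
Project RYD: the signs of good points (module CHI).
-/

set_option autoImplicit false

namespace Pool.Agent.RYD

open Finset Filter Pool.Agent.Lib_helper62.PToda Pool.Agent.Lib_helper58.RToda

namespace CHI

variable {E : Type} {d : ℕ}

theorem no1_ne {B : Finset E} {x : Pt E d} (h : no1 B x ≠ 0) : ∀ e ∈ B, ¬ one x e := by
  intro e he h1
  apply h
  unfold no1
  exact Finset.prod_eq_zero he (by rw [if_pos h1])

theorem no1_one {B : Finset E} {x : Pt E d} (h : ∀ e ∈ B, ¬ one x e) : no1 B x = 1 := by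
  unfold no1
  exact Finset.prod_eq_one fun e he => by rw [if_neg (h e he)]

theorem exists_one [DecidableEq E] {B : Finset E} {x : Pt E d} (h : ex1 B x = 1) :
    ∃ i ∈ B, one x i ∧ ∀ e ∈ B, one x e → e = i := by
  have h0 : ex1 B x ≠ 0 := by rw [h]; exact one_ne_zero
  unfold ex1 at h0
  obtain ⟨i, hi, h1⟩ := Finset.exists_ne_zero_of_sum_ne_zero h0
  have h2 : one x i := by
    by_contra h2
    rw [if_neg h2, zero_mul] at h1
    exact h1 rfl
  have h3 : no1 (B.erase i) x ≠ 0 := fun h3 => h1 (by rw [h3, mul_zero])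
  refine ⟨i, hi, h2, fun e he h4 => ?_⟩
  by_contra h5
  exact no1_ne h3 e (Finset.mem_erase.2 ⟨h5, he⟩) h4

theorem sg_eq [DecidableEq E] {B : Finset E} {x : Pt E d} {i : E} (hi : i ∈ B) (h1 : one x i)
    (h2 : ∀ e ∈ B, one x e → e = i) : sg B x = sgn (x i 0) := by
  unfold sg
  rw [Finset.sum_eq_single i]
  · rw [if_pos h1, no1_one, mul_one]
    intro e he h3
    rw [Finset.mem_erase] at he
    exact he.1 (h2 e he.2 h3)
  · intro e he hne
    rw [if_neg (fun h3 => hne (h2 e he h3)), zero_mul]
  · intro h3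
    exact absurd hi h3

end CHI

theorem t_CHI : St_CHI := by
  intro m l d w j
  obtain ⟨i, hi, h1, h2⟩ := CHI.exists_one (w.2 j)
  have h3 : ch w j = sgn (w.1 i 0) := CHI.sg_eq hi h1 h2
  have hij : i.1 = j := by
    have := hi
    unfold blk at this
    exact (Finset.mem_filter.1 this).2
  rw [h3]
  constructor
  · cases w.1 i 0 <;> simp [sgn]
  · have h4 : sgn (w.1 i 0) = -1 ↔ w.1 i 0 = true := by
      cases w.1 i 0 <;> simp [sgn]
      norm_num
    rw [h4]
    constructor
    · intro h5
      refine ⟨i.2, fun t => ?_⟩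
      have e : ((j, i.2) : Fin m × Fin l) = i := by rw [← hij]
      rw [e]
      refine Fin.cases h5 (fun t' => h1 t') t
    · rintro ⟨i', h5⟩
      have h6 : ((j, i') : Fin m × Fin l) = i := by
        apply h2
        · unfold blk
          exact Finset.mem_filter.2 ⟨Finset.mem_univ _, rfl⟩
        · intro t
          exact h5 t.succ
      rw [← h6]
      exact h5 0

end Pool.Agent.RYD
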