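import Pool.Agent.RYD.St
import Pool.Agent.RYD.CHI

namespace Pool.Agent.RYD

open Finset Filter Pool.Agent.Lib_helper62.PToda Pool.Agent.Lib_helper58.RToda

/-- INSTU: at most one block with sign `-1` gives at most one solution. -/
def St_INSTU : Prop := ∀ (m l d k n : ℕ), d + 1 ≤ n →
  ∀ (emb : (Fin m × Fin l) ↪ (Fin k → Fin n)) (A₀ : Bits → Bool) (w : Sm m l d),
    (∀ j j', ch w j = -1 → ch w j' = -1 → j = j') → ∀ s s' : Fin k → Fin n,
    (∀ v : Fin n, mkI emb A₀ w.1 (k, n, List.ofFn (fun i => (s i : ℕ)), (v : ℕ)) = true) →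
    (∀ v : Fin n, mkI emb A₀ w.1 (k, n, List.ofFn (fun i => (s' i : ℕ)), (v : ℕ)) = true) →
    s = s'

namespace INSTU

lemma one_unique {E : Type} [DecidableEq E] {d : ℕ} (B : Finset E) (x : Pt E d)
    (h : ex1 B x = 1) (a b : E) (ha : a ∈ B) (hb : b ∈ B) (h1 : one x a) (h2 : one x b) :
    a = b := by
  by_contra hne
  have h0 : ex1 B x = 0 := by
    unfold ex1
    refine Finset.sum_eq_zero fun i _ => ?_
    have hn : no1 (B.erase i) x = 0 := by
      unfold no1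
      by_cases hi : i = a
      · refine Finset.prod_eq_zero (i := b) ?_ (by rw [if_pos h2])
        rw [Finset.mem_erase]
        exact ⟨fun hbi => hne (hi.symm.trans hbi.symm), hb⟩
      · refine Finset.prod_eq_zero (i := a) ?_ (by rw [if_pos h1])
        rw [Finset.mem_erase]
        exact ⟨fun hai => hi hai.symm, ha⟩
    rw [hn, mul_zero]
  rw [h0] at h
  norm_num at h

lemma slice {m l d k n : ℕ} (emb : (Fin m × Fin l) ↪ (Fin k → Fin n)) (A₀ : Bits → Bool)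
    (x : Pt (Fin m × Fin l) d) (s : Fin k → Fin n) (v : ℕ)
    (h : mkI emb A₀ x (k, n, List.ofFn (fun i => (s i : ℕ)), v) = true) :
    ∃ e, emb e = s ∧ ∀ hv : v < d + 1, x e ⟨v, hv⟩ = true := by
  classical
  unfold mkI at h
  rw [if_pos ⟨rfl, rfl⟩, decide_eq_true_eq] at h
  obtain ⟨e, he, h2⟩ := h
  exact ⟨e, code_injective he, h2⟩

lemma sol {m l d k n : ℕ} (hn : d + 1 ≤ n) (emb : (Fin m × Fin l) ↪ (Fin k → Fin n))
    (A₀ : Bits → Bool) (x : Pt (Fin m × Fin l) d) (s : Fin k → Fin n)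
    (h : ∀ v : Fin n, mkI emb A₀ x (k, n, List.ofFn (fun i => (s i : ℕ)), (v : ℕ)) = true) :
    ∃ e, emb e = s ∧ ∀ t, x e t = true := by
  obtain ⟨e, he, _⟩ := slice emb A₀ x s 0 (h ⟨0, by omega⟩)
  refine ⟨e, he, fun t => ?_⟩
  obtain ⟨e', he', h2⟩ := slice emb A₀ x s t.1 (h ⟨t.1, by have := t.2; omega⟩)
  have : e' = e := emb.injective (he'.trans he.symm)
  rw [← this]
  exact h2 t.2

end INSTU

theorem t_INSTU : St_INSTU := by
  intro m l d k n hn emb A₀ w hw s s' hs hs'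
  obtain ⟨⟨j, i⟩, he, h1⟩ := INSTU.sol hn emb A₀ w.1 s hs
  obtain ⟨⟨j', i'⟩, he', h1'⟩ := INSTU.sol hn emb A₀ w.1 s' hs'
  have hj : ch w j = -1 := ((t_CHI m l d w j).2).2 ⟨i, h1⟩
  have hj' : ch w j' = -1 := ((t_CHI m l d w j').2).2 ⟨i', h1'⟩
  have hjj : j = j' := hw j j' hj hj'
  subst hjj
  have hG := w.2 j
  have heq : ((j, i) : Fin m × Fin l) = (j, i') := by
    refine INSTU.one_unique (blk m l j) w.1 hG (j, i) (j, i') ?_ ?_ (fun t => h1 t.succ)
      (fun t => h1' t.succ)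
    · simp [blk]
    · simp [blk]
  rw [← he, ← he', heq]

end Pool.Agent.RYD
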