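import Pool.Agent.RYD.Fin8
import Pool.Agent.RYD.ONE4U
import Pool.Agent.RYD.INSTU

/-! Project RYD, module BOTHU: the final theorem; the randomised algorithms fail already at instances
with at most one solution. -/

namespace Pool.Agent.RYD

open Finset Filter Pool.Agent.Lib_helper62.PToda Pool.Agent.Lib_helper58.RToda

/-- BOTHU: as BOTH8, with at most one solution in the first part. -/
def St_BOTHU : Prop := ∀ (ι ι' : Type) [Countable ι] [Countable ι'] (ma : ι → ℕ → ℕ → MAAlg Bits)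
    (ra : ι' → ℕ → ℕ → RandAlg Bits) (c : ι → ℕ) (c' : ι' → ℕ),
    (∀ i, ∃ F G : ℕ → ℕ, ∀ k n, (ma i k n).wits + 1 ≤ 2 ^ (F k * n ^ c i) ∧
      ∀ y ω, (((ma i k n).run y).run ω).Deterministic ∧
        (((ma i k n).run y).run ω).Within (F k * n ^ c i) (G k) (G k) (F k * n ^ c i)) →
    (∀ i, ∃ F G : ℕ → ℕ, ∀ k n ω, ((ra i k n).run ω).Deterministic ∧
        ((ra i k n).run ω).Within (F k * n ^ c' i) (G k) (G k) (F k * n ^ c' i)) →
    ∃ A : Bits → Bool,
      (∀ i k, 4 * c' i < k → ∀ n₀, ∃ n, n₀ ≤ n ∧ AtMost A k n ∧ ¬ Solves2 (ra i k n) A k n) ∧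
      (∀ i k, 8 * c i < k → ∀ n₀, ∃ n, n₀ ≤ n ∧ ¬ SolvesCo (ma i k n) A k n)

lemma atMost_congr (A A' : Bits → Bool) (k n : ℕ) (h : ∀ b : Bits, b.2.1 ≤ n → A b = A' b) :
    AtMost A k n ↔ AtMost A' k n := by
  have e : ∀ (s : Fin k → Fin n) (v : Fin n),
      A (k, n, List.ofFn (fun i => (s i : ℕ)), (v : ℕ))
      = A' (k, n, List.ofFn (fun i => (s i : ℕ)), (v : ℕ)) := fun s v => h _ le_rfl
  unfold AtMost
  simp only [e]

open BOTH in
theorem t_BOTHU (hDIAG : St_DIAG) (hONE : St_ONE4U) (hPAR : St_PAR4U) (hONEM : St_ONE8)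
    (hPARM : St_MPAR) : St_BOTHU := by
  intro ι ι' _ _ ma ra c c' hma hra
  obtain ⟨A, hA⟩ := hDIAG (ι' ⊕ ι)
    (fun x k n A => Sum.elim (fun i => AtMost A k n ∧ ¬ Solves2 (ra i k n) A k n)
      (fun i => ¬ SolvesCo (ma i k n) A k n) x)
    (by
      rintro (i | i) k n
      · obtain ⟨N, hN⟩ := fin_ra (ra i k n) k n
        refine ⟨max n N, fun A A' h => ?_⟩
        have h1 := atMost_congr A A' k n (fun b hb => h b (le_trans hb (le_max_left _ _)))
        have h2 := hN A A' (fun b hb => h b (le_trans hb (le_max_right _ _)))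
        exact and_congr h1 h2
      · exact fin_ma (ma i k n) k n)
    (fun x k => Sum.elim (fun i => 4 * c' i < k) (fun i => 8 * c i < k) x)
    (by
      rintro (i | i) k hk
      · have hk' : 4 * c' i < k := hk
        obtain ⟨F, G, hFG⟩ := hra i
        filter_upwards [hPAR (c' i) k (F k) (G k) hk'] with n hn A₀
        obtain ⟨hG, m, l, K, hm1, hl, hK, hm, hKm, hδ, herr⟩ := hn
        exact hONE k n (G k) m l K (F k * n ^ c' i) (G k)
          (F k * n ^ c' i) hG hm1 hl hK hm hKm hδ herr A₀ (ra i k n)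
          (fun ω => (hFG k n ω).1) (fun ω => (hFG k n ω).2)
      · have hk' : 8 * c i < k := hk
        obtain ⟨F, G, hFG⟩ := hma i
        filter_upwards [hPARM (c i) k (F k) (G k) hk'] with n hn A₀
        obtain ⟨hG, m, l, K, hm1, hl, hK, hm, hKm, hδ, herr⟩ := hn
        exact hONEM k n (G k) m l K (F k * n ^ c i) (G k)
          (F k * n ^ c i) (F k * n ^ c i) hG hm1 hl hK hm hKm hδ herr A₀ (ma i k n)
          (hFG k n).1 (fun y ω => ((hFG k n).2 y ω).1) (fun y ω => ((hFG k n).2 y ω).2))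
  exact ⟨A, fun i k hk n₀ => hA (Sum.inl i) k hk n₀, fun i k hk n₀ => hA (Sum.inr i) k hk n₀⟩

theorem uq : St_UQ := t_INSTU

theorem one4U : St_ONE4U := t_ONE4U t_NEM t_CHI t_UNC small t_INST uq

theorem bothU : St_BOTHU := t_BOTHU t_DIAG one4U t_PAR4U one8 t_MPAR

end Pool.Agent.RYD
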