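import Pool.Agent.RYD.TBW

/-! Project RYD, module BOTHW: long tuples and tests of depth proportional to `k log n`. -/

namespace Pool.Agent.RYD

open Finset Filter Pool.Agent.Lib_helper62.PToda Pool.Agent.Lib_helper58.RToda

/-- COREW: parameters, `k = 4 c + j`. -/
def St_COREW : Prop := ∀ (c j E : ℕ) (_ : 1 ≤ j) (T H : ℕ → ℕ)
    (_ : ∀ᶠ n : ℕ in atTop, T n ≤ n ^ (E * n ^ c * (Nat.log 2 n + 1)))
    (_ : ∀ᶠ n : ℕ in atTop, 2 ^ (8 * H n) ≤ n ^ (4 * j - 3)),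
    ∀ᶠ n : ℕ in atTop, H n + 2 ≤ n ∧ ∃ m l K : ℕ, 1 ≤ m ∧ 1 ≤ l ∧ 1 ≤ K ∧
      m * l ≤ n ^ (4 * c + j) ∧
      20000 * K ^ 2 ≤ m ∧ (m:ℝ) * (qd (H n + 1) / Real.sqrt l) ≤ K + 1 ∧
      (T n : ℝ) * (3 * ((m:ℝ) * (qd (H n + 1) / Real.sqrt l)) / (K + 1)) ^ (K + 1) ≤ 1 / 1000

/-- BOTHW: as BOTHU, for long tuples and deep tests. -/
def St_BOTHW : Prop := ∀ (ι ι' : Type) [Countable ι] [Countable ι'] (ma : ι → ℕ → ℕ → MAAlg Bits)
    (ra : ι' → ℕ → ℕ → RandAlg Bits) (c e : ι → ℕ) (c' e' : ι' → ℕ),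
    (∀ i, ∃ (F : ℕ → ℕ) (H : ℕ → ℕ → ℕ),
      (∀ k, 8 * c i + 4 * e i < k →
        ∀ᶠ n in atTop, 2 ^ (8 * H k n) ≤ n ^ (4 * (k - (8 * c i + 4 * e i)) - 3)) ∧
      ∀ k n, (ma i k n).wits + 1 ≤ 2 ^ (F k * n ^ c i) ∧
      ∀ y ω, (((ma i k n).run y).run ω).Deterministic ∧
        (((ma i k n).run y).run ω).Within (F k * n ^ c i) (F k * n ^ e i) (H k n)
          (F k * n ^ c i)) →
    (∀ i, ∃ (F : ℕ → ℕ) (H : ℕ → ℕ → ℕ),
      (∀ k, 4 * c' i + 4 * e' i < k →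
        ∀ᶠ n in atTop, 2 ^ (8 * H k n) ≤ n ^ (4 * (k - (4 * c' i + 4 * e' i)) - 3)) ∧
      ∀ k n ω, ((ra i k n).run ω).Deterministic ∧
        ((ra i k n).run ω).Within (F k * n ^ c' i) (F k * n ^ e' i) (H k n) (F k * n ^ c' i)) →
    ∃ A : Bits → Bool,
      (∀ i k, 4 * c' i + 4 * e' i < k → ∀ n₀, ∃ n, n₀ ≤ n ∧ AtMost A k n ∧
        ¬ Solves2 (ra i k n) A k n) ∧
      (∀ i k, 8 * c i + 4 * e i < k → ∀ n₀, ∃ n, n₀ ≤ n ∧ ¬ SolvesCo (ma i k n) A k n)

open BOTH in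
theorem t_BOTHW (hDIAG : St_DIAG) (hONE : St_ONE4U) (hONEM : St_ONE8) (hCORE : St_COREW) :
    St_BOTHW := by
  intro ι ι' _ _ ma ra c e c' e' hma hra
  obtain ⟨A, hA⟩ := hDIAG (ι' ⊕ ι)
    (fun x k n A => Sum.elim (fun i => AtMost A k n ∧ ¬ Solves2 (ra i k n) A k n)
      (fun i => ¬ SolvesCo (ma i k n) A k n) x)
    (by
      rintro (i | i) k n
      · obtain ⟨N, hN⟩ := fin_ra (ra i k n) k n
        refine ⟨max n N, fun A A' h => ?_⟩
        have h1 := atMost_congr A A' k n (fun b hb => h b (le_trans hb (le_max_left _ _)))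
        have h2 := hN A A' (fun b hb => h b (le_trans hb (le_max_right _ _)))
        exact and_congr h1 h2
      · exact fin_ma (ma i k n) k n)
    (fun x k => Sum.elim (fun i => 4 * c' i + 4 * e' i < k) (fun i => 8 * c i + 4 * e i < k) x)
    (by
      rintro (i | i) k hk
      · have hk' : 4 * c' i + 4 * e' i < k := hk
        obtain ⟨F, H, hH, hFG⟩ := hra i
        obtain ⟨j, hj⟩ : ∃ j, j = k - (4 * c' i + 4 * e' i) := ⟨_, rfl⟩
        have hj1 : 1 ≤ j := by omega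
        have hkj : 4 * (c' i + e' i) + j = k := by omega
        have hHk := hH k hk'
        rw [← hj] at hHk
        have hT : ∀ᶠ n : ℕ in atTop,
            (((F k * n ^ c' i + 1) ^ (F k * n ^ e' i) + 1) ^ (H k n + 1 + 1)) ^ (F k * n ^ c' i)
            ≤ n ^ ((((c' i + 1) * F k + 1) * F k * (j + 2)) * n ^ (c' i + e' i) *
              (Nat.log 2 n + 1)) := by
          filter_upwards [eventually_ge_atTop (F k + 2), hHk] with n hn hHn
          exact TBW.rand (c' i) (e' i) (F k) n (H k n) (j + 2) hn (TBW.logH n (H k n) j hj1 hHn)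
        filter_upwards [hCORE (c' i + e' i) j _ hj1 _ (H k) hT hHk] with n hn A₀
        obtain ⟨hG, m, l, K, hm1, hl, hK, hm, hKm, hδ, herr⟩ := hn
        rw [hkj] at hm
        exact hONE k n (H k n) m l K (F k * n ^ c' i) (F k * n ^ e' i)
          (F k * n ^ c' i) hG hm1 hl hK hm hKm hδ herr A₀ (ra i k n)
          (fun ω => (hFG k n ω).1) (fun ω => (hFG k n ω).2)
      · have hk' : 8 * c i + 4 * e i < k := hk
        obtain ⟨F, H, hH, hFG⟩ := hma i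
        obtain ⟨j, hj⟩ : ∃ j, j = k - (8 * c i + 4 * e i) := ⟨_, rfl⟩
        have hj1 : 1 ≤ j := by omega
        have hkj : 4 * (2 * c i + e i) + j = k := by omega
        have hHk := hH k hk'
        rw [← hj] at hHk
        have hT : ∀ᶠ n : ℕ in atTop,
            (3 * (((F k * n ^ c i + 1) ^ (F k * n ^ e i) + 1) ^ (H k n + 1 + 1)) ^
              (F k * n ^ c i)) ^ (F k * n ^ c i + 2)
            ≤ n ^ ((((((c i + 1) * F k + 1) * F k * (j + 2)) + 1) * (F k + 2)) *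
              n ^ (2 * c i + e i) * (Nat.log 2 n + 1)) := by
          filter_upwards [eventually_ge_atTop (F k + 3), hHk] with n hn hHn
          exact TBW.ma (c i) (e i) (F k) n (H k n) (j + 2) (by omega) (by omega)
            (TBW.logH n (H k n) j hj1 hHn)
        filter_upwards [hCORE (2 * c i + e i) j _ hj1 _ (H k) hT hHk] with n hn A₀
        obtain ⟨hG, m, l, K, hm1, hl, hK, hm, hKm, hδ, herr⟩ := hn
        rw [hkj] at hm
        have hKm' : 200 * K ^ 2 ≤ m := by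
          have : 0 ≤ K ^ 2 := Nat.zero_le _
          omega
        exact hONEM k n (H k n) m l K (F k * n ^ c i) (F k * n ^ e i)
          (F k * n ^ c i) (F k * n ^ c i) hG hm1 hl hK hm hKm' hδ
          (herr.trans (by norm_num)) A₀ (ma i k n)
          (hFG k n).1 (fun y ω => ((hFG k n).2 y ω).1) (fun y ω => ((hFG k n).2 y ω).2))
  exact ⟨A, fun i k hk n₀ => hA (Sum.inl i) k hk n₀, fun i k hk n₀ => hA (Sum.inr i) k hk n₀⟩

end Pool.Agent.RYD
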