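import Pool.Agent.RYD.St

/-!
Project RYD (MP_95e38d_lc), module CLG: the claim with a nonnegative weight outside the blocks.
-/

namespace Pool.Agent.RYD

open Finset Pool.Agent.Lib_helper62.PToda Pool.Agent.Lib_helper58.RToda

namespace CLG

variable {E : Type} {d : ℕ}

/-- `no1 B` depends only on the elements of `B`. -/
lemma no1_congr (B : Finset E) (x x' : Pt E d) (h : ∀ e ∈ B, x e = x' e) :
    no1 B x = no1 B x' := by
  unfold no1
  refine Finset.prod_congr rfl fun e he => ?_
  have h1 : one x e ↔ one x' e := by
    unfold one
    rw [h e he]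
  simp only [h1]

/-- `sg B` depends only on the elements of `B`. -/
lemma sg_congr [DecidableEq E] (B : Finset E) (x x' : Pt E d) (h : ∀ e ∈ B, x e = x' e) :
    sg B x = sg B x' := by
  unfold sg
  refine Finset.sum_congr rfl fun i hi => ?_
  have h1 : one x i ↔ one x' i := by
    unfold one
    rw [h i hi]
  rw [no1_congr (B.erase i) x x' (fun e he => h e (Finset.mem_of_mem_erase he)), h i hi]
  simp only [h1]

end CLG

theorem t_CLG (hMIX : St_MIX) : St_CLG := by
  intro E _ _ d hC J _ _ B hB f hf hI g hg0 hg
  have hBW : ∀ j e, e ∈ B j → e ∈ Finset.univ.biUnion B := fun j e he =>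
    Finset.mem_biUnion.mpr ⟨j, Finset.mem_univ j, he⟩
  generalize hW : Finset.univ.biUnion B = W at hBW
  have key : av (fun x => g x * ((∏ j, sg (B j) x) * ∏ t, f t x))
      = av (fun R : Pt E d => g R * av (fun y : Pt E d => (∏ j, sg (B j) y) *
          ∏ t, f t (fun e => if e ∈ W then y e else R e))) := by
    rw [hMIX E (Fin (d+1) → Bool) W (fun x => g x * ((∏ j, sg (B j) x) * ∏ t, f t x))]
    congr 1
    funext R
    rw [← av_mul_left]
    congr 1
    funext y
    have h1 : g (fun e => if e ∈ W then y e else R e) = g R := by
      refine hg _ _ fun e he => ?_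
      have he' : e ∉ W := by
        rw [← hW]
        intro h
        obtain ⟨j, _, hj⟩ := Finset.mem_biUnion.mp h
        exact he j hj
      simp [he']
    have h2 : ∀ j, sg (B j) (fun e => if e ∈ W then y e else R e) = sg (B j) y := fun j =>
      CLG.sg_congr _ _ _ (fun e he => by simp [hBW j e he])
    simp only [h1, h2]
  rw [key]
  calc |av (fun R : Pt E d => g R * av (fun y : Pt E d => (∏ j, sg (B j) y) *
          ∏ t, f t (fun e => if e ∈ W then y e else R e)))|
      ≤ av (fun R : Pt E d => |g R * av (fun y : Pt E d => (∏ j, sg (B j) y) *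
          ∏ t, f t (fun e => if e ∈ W then y e else R e))|) := abs_av_le _
    _ ≤ av (fun R : Pt E d => (∏ j, bd d (B j).card) * g R) := by
        refine av_mono fun R => ?_
        rw [abs_mul, abs_of_nonneg (hg0 R), mul_comm]
        refine mul_le_mul_of_nonneg_right ?_ (hg0 R)
        refine hC J B hB (fun t y => f t (fun e => if e ∈ W then y e else R e))
          (fun t x => hf t _) (fun t x x' hx => hI t _ _ ?_)
        intro e t' ht
        by_cases he : e ∈ W
        · simp only [he, if_true]
          exact hx e t' ht
        · simp only [he, if_false]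
    _ = av g * ∏ j, bd d (B j).card := by
        rw [av_mul_left, mul_comm]

end Pool.Agent.RYD
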