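import Pool.Agent.RYD.St

/-!
Module COR of project RYD: correlation of products with the signs on the sample space.
-/

set_option autoImplicit false
set_option linter.unusedSectionVars false

namespace Pool.Agent.RYD

open Finset Filter Pool.Agent.Lib_helper62.PToda Pool.Agent.Lib_helper58.RToda

namespace COR

section one
variable {E : Type} [DecidableEq E] {d : ℕ}

theorem no1_cases (B : Finset E) (x : Pt E d) :
    (no1 B x = 1 ∧ ∀ e ∈ B, ¬ one x e) ∨ (no1 B x = 0 ∧ ∃ e ∈ B, one x e) := by
  by_cases h : ∃ e ∈ B, one x e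
  · right
    refine ⟨?_, h⟩
    obtain ⟨e, he, h1⟩ := h
    unfold no1
    exact Finset.prod_eq_zero he (if_pos h1)
  · left
    push Not at h
    refine ⟨?_, h⟩
    unfold no1
    exact Finset.prod_eq_one fun e he => if_neg (h e he)

theorem ex1_cases (B : Finset E) (x : Pt E d) :
    ex1 B x = 1 ∨ (ex1 B x = 0 ∧ sg B x = 0) := by
  by_cases h : ∃ i ∈ B, one x i ∧ ∀ e ∈ B, e ≠ i → ¬ one x e
  · left
    obtain ⟨i, hi, h1, h2⟩ := h
    unfold ex1
    rw [Finset.sum_eq_single i]
    · rw [if_pos h1]
      rcases no1_cases (B.erase i) x with h3 | h3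
      · rw [h3.1, mul_one]
      · obtain ⟨-, e, he, h4⟩ := h3
        exact absurd h4 (h2 e (Finset.mem_of_mem_erase he) (Finset.ne_of_mem_erase he))
    · intro j hj hji
      rw [if_neg (h2 j hj hji), zero_mul]
    · intro hc
      exact absurd hi hc
  · right
    have hz : ∀ i ∈ B, one x i → no1 (B.erase i) x = 0 := by
      intro i hi h1
      rcases no1_cases (B.erase i) x with h3 | h3
      · exfalso
        exact h ⟨i, hi, h1, fun e he hne => h3.2 e (Finset.mem_erase.2 ⟨hne, he⟩)⟩
      · exact h3.1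
    constructor
    · unfold ex1
      refine Finset.sum_eq_zero fun i hi => ?_
      by_cases h1 : one x i
      · rw [hz i hi h1, mul_zero]
      · rw [if_neg h1, zero_mul]
    · unfold sg
      refine Finset.sum_eq_zero fun i hi => ?_
      by_cases h1 : one x i
      · rw [hz i hi h1, mul_zero]
      · rw [if_neg h1, zero_mul]

theorem ex1_mul_sg (B : Finset E) (x : Pt E d) : ex1 B x * sg B x = sg B x := by
  rcases ex1_cases B x with h | h
  · rw [h, one_mul]
  · rw [h.2, mul_zero]

theorem ex1_nonneg (B : Finset E) (x : Pt E d) : 0 ≤ ex1 B x := by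
  rcases ex1_cases B x with h | h
  · rw [h]; norm_num
  · rw [h.1]

theorem one_congr (x x' : Pt E d) (e : E) (h : x e = x' e) : one x e ↔ one x' e := by
  unfold one
  rw [h]

theorem ex1_congr (B : Finset E) (x x' : Pt E d) (h : ∀ e ∈ B, x e = x' e) :
    ex1 B x = ex1 B x' := by
  unfold ex1 no1
  refine Finset.sum_congr rfl fun i hi => ?_
  congr 1
  · exact if_congr (one_congr x x' i (h i hi)) rfl rfl
  · refine Finset.prod_congr rfl fun e he => ?_
    exact if_congr (one_congr x x' e (h e (Finset.mem_of_mem_erase he))) rfl rfl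

end one

/-- one element: all the sets contain it -/
noncomputable def psi (d : ℕ) (a : Fin (d+1) → Bool) : ℝ :=
  if ∀ t : Fin d, a t.succ = true then 1 else 0

noncomputable def phi (d : ℕ) (a : Fin (d+1) → Bool) : ℝ :=
  if ∀ t : Fin d, a t.succ = true then 0 else 1

theorem av_bool : av (fun b : Bool => if b = true then (1:ℝ) else 0) = 1 / 2 := by
  unfold av
  simp

theorem av_psi (d : ℕ) : av (psi d) = 1 / 2 ^ d := by
  have h1 : av (psi d) = av (fun z : Bool × (Fin d → Bool) =>
      (fun (_ : Bool) (a' : Fin d → Bool) => ∏ t : Fin d, (if a' t = true then (1:ℝ) else 0)) z.1 z.2) := by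
    rw [← av_equiv (Fin.consEquiv (fun _ : Fin (d+1) => Bool)) (psi d)]
    congr 1
    funext z
    obtain ⟨b, a'⟩ := z
    show psi d (Fin.cons b a') = _
    unfold psi
    simp only [Fin.cons_succ]
    by_cases h : ∀ t, a' t = true
    · rw [if_pos h]
      exact (Finset.prod_eq_one fun t _ => if_pos (h t)).symm
    · rw [if_neg h]
      push Not at h
      obtain ⟨t, ht⟩ := h
      exact (Finset.prod_eq_zero (Finset.mem_univ t) (if_neg ht)).symm
  rw [h1, av_prod (fun (_ : Bool) (a' : Fin d → Bool) =>
    ∏ t : Fin d, (if a' t = true then (1:ℝ) else 0))]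
  rw [av_const, av_pi (fun (_ : Fin d) (b : Bool) => if b = true then (1:ℝ) else 0)]
  rw [Finset.prod_const, av_bool, Finset.card_univ, Fintype.card_fin]
  rw [div_pow, one_pow]

theorem av_sub' {Y : Type} [Fintype Y] (f g : Y → ℝ) : av (fun y => f y - g y) = av f - av g := by
  unfold av
  rw [Finset.sum_sub_distrib, sub_div]

theorem av_phi (d : ℕ) : av (phi d) = qd d / 2 ^ d := by
  have h1 : phi d = fun a => (fun _ => (1:ℝ)) a - psi d a := by
    funext a
    unfold phi psi
    split_ifs <;> norm_num
  rw [h1, av_sub', av_const, av_psi]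
  unfold qd
  have : (2:ℝ) ^ d ≠ 0 := by positivity
  field_simp

theorem card_blk (m l : ℕ) (j : Fin m) : (blk m l j).card = l := by
  have : blk m l j = (Finset.univ : Finset (Fin l)).map
      ⟨fun i => (j, i), fun a b h => (Prod.mk.inj h).2⟩ := by
    ext ⟨a, b⟩
    constructor
    · intro h
      have h1 : a = j := by
        unfold blk at h
        exact (Finset.mem_filter.1 h).2
      refine Finset.mem_map.2 ⟨b, Finset.mem_univ _, ?_⟩
      show (j, b) = (a, b)
      rw [h1]
    · intro h
      obtain ⟨c, -, hc⟩ := Finset.mem_map.1 h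
      have h1 : (j, c) = (a, b) := hc
      unfold blk
      exact Finset.mem_filter.2 ⟨Finset.mem_univ _, (Prod.mk.inj h1).1.symm⟩
  rw [this, Finset.card_map, Finset.card_univ, Fintype.card_fin]

theorem dis_blk (m l : ℕ) : Dis (fun j : Fin m => blk m l j) := by
  intro i j hij
  rw [Finset.disjoint_left]
  intro e h1 h2
  unfold blk at h1 h2
  rw [mem_filter] at h1 h2
  exact hij (h1.2.symm.trans h2.2)

/-- the average of `ex1` of a block -/
noncomputable def qq (l d : ℕ) : ℝ := l * (1 / 2 ^ d * (qd d / 2 ^ d) ^ (l - 1))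

theorem qd_pos {d : ℕ} (hd : 1 ≤ d) : 0 < qd d := by
  unfold qd
  have : (2:ℝ) ^ 1 ≤ 2 ^ d := pow_le_pow_right₀ (by norm_num) hd
  linarith

theorem qq_pos {l d : ℕ} (hl : 1 ≤ l) (hd : 1 ≤ d) : 0 < qq l d := by
  unfold qq
  have h1 := qd_pos hd
  have h2 : (0:ℝ) < l := by exact_mod_cast hl
  positivity

theorem av_ex1 (hE : St_ELT) (m l d : ℕ) (j : Fin m) :
    av (fun x : Pt (Fin m × Fin l) d => ex1 (blk m l j) x) = qq l d := by
  have h := (hE (Fin m × Fin l) (Fin (d+1) → Bool) (blk m l j) (phi d) (psi d)).2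
  rw [card_blk, av_psi, av_phi] at h
  unfold qq
  rw [← h]
  rfl

end COR

open COR in
theorem t_COR (hCG : ∀ (E : Type) [Fintype E] [DecidableEq E] (d : ℕ), ClaimG E d)
    (hF : St_FACT) (hE : St_ELT) : St_COR := by
  classical
  intro m l d hl hd S f hf hind
  have hq := qq_pos hl hd
  set P : Pt (Fin m × Fin l) d → ℝ := fun x => ∏ j, ex1 (blk m l j) x with hP
  set G : Pt (Fin m × Fin l) d → ℝ := fun x => (∏ t, f t x) * ∏ j ∈ S, sg (blk m l j) x with hG
  have hPG : ∀ x, P x = if Good x then 1 else 0 := by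
    intro x
    by_cases h : Good x
    · rw [if_pos h]
      exact Finset.prod_eq_one fun j _ => h j
    · rw [if_neg h]
      unfold Good at h
      push Not at h
      obtain ⟨j, hj⟩ := h
      refine Finset.prod_eq_zero (Finset.mem_univ j) ?_
      rcases ex1_cases (blk m l j) x with h1 | h1
      · exact absurd h1 hj
      · exact h1.1
  have hsum : ∀ F : Pt (Fin m × Fin l) d → ℝ,
      ∑ w : Sm m l d, F w.1 = ∑ x, P x * F x := by
    intro F
    have e1 : ∑ x, P x * F x = ∑ x ∈ univ.filter (fun x : Pt (Fin m × Fin l) d => Good x), F x := by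
      rw [Finset.sum_filter]
      refine Finset.sum_congr rfl fun x _ => ?_
      rw [hPG x]
      split_ifs
      · rw [one_mul]
      · rw [zero_mul]
    rw [e1]
    symm
    exact Finset.sum_subtype _ (by intro x; simp) F
  have hcard : (Fintype.card (Sm m l d) : ℝ) = ∑ x, P x := by
    have h := hsum (fun _ => 1)
    simp only [mul_one, Finset.sum_const, Finset.card_univ, nsmul_eq_mul] at h
    exact h
  have havS : av (fun w : Sm m l d => (∏ t, f t w.1) * ∏ j ∈ S, ch w j) =
      av (fun x => P x * G x) / av P := by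
    have hX : (Fintype.card (Pt (Fin m × Fin l) d) : ℝ) ≠ 0 := by
      exact_mod_cast Fintype.card_ne_zero
    have e1 : av (fun w : Sm m l d => (∏ t, f t w.1) * ∏ j ∈ S, ch w j) =
        (∑ x, P x * G x) / ∑ x, P x := by
      rw [← hsum G, ← hcard]
      rfl
    rw [e1]
    unfold av
    rw [div_div_div_cancel_right₀ hX]
  -- the average of `P`
  have hPav : av P = qq l d ^ m := by
    have h := hF (Fin m × Fin l) (Fin (d+1) → Bool) (Fin m) (fun j => blk m l j) (dis_blk m l)
      (fun _ => 1) (fun _ _ _ => rfl) (fun j x => ex1 (blk m l j) x)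
      (fun j x x' hx => ex1_congr (blk m l j) x x' hx)
    simp only [one_mul] at h
    rw [av_const, one_mul] at h
    have h2 : av P = ∏ j : Fin m, av (fun x : Pt (Fin m × Fin l) d => ex1 (blk m l j) x) := h
    rw [h2, Finset.prod_congr rfl (fun j _ => av_ex1 hE m l d j), Finset.prod_const,
      Finset.card_univ, Fintype.card_fin]
  set g : Pt (Fin m × Fin l) d → ℝ := fun x => ∏ j ∈ univ \ S, ex1 (blk m l j) x with hg
  have hgav : av g = qq l d ^ (m - S.card) := by
    have h := hF (Fin m × Fin l) (Fin (d+1) → Bool) (Fin m) (fun j => blk m l j) (dis_blk m l)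
      (fun _ => 1) (fun _ _ _ => rfl) (fun j x => if j ∈ S then 1 else ex1 (blk m l j) x)
      (fun j x x' hx => by
        show (if j ∈ S then (1:ℝ) else ex1 (blk m l j) x) = if j ∈ S then 1 else ex1 (blk m l j) x'
        rw [ex1_congr (blk m l j) x x' hx])
    simp only [one_mul] at h
    rw [av_const, one_mul] at h
    have e1 : (fun x : Pt (Fin m × Fin l) d => ∏ j, if j ∈ S then (1:ℝ) else ex1 (blk m l j) x) = g := by
      funext x
      rw [hg]
      simp only
      rw [← Finset.prod_sdiff (Finset.subset_univ S)]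
      rw [Finset.prod_congr rfl (fun j (hj : j ∈ S) => if_pos hj), Finset.prod_const_one, mul_one]
      exact Finset.prod_congr rfl fun j hj => if_neg (Finset.mem_sdiff.1 hj).2
    have e2 : ∀ j : Fin m, av (fun x : Pt (Fin m × Fin l) d =>
        if j ∈ S then (1:ℝ) else ex1 (blk m l j) x) = if j ∈ S then 1 else qq l d := by
      intro j
      by_cases hj : j ∈ S
      · simp only [if_pos hj]
        exact av_const 1
      · simp only [if_neg hj]
        exact av_ex1 hE m l d j
    have h2 : av g = ∏ j : Fin m, if j ∈ S then (1:ℝ) else qq l d := by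
      rw [← e1]
      refine Eq.trans h ?_
      exact Finset.prod_congr rfl fun j _ => e2 j
    rw [h2, ← Finset.prod_sdiff (Finset.subset_univ S),
      Finset.prod_congr rfl (fun j (hj : j ∈ S) => if_pos hj), Finset.prod_const_one, mul_one,
      Finset.prod_congr rfl (fun j (hj : j ∈ univ \ S) => if_neg (Finset.mem_sdiff.1 hj).2),
      Finset.prod_const, Finset.card_sdiff_of_subset (Finset.subset_univ S), Finset.card_univ,
      Fintype.card_fin]
  -- the claim
  have hcl := hCG (Fin m × Fin l) d {j : Fin m // j ∈ S} (fun j => blk m l j.1)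
    (fun i j hij => dis_blk m l i.1 j.1 fun h => hij (Subtype.ext h)) f hf hind g
    (fun x => Finset.prod_nonneg fun j _ => ex1_nonneg _ x)
    (by
      intro x x' h
      refine Finset.prod_congr rfl fun j hj => ?_
      refine ex1_congr _ x x' fun e he => h e fun i hi => ?_
      have h1 : e.1 = j := by
        unfold blk at he
        exact (mem_filter.1 he).2
      have h2 : e.1 = i.1 := by
        unfold blk at hi
        exact (mem_filter.1 hi).2
      have h3 : j = i.1 := h1.symm.trans h2
      exact (Finset.mem_sdiff.1 hj).2 (h3 ▸ i.2))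
  have hfun : (fun x => g x * ((∏ j : {j : Fin m // j ∈ S}, sg (blk m l j.1) x) * ∏ t, f t x)) =
      fun x => P x * G x := by
    funext x
    have e1 : (∏ j : {j : Fin m // j ∈ S}, sg (blk m l j.1) x) = ∏ j ∈ S, sg (blk m l j) x :=
      Finset.prod_coe_sort S (fun j => sg (blk m l j) x)
    rw [e1]
    simp only [hP, hG, hg]
    rw [← Finset.prod_sdiff (Finset.subset_univ S)]
    have e2 : (∏ j ∈ S, ex1 (blk m l j) x) * ∏ j ∈ S, sg (blk m l j) x =
        ∏ j ∈ S, sg (blk m l j) x := by
      rw [← Finset.prod_mul_distrib]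
      exact Finset.prod_congr rfl fun j _ => ex1_mul_sg _ x
    calc (∏ j ∈ univ \ S, ex1 (blk m l j) x) * ((∏ j ∈ S, sg (blk m l j) x) * ∏ t, f t x)
        = (∏ j ∈ univ \ S, ex1 (blk m l j) x) * (((∏ j ∈ S, ex1 (blk m l j) x) *
            ∏ j ∈ S, sg (blk m l j) x) * ∏ t, f t x) := by rw [e2]
      _ = _ := by ring
  rw [hfun] at hcl
  have hbd : (∏ j : {j : Fin m // j ∈ S}, bd d (blk m l j.1).card) = bd d l ^ S.card := by
    rw [Finset.prod_congr rfl (fun j _ => by rw [card_blk]), Finset.prod_const, Finset.card_univ,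
      Fintype.card_coe]
  rw [hbd, hgav] at hcl
  rw [havS, abs_div, hPav, abs_of_pos (pow_pos hq m), div_le_iff₀ (pow_pos hq m)]
  refine hcl.trans (le_of_eq ?_)
  have hSm : S.card ≤ m := by
    have := Finset.card_le_univ S
    rwa [Fintype.card_fin] at this
  have hratio : bd d l = qd d / Real.sqrt l * qq l d := by
    have hlr : (0:ℝ) < l := by exact_mod_cast hl
    have hs : 0 < Real.sqrt l := Real.sqrt_pos.2 hlr
    have hss : Real.sqrt l * Real.sqrt l = l := Real.mul_self_sqrt hlr.le
    obtain ⟨k, rfl⟩ : ∃ k, l = k + 1 := ⟨l - 1, by omega⟩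
    unfold bd qq
    rw [Nat.add_sub_cancel, pow_succ]
    set s := Real.sqrt ((k + 1 : ℕ) : ℝ) with hsdef
    have h2 : (2:ℝ) ^ d ≠ 0 := by positivity
    rw [← hss]
    field_simp
  rw [hratio, mul_pow]
  have hpow : qq l d ^ m = qq l d ^ (m - S.card) * qq l d ^ S.card := by
    rw [← pow_add]
    congr 1
    omega
  rw [hpow]
  ring

end Pool.Agent.RYD
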