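import Pool.Agent.RYD.St

/-!
# RYD, module CS (helper62): the Cauchy-Schwarz step for the last player
-/

set_option autoImplicit false

namespace Pool.Agent.RYD

open Finset Filter Pool.Agent.Lib_helper62.PToda Pool.Agent.Lib_helper58.RToda

namespace CS

variable {E : Type} {d : ℕ}

theorem cw_pos (B : Finset E) (x : Pt E d) : 0 < cw B x := by
  unfold cw
  refine prod_pos fun e _ => ?_
  split_ifs <;> norm_num

theorem agO_sn (x : Pt E d) (Z Z' : E → Bool) : AgO (Fin.last (d+1)) (sn x Z) (sn x Z') := by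
  intro e t' ht'
  unfold sn
  obtain ⟨s, rfl⟩ := Fin.exists_castSucc_eq.2 ht'
  rw [Fin.snoc_castSucc, Fin.snoc_castSucc]

end CS

theorem t_CS (h1 : St_SNAV) (h2 : St_SGS) (h3 : St_CWA) : St_CS := by
  intro E _ _ d J _ _ B hB f hf hi
  set fl : Pt E d → ℝ := fun x => f (Fin.last (d+1)) (sn x (fun _ => false)) with hfl
  have hflZ : ∀ (x : Pt E d) (Z : E → Bool), f (Fin.last (d+1)) (sn x Z) = fl x := fun x Z =>
    hi (Fin.last (d+1)) _ _ (CS.agO_sn x Z _)
  set H : Pt E d → (E → Bool) → ℝ := fun x Z =>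
    (∏ j, sg (fil Z (B j)) x) * ∏ t : Fin (d+1), f t.castSucc (sn x Z) with hH
  set G : Pt E d → ℝ := fun x => av (fun Z : E → Bool => H x Z) with hG
  set c : Pt E d → ℝ := fun x => ∏ j, cw (B j) x with hc
  have hcpos : ∀ x, 0 < c x := fun x => prod_pos fun j _ => CS.cw_pos (B j) x
  have e1 : av (fun x : Pt E (d+1) => (∏ j, sg (B j) x) * ∏ t, f t x) =
      av (fun x : Pt E d => Real.sqrt (c x) * (fl x * G x / Real.sqrt (c x))) := by
    rw [h1 E d]
    congr 1
    funext x
    have hs : Real.sqrt (c x) ≠ 0 := (Real.sqrt_pos.2 (hcpos x)).ne'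
    rw [mul_div_cancel₀ _ hs, hG]
    simp only
    rw [← av_mul_left]
    congr 1
    funext Z
    rw [Fin.prod_univ_castSucc, hflZ, hH]
    simp only [h2 E d _ x Z]
    ring
  rw [e1]
  refine (av_mul_sq_le _ _).trans ?_
  have e2 : av (fun x : Pt E d => Real.sqrt (c x) ^ 2) =
      ∏ j, (qd (d+1) / 2 ^ d) ^ (B j).card := by
    rw [← h3 E d J B hB]
    congr 1
    funext x
    exact Real.sq_sqrt (hcpos x).le
  rw [e2]
  have hq : 0 ≤ ∏ j, (qd (d+1) / 2 ^ d) ^ (B j).card := by
    rw [← e2]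
    exact av_nonneg fun x => sq_nonneg _
  refine mul_le_mul_of_nonneg_left ?_ hq
  have e3 : av (fun Z : E → Bool => av (fun Z' : E → Bool => inner B Z Z' (dF f Z Z'))) =
      av (fun x : Pt E d => (c x)⁻¹ * G x ^ 2) := by
    have e4 : ∀ Z Z' : E → Bool, inner B Z Z' (dF f Z Z') =
        av (fun x : Pt E d => (c x)⁻¹ * (H x Z * H x Z')) := by
      intro Z Z'
      unfold inner
      congr 1
      funext x
      rw [hc, hH]
      simp only [dF, prod_mul_distrib, prod_inv_distrib]
      ring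
    simp only [e4]
    have e5 : ∀ Z : E → Bool,
        av (fun Z' : E → Bool => av (fun x : Pt E d => (c x)⁻¹ * (H x Z * H x Z'))) =
        av (fun x : Pt E d => (c x)⁻¹ * (H x Z * G x)) := by
      intro Z
      rw [av_swap]
      congr 1
      funext x
      rw [av_mul_left, av_mul_left]
    simp only [e5]
    rw [av_swap]
    congr 1
    funext x
    rw [av_mul_left]
    congr 1
    have e6 : av (fun Z : E → Bool => H x Z * G x) = G x * av (fun Z : E → Bool => H x Z) := by
      rw [← av_mul_left]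
      congr 1
      funext Z
      ring
    rw [e6, sq]
  rw [e3]
  refine av_mono fun x => ?_
  have hc0 := hcpos x
  rw [div_pow, Real.sq_sqrt hc0.le, mul_pow, div_eq_inv_mul]
  refine mul_le_mul_of_nonneg_left ?_ (inv_nonneg.2 hc0.le)
  have hf1 : fl x ^ 2 ≤ 1 := by
    rw [sq_le_one_iff_abs_le_one]
    exact hf _ _
  calc fl x ^ 2 * G x ^ 2 ≤ 1 * G x ^ 2 := mul_le_mul_of_nonneg_right hf1 (sq_nonneg _)
    _ = G x ^ 2 := one_mul _

end Pool.Agent.RYD
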