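import Pool.Agent.RYD.St

set_option autoImplicit false

/-! RYD CWA: the average of the Cauchy-Schwarz weight. -/

namespace Pool.Agent.RYD

open Finset Filter Pool.Agent.Lib_helper62.PToda Pool.Agent.Lib_helper58.RToda

namespace CWA

/-- The factor of one element. -/
noncomputable def phi (d : ℕ) (a : Fin (d+1) → Bool) : ℝ :=
  if ∀ t : Fin d, a t.succ = true then 1 else 2

/-- The factors of one coordinate. -/
noncomputable def hh (d : ℕ) : Fin (d+1) → Bool → ℝ :=
  Fin.cons (fun _ => 1) (fun _ b => if b = true then 1 else 0)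

theorem phi_eq (d : ℕ) (a : Fin (d+1) → Bool) : phi d a = 2 - ∏ t, hh d t (a t) := by
  rw [Fin.prod_univ_succ]
  unfold hh phi
  simp only [Fin.cons_zero, Fin.cons_succ, one_mul]
  by_cases h : ∀ t : Fin d, a t.succ = true
  · rw [if_pos h, prod_congr rfl (fun t _ => if_pos (h t)), prod_const_one]
    norm_num
  · rw [if_neg h]
    push Not at h
    obtain ⟨t, ht⟩ := h
    rw [prod_eq_zero (mem_univ t) (if_neg ht)]
    norm_num

theorem av_sub_const {Y : Type} [Fintype Y] [Nonempty Y] (c : ℝ) (f : Y → ℝ) :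
    av (fun y => c - f y) = c - av f := by
  unfold av
  have h : (Fintype.card Y : ℝ) ≠ 0 := by exact_mod_cast Fintype.card_ne_zero
  rw [Finset.sum_sub_distrib, Finset.sum_const, Finset.card_univ, nsmul_eq_mul]
  field_simp

theorem av_ind : av (fun b : Bool => if b = true then (1:ℝ) else 0) = 1 / 2 := by
  unfold av
  rw [Fintype.sum_bool]
  norm_num

theorem av_phi (d : ℕ) : av (phi d) = qd (d+1) / 2 ^ d := by
  have h1 : phi d = fun a => 2 - ∏ t, hh d t (a t) := funext (phi_eq d)
  rw [h1, av_sub_const, av_pi, Fin.prod_univ_succ]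
  unfold hh qd
  simp only [Fin.cons_zero, Fin.cons_succ]
  rw [av_const, av_ind, prod_const, card_univ, Fintype.card_fin, one_mul, one_div, inv_pow]
  field_simp
  ring

theorem cw_eq {E : Type} {d : ℕ} (B : Finset E) (x : Pt E d) :
    cw B x = ∏ e ∈ B, phi d (x e) := by
  unfold cw
  refine prod_congr rfl fun e _ => ?_
  unfold phi
  by_cases h : one x e
  · rw [if_pos h, if_pos (show ∀ t : Fin d, x e t.succ = true from h)]
  · rw [if_neg h, if_neg (show ¬ ∀ t : Fin d, x e t.succ = true from h)]

end CWA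

theorem t_CWA (hF : St_FACT) (hE : St_ELT) : St_CWA := by
  intro E _ _ d J _ _ B hB
  have h1 := hF E (Fin (d+1) → Bool) J B hB (fun _ => 1) (fun _ _ _ => rfl)
    (fun j x => cw (B j) x) (fun j x x' hxx => by
      show cw (B j) x = cw (B j) x'
      rw [CWA.cw_eq, CWA.cw_eq]
      exact prod_congr rfl fun e he => by rw [hxx e he])
  simp only [one_mul] at h1
  have h2 : av (fun _ : E → Fin (d+1) → Bool => (1:ℝ)) = 1 := av_const 1
  rw [h2, one_mul] at h1
  refine h1.trans (prod_congr rfl fun j _ => ?_)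
  have h3 := (hE E (Fin (d+1) → Bool) (B j) (CWA.phi d) (CWA.phi d)).1
  rw [CWA.av_phi] at h3
  rw [← h3]
  exact congrArg av (funext fun x => CWA.cw_eq (B j) x)

end Pool.Agent.RYD
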