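import Pool.Agent.RYD.St

/-!
# RYD: the weight where the sign does not vanish
-/

set_option autoImplicit false

namespace Pool.Agent.RYD

open Finset

namespace CWS

variable {E : Type} [DecidableEq E] {d : ℕ}

theorem cw_eq {U : Finset E} {x : Pt E d} {i : E} (hi : i ∈ U) (h1 : one x i)
    (h2 : ∀ e ∈ U.erase i, ¬ one x e) : cw U x = 2 ^ (U.card - 1) := by
  unfold cw
  rw [← Finset.mul_prod_erase U _ hi, if_pos h1, one_mul,
    Finset.prod_congr rfl (g := fun _ => (2 : ℝ)) (fun e he => if_neg (h2 e he)),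
    Finset.prod_const, Finset.card_erase_of_mem hi]

theorem no1_zero {U : Finset E} {x : Pt E d} (h : ¬ ∀ e ∈ U, ¬ one x e) : no1 U x = 0 := by
  push Not at h
  obtain ⟨e, he, h1⟩ := h
  unfold no1
  exact Finset.prod_eq_zero he (if_pos h1)

end CWS

theorem t_CWS : St_CWS := by
  intro E _ d U x
  unfold sg
  rw [Finset.mul_sum, Finset.mul_sum]
  refine Finset.sum_congr rfl fun i hi => ?_
  by_cases h1 : one x i
  · by_cases h2 : ∀ e ∈ U.erase i, ¬ one x e
    · rw [CWS.cw_eq hi h1 h2]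
      have hc : 1 ≤ U.card := Finset.card_pos.2 ⟨i, hi⟩
      obtain ⟨m, hm⟩ := Nat.exists_eq_add_of_le hc
      have e : ((2 : ℝ) ^ (U.card - 1))⁻¹ = 2 * (1 / 2) ^ U.card := by
        rw [hm, Nat.add_sub_cancel_left, pow_add, pow_one, one_div, inv_pow]
        ring
      rw [e]
    · rw [CWS.no1_zero h2, mul_zero, mul_zero, mul_zero]
  · rw [if_neg h1, zero_mul, mul_zero, mul_zero]

end Pool.Agent.RYD
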