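import Pool.Agent.RYD.St

/-! Project RYD, module DBL: algebra of one block. -/

namespace Pool.Agent.RYD

open Finset Filter Pool.Agent.Lib_helper62.PToda Pool.Agent.Lib_helper58.RToda

namespace DBL

variable {E : Type} {d : ℕ}

lemma sgn_mul_self' (b : Bool) : sgn b * sgn b = 1 := by
  cases b <;> simp [sgn]

lemma no1_union [DecidableEq E] (U I : Finset E) (x : Pt E d) (h : Disjoint U I) :
    no1 (U ∪ I) x = no1 U x * no1 I x := by
  unfold no1
  exact Finset.prod_union h

lemma no1_mem (B : Finset E) (x : Pt E d) (e : E) (he : e ∈ B) (h : one x e) :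
    no1 B x = 0 := by
  unfold no1
  exact Finset.prod_eq_zero he (by simp [h])

lemma no1_sq (B : Finset E) (x : Pt E d) : no1 B x * no1 B x = no1 B x := by
  unfold no1
  rw [← Finset.prod_mul_distrib]
  apply Finset.prod_congr rfl
  intro e _
  split_ifs <;> norm_num

lemma sg_union [DecidableEq E] (U I : Finset E) (x : Pt E d) (h : Disjoint U I) :
    sg (U ∪ I) x = sg U x * no1 I x + no1 U x * sg I x := by
  unfold sg
  rw [Finset.sum_union h, Finset.sum_mul, Finset.mul_sum]
  congr 1
  · apply Finset.sum_congr rfl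
    intro i hi
    have h1 : i ∉ I := Finset.disjoint_left.mp h hi
    have h2 : (U ∪ I).erase i = U.erase i ∪ I := by
      rw [Finset.erase_union_distrib, Finset.erase_eq_of_notMem h1]
    rw [h2, no1_union _ _ _ (Finset.disjoint_of_subset_left (Finset.erase_subset i U) h), mul_assoc]
  · apply Finset.sum_congr rfl
    intro i hi
    have h1 : i ∉ U := Finset.disjoint_right.mp h hi
    have h2 : (U ∪ I).erase i = U ∪ I.erase i := by
      rw [Finset.erase_union_distrib, Finset.erase_eq_of_notMem h1]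
    rw [h2, no1_union _ _ _ (Finset.disjoint_of_subset_right (Finset.erase_subset i I) h)]
    ring

lemma no1_mul_sg [DecidableEq E] (I : Finset E) (x : Pt E d) : no1 I x * sg I x = 0 := by
  unfold sg
  rw [Finset.mul_sum]
  apply Finset.sum_eq_zero
  intro i hi
  by_cases h : one x i
  · rw [no1_mem I x i hi h, zero_mul]
  · rw [if_neg h]
    ring

lemma sg_sq [DecidableEq E] (I : Finset E) (x : Pt E d) : sg I x * sg I x = ex1 I x := by
  unfold sg ex1
  rw [Finset.sum_mul]
  apply Finset.sum_congr rfl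
  intro i hi
  by_cases h : one x i
  · rw [Finset.mul_sum, Finset.sum_eq_single i]
    · rw [if_pos h, if_pos h]
      calc sgn (x i 0) * no1 (I.erase i) x * (sgn (x i 0) * no1 (I.erase i) x)
          = (sgn (x i 0) * sgn (x i 0)) * (no1 (I.erase i) x * no1 (I.erase i) x) := by ring
        _ = 1 * no1 (I.erase i) x := by rw [sgn_mul_self', no1_sq]
    · intro j hj hji
      have h1 : no1 (I.erase j) x = 0 :=
        no1_mem _ x i (Finset.mem_erase.mpr ⟨fun h => hji h.symm, hi⟩) h
      rw [h1]
      ring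
    · intro h1
      exact absurd hi h1
  · rw [if_neg h, if_neg h]
    ring

lemma fil_eq [DecidableEq E] (Z Z' : E → Bool) (B : Finset E) :
    fil Z B = fU Z Z' B ∪ fI Z Z' B := by
  unfold fil fU fI
  ext e
  simp only [Finset.mem_filter, Finset.mem_union]
  cases Z e <;> cases Z' e <;> simp

lemma fil_eq' [DecidableEq E] (Z Z' : E → Bool) (B : Finset E) :
    fil Z' B = fU Z' Z B ∪ fI Z Z' B := by
  unfold fil fU fI
  ext e
  simp only [Finset.mem_filter, Finset.mem_union]
  cases Z e <;> cases Z' e <;> simp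

lemma disj (Z Z' : E → Bool) (B : Finset E) : Disjoint (fU Z Z' B) (fI Z Z' B) := by
  rw [Finset.disjoint_left]
  intro e h1 h2
  unfold fU at h1
  unfold fI at h2
  rw [Finset.mem_filter] at h1 h2
  have h3 := h1.2.2
  have h4 := h2.2.2
  rw [h3] at h4
  exact Bool.false_ne_true h4

lemma disj' (Z Z' : E → Bool) (B : Finset E) : Disjoint (fU Z' Z B) (fI Z Z' B) := by
  rw [Finset.disjoint_left]
  intro e h1 h2
  unfold fU at h1
  unfold fI at h2
  rw [Finset.mem_filter] at h1 h2
  have h3 := h1.2.2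
  have h4 := h2.2.1
  rw [h3] at h4
  exact Bool.false_ne_true h4

end DBL

open DBL in
theorem t_DBL : St_DBL := by
  intro E _ d B x Z Z'
  rw [fil_eq Z Z' B, fil_eq' Z Z' B, sg_union _ _ x (disj Z Z' B), sg_union _ _ x (disj' Z Z' B)]
  have h1 := no1_sq (fI Z Z' B) x
  have h2 := no1_mul_sg (fI Z Z' B) x
  have h3 := sg_sq (fI Z Z' B) x
  linear_combination (sg (fU Z Z' B) x * sg (fU Z' Z B) x) * h1
    + (sg (fU Z Z' B) x * no1 (fU Z' Z B) x + no1 (fU Z Z' B) x * sg (fU Z' Z B) x) * h2
    + (no1 (fU Z Z' B) x * no1 (fU Z' Z B) x) * h3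

end Pool.Agent.RYD
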