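import Pool.Agent.RYD.St2

namespace Pool.Agent.RYD

open Finset Filter Pool.Agent.Lib_helper62.PToda Pool.Agent.Lib_helper58.RToda

theorem t_DIAG : St_DIAG := by
  intro τ _ bad hfin0 cond hone
  have hfin : ∀ i k n A, bad i k n A → ∃ N, ∀ A' : Bits → Bool,
      (∀ b : Bits, b.2.1 ≤ N → A' b = A b) → bad i k n A' := by
    intro i k n A h
    obtain ⟨N, hN⟩ := hfin0 i k n
    exact ⟨N, fun A' h' => (hN A' A h').2 h⟩
  rcases isEmpty_or_nonempty τ with hι | hι
  · exact ⟨fun _ => false, fun i => (hι.false i).elim⟩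
  obtain ⟨e, he⟩ := exists_surjective_nat (τ × ℕ × ℕ)
  -- one step
  have step : ∀ (s : ℕ) (σ : (Bits → Bool) × ℕ), ∃ σ' : (Bits → Bool) × ℕ,
      σ.2 < σ'.2 ∧ (∀ b : Bits, b.2.1 ≤ σ.2 → σ'.1 b = σ.1 b) ∧
      (cond (e s).1 (e s).2.1 → ∃ n, (e s).2.2 ≤ n ∧ ∀ A : Bits → Bool,
        (∀ b : Bits, b.2.1 ≤ σ'.2 → A b = σ'.1 b) → bad (e s).1 (e s).2.1 n A) := by
    intro s σ
    obtain ⟨i, k, n₀⟩ := e s
    simp only
    by_cases hk : cond i k
    · have hev := (hone i k hk).and ((eventually_ge_atTop (max n₀ (σ.2 + 1))))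
      obtain ⟨n, hex, hn⟩ := hev.exists
      have hn0 : n₀ ≤ n := le_trans (le_max_left _ _) hn
      have hn1 : σ.2 + 1 ≤ n := le_trans (le_max_right _ _) hn
      obtain ⟨A, hA1, hA2⟩ := hex σ.1
      obtain ⟨N, hN⟩ := hfin i k n A hA2
      refine ⟨(A, max n N), ?_, ?_, ?_⟩
      · simp only
        have := le_max_left n N
        omega
      · intro b hb
        apply hA1
        rintro ⟨_, h2⟩
        omega
      · intro _
        exact ⟨n, hn0, fun A' hA' => hN A' (fun b hb => hA' b (le_trans hb (le_max_right _ _)))⟩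
    · exact ⟨(σ.1, σ.2 + 1), by simp, fun _ _ => rfl, fun h => absurd h hk⟩
  choose nxt h1 h2 h3 using step
  let σ : ℕ → (Bits → Bool) × ℕ := fun s => Nat.rec ((fun _ => false), 0) (fun s τ => nxt s τ) s
  have hσ : ∀ s, σ (s + 1) = nxt s (σ s) := fun s => rfl
  have hM : ∀ s, s ≤ (σ s).2 := by
    intro s
    induction s with
    | zero => exact Nat.zero_le _
    | succ s ih =>
      rw [hσ]
      have := h1 s (σ s)
      omega
  have hMm : ∀ s t, s ≤ t → (σ s).2 ≤ (σ t).2 := by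
    intro s t hst
    induction t, hst using Nat.le_induction with
    | base => exact le_rfl
    | succ t _ ih =>
      rw [hσ]
      have := h1 t (σ t)
      omega
  have hstab : ∀ s t, s ≤ t → ∀ b : Bits, b.2.1 ≤ (σ s).2 → (σ t).1 b = (σ s).1 b := by
    intro s t hst
    induction t, hst using Nat.le_induction with
    | base => intro b _; rfl
    | succ t ht ih =>
      intro b hb
      rw [hσ, h2 t (σ t) b (le_trans hb (hMm s t ht)), ih b hb]
  refine ⟨fun b => (σ b.2.1).1 b, fun i k hk n₀ => ?_⟩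
  obtain ⟨s, hs⟩ := he (i, k, n₀)
  have h := h3 s (σ s)
  rw [hs] at h
  obtain ⟨n, hn, hA⟩ := h hk
  refine ⟨n, hn, hA _ ?_⟩
  intro b hb
  rw [← hσ] at hb ⊢
  rcases le_total b.2.1 (s + 1) with hle | hle
  · exact (hstab b.2.1 (s + 1) hle b (hM _)).symm
  · exact hstab (s + 1) b.2.1 hle b hb

end Pool.Agent.RYD
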