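import Pool.Agent.RYD.St

/-!
# Project RYD: products over elements
-/

set_option autoImplicit false

namespace Pool.Agent.RYD

open Pool.Agent.Lib_helper62.PToda

namespace ELT

variable {E A : Type} [Fintype E] [DecidableEq E] [Fintype A] [Nonempty A]

theorem pone (B : Finset E) (u : E → ℝ) :
    ∏ e, (if e ∈ B then u e else 1) = ∏ e ∈ B, u e := by
  rw [Finset.prod_ite_mem, Finset.univ_inter]

theorem gen (B : Finset E) (φ : E → A → ℝ) :
    av (fun x : E → A => ∏ e ∈ B, φ e (x e)) = ∏ e ∈ B, av (φ e) := by
  have h1 : (fun x : E → A => ∏ e ∈ B, φ e (x e)) =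
      fun x : E → A => ∏ e, (fun e a => if e ∈ B then φ e a else 1) e (x e) := by
    funext x
    exact (pone B fun e => φ e (x e)).symm
  rw [h1, av_pi (fun e a => if e ∈ B then φ e a else 1), ← pone B fun e => av (φ e)]
  refine Finset.prod_congr rfl fun e _ => ?_
  by_cases h : e ∈ B
  · simp only [if_pos h]
  · simp only [if_neg h]
    exact av_const 1

end ELT

/-- Products over elements. -/
theorem t_ELT (_ : St_FACT) : St_ELT := by
  intro E A _ _ _ _ B φ ψ
  constructor
  · rw [ELT.gen B fun _ => φ, Finset.prod_const]
  · rw [av_sum]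
    have key : ∀ i ∈ B, av (fun x : E → A => ψ (x i) * ∏ e ∈ B.erase i, φ (x e)) =
        av ψ * av φ ^ (B.card - 1) := by
      intro i hi
      have h1 : (fun x : E → A => ψ (x i) * ∏ e ∈ B.erase i, φ (x e)) =
          fun x : E → A => ∏ e ∈ B, (fun e => if e = i then ψ else φ) e (x e) := by
        funext x
        rw [← Finset.mul_prod_erase B _ hi]
        refine congrArg₂ (· * ·) ?_ ?_
        · show ψ (x i) = (if i = i then ψ else φ) (x i)
          rw [if_pos rfl]
        · refine Finset.prod_congr rfl fun e he => ?_
          show φ (x e) = (if e = i then ψ else φ) (x e)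
          rw [if_neg (Finset.ne_of_mem_erase he)]
      rw [h1, ELT.gen B, ← Finset.mul_prod_erase B _ hi]
      refine congrArg₂ (· * ·) ?_ ?_
      · show av (if i = i then ψ else φ) = av ψ
        rw [if_pos rfl]
      · rw [← Finset.card_erase_of_mem hi, ← Finset.prod_const]
        refine Finset.prod_congr rfl fun e he => ?_
        show av (if e = i then ψ else φ) = av φ
        rw [if_neg (Finset.ne_of_mem_erase he)]
    rw [Finset.sum_congr rfl key, Finset.sum_const, nsmul_eq_mul]

end Pool.Agent.RYD
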