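import Pool.Agent.RYD.St

/-! RYD, module EXP: the bound of the inner average. -/

set_option autoImplicit false

namespace Pool.Agent.RYD

open Finset Filter Pool.Agent.Lib_helper62.PToda Pool.Agent.Lib_helper58.RToda

theorem t_EXP (hA : St_EXPA) (hB : St_EXPB) : St_EXP := by
  intro E _ _ d hG J _ _ B hDis Z Z' F hF hI
  have h1 : inner B Z Z' F = ∑ D : Finset J, av (fun x : Pt E d =>
      gD B Z Z' D x * ((∏ p, sg (bl B Z Z' D p) x) * ∏ t, F t x)) := by
    rw [← av_sum Finset.univ (fun (D : Finset J) (x : Pt E d) =>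
      gD B Z Z' D x * ((∏ p, sg (bl B Z Z' D p) x) * ∏ t, F t x))]
    unfold inner
    congr 1
    funext x
    rw [hA E d J B Z Z' x, Finset.sum_mul]
    exact Finset.sum_congr rfl fun D _ => by ring
  have h2 : ∀ D : Finset J, av (fun x : Pt E d =>
      gD B Z Z' D x * ((∏ p, sg (bl B Z Z' D p) x) * ∏ t, F t x)) ≤
      av (fun x : Pt E d => (∏ j ∈ D, al Z Z' (B j) x) * ∏ j ∈ univ \ D, be Z Z' (B j) x) := by
    intro D
    obtain ⟨hd, hnn, hloc, hmul⟩ := hB E d J B hDis Z Z' D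
    have h3 := hG ({j // j ∈ D} × Bool) (bl B Z Z' D) hd F hF hI (gD B Z Z' D) hnn hloc
    refine (le_abs_self _).trans (h3.trans (le_of_eq ?_))
    rw [mul_comm, ← av_mul_left]
    congr 1
    funext x
    rw [mul_comm]
    exact hmul x
  have h4 : av (fun x : Pt E d => ∏ j, (al Z Z' (B j) x + be Z Z' (B j) x)) =
      ∑ D : Finset J, av (fun x : Pt E d =>
        (∏ j ∈ D, al Z Z' (B j) x) * ∏ j ∈ univ \ D, be Z Z' (B j) x) := by
    rw [← av_sum Finset.univ (fun (D : Finset J) (x : Pt E d) =>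
        (∏ j ∈ D, al Z Z' (B j) x) * ∏ j ∈ univ \ D, be Z Z' (B j) x)]
    congr 1
    funext x
    rw [Finset.prod_add, Finset.powerset_univ]
  rw [h1, h4]
  exact Finset.sum_le_sum fun D _ => h2 D

end Pool.Agent.RYD
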