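import Pool.Agent.RYD.St

/-! RYD, module EXPA: pointwise expansion. -/

set_option autoImplicit false

namespace Pool.Agent.RYD

open Finset Filter Pool.Agent.Lib_helper62.PToda Pool.Agent.Lib_helper58.RToda

namespace EXPA

variable {E : Type} {d : ℕ}

theorem cw_split (B : Finset E) (Z Z' : E → Bool) (x : Pt E d) :
    cw B x = cw (fU Z Z' B) x * cw (fU Z' Z B) x * cw (fI Z Z' B) x * cw (fN Z Z' B) x := by
  unfold cw fU fI fN
  rw [Finset.prod_filter, Finset.prod_filter, Finset.prod_filter, Finset.prod_filter,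
    ← Finset.prod_mul_distrib, ← Finset.prod_mul_distrib, ← Finset.prod_mul_distrib]
  refine Finset.prod_congr rfl fun e _ => ?_
  cases Z e <;> cases Z' e <;> simp

theorem block [DecidableEq E] (hDBL : St_DBL) (hCWS : St_CWS) (B : Finset E) (Z Z' : E → Bool)
    (x : Pt E d) : (cw B x)⁻¹ * (sg (fil Z B) x * sg (fil Z' B) x) =
      ga Z Z' B x * (sg (fU Z Z' B) x * sg (fU Z' Z B) x) + be Z Z' B x := by
  rw [hDBL E d B x Z Z', mul_add]
  congr 1
  rw [cw_split B Z Z' x, ga]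
  have h1 := hCWS E d (fU Z Z' B) x
  have h2 := hCWS E d (fU Z' Z B) x
  rw [mul_inv, mul_inv, mul_inv, pow_add]
  calc (cw (fU Z Z' B) x)⁻¹ * (cw (fU Z' Z B) x)⁻¹ * (cw (fI Z Z' B) x)⁻¹ *
        (cw (fN Z Z' B) x)⁻¹ * (sg (fU Z Z' B) x * sg (fU Z' Z B) x * no1 (fI Z Z' B) x)
      = ((cw (fU Z Z' B) x)⁻¹ * sg (fU Z Z' B) x) * ((cw (fU Z' Z B) x)⁻¹ * sg (fU Z' Z B) x) *
        ((cw (fN Z Z' B) x)⁻¹ * ((cw (fI Z Z' B) x)⁻¹ * no1 (fI Z Z' B) x)) := by ring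
    _ = _ := by
      rw [h1, h2]
      ring

end EXPA

theorem t_EXPA (hDBL : St_DBL) (hCWS : St_CWS) : St_EXPA := by
  intro E _ _ d J _ _ B Z Z' x
  rw [Finset.prod_congr rfl (fun j _ => EXPA.block hDBL hCWS (B j) Z Z' x), Finset.prod_add,
    Finset.powerset_univ]
  refine Finset.sum_congr rfl fun D _ => ?_
  rw [gD, Finset.prod_mul_distrib, Fintype.prod_prod_type]
  have h : (∏ j : {j // j ∈ D}, ∏ b : Bool, sg (bl B Z Z' D (j, b)) x) =
      ∏ j ∈ D, (sg (fU Z Z' (B j)) x * sg (fU Z' Z (B j)) x) := by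
    rw [← Finset.prod_coe_sort D]
    refine Finset.prod_congr rfl fun j _ => ?_
    rw [Fintype.prod_bool]
    rfl
  rw [h]
  ring

end Pool.Agent.RYD
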