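import Pool.Agent.RYD.St

/-!
RYD, module EXPB (helper79, for helper54): weights and blocks for the set `D`.
-/

set_option autoImplicit false

namespace Pool.Agent.RYD

open Finset Filter Pool.Agent.Lib_helper62.PToda Pool.Agent.Lib_helper58.RToda

namespace EXPB

variable {E : Type} {d : ℕ}

theorem one_congr {x x' : Pt E d} {e : E} (h : x e = x' e) : one x e ↔ one x' e := by
  unfold one
  rw [h]

theorem cw_congr {B : Finset E} {x x' : Pt E d} (h : ∀ e ∈ B, x e = x' e) :
    cw B x = cw B x' := by
  unfold cw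
  refine prod_congr rfl fun e he => ?_
  exact if_congr (one_congr (h e he)) rfl rfl

theorem no1_congr {B : Finset E} {x x' : Pt E d} (h : ∀ e ∈ B, x e = x' e) :
    no1 B x = no1 B x' := by
  unfold no1
  refine prod_congr rfl fun e he => ?_
  exact if_congr (one_congr (h e he)) rfl rfl

theorem ex1_congr [DecidableEq E] {B : Finset E} {x x' : Pt E d} (h : ∀ e ∈ B, x e = x' e) :
    ex1 B x = ex1 B x' := by
  unfold ex1
  refine sum_congr rfl fun e he => ?_
  rw [no1_congr (fun i hi => h i (mem_of_mem_erase hi))]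
  congr 1
  exact if_congr (one_congr (h e he)) rfl rfl

theorem cw_nonneg (B : Finset E) (x : Pt E d) : 0 ≤ cw B x := by
  unfold cw
  refine prod_nonneg fun e _ => ?_
  split_ifs <;> norm_num

theorem no1_nonneg (B : Finset E) (x : Pt E d) : 0 ≤ no1 B x := by
  unfold no1
  refine prod_nonneg fun e _ => ?_
  split_ifs <;> norm_num

theorem ex1_nonneg [DecidableEq E] (B : Finset E) (x : Pt E d) : 0 ≤ ex1 B x := by
  unfold ex1
  refine sum_nonneg fun e _ => mul_nonneg ?_ (no1_nonneg _ _)
  split_ifs <;> norm_num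

theorem ga_nonneg (Z Z' : E → Bool) (B : Finset E) (x : Pt E d) : 0 ≤ ga Z Z' B x := by
  unfold ga
  exact mul_nonneg (mul_nonneg (inv_nonneg.2 (cw_nonneg _ _))
    (mul_nonneg (inv_nonneg.2 (cw_nonneg _ _)) (no1_nonneg _ _))) (by positivity)

theorem be_nonneg [DecidableEq E] (Z Z' : E → Bool) (B : Finset E) (x : Pt E d) :
    0 ≤ be Z Z' B x := by
  unfold be
  exact mul_nonneg (inv_nonneg.2 (cw_nonneg _ _))
    (mul_nonneg (mul_nonneg (no1_nonneg _ _) (no1_nonneg _ _)) (ex1_nonneg _ _))

theorem fU_sub (Z Z' : E → Bool) (B : Finset E) : fU Z Z' B ⊆ B := filter_subset _ _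

theorem bl_sub {J : Type} (B : J → Finset E) (Z Z' : E → Bool) (D : Finset J)
    (p : {j // j ∈ D} × Bool) : bl B Z Z' D p ⊆ B p.1 := by
  unfold bl
  split_ifs
  · exact fU_sub _ _ _
  · exact fU_sub _ _ _

/-- Elements of the blocks distinguish the two sets. -/
theorem bl_ne {J : Type} {B : J → Finset E} {Z Z' : E → Bool} {D : Finset J}
    {p : {j // j ∈ D} × Bool} {e : E} (h : e ∈ bl B Z Z' D p) : Z e ≠ Z' e := by
  unfold bl at h
  split_ifs at h
  · unfold fU at h
    rw [mem_filter] at h
    rw [h.2.1, h.2.2]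
    decide
  · unfold fU at h
    rw [mem_filter] at h
    rw [h.2.1, h.2.2]
    decide

theorem dis {J : Type} (B : J → Finset E) (hB : Dis B) (Z Z' : E → Bool) (D : Finset J) :
    Dis (bl B Z Z' D) := by
  intro p q hpq
  by_cases h : (p.1 : J) = q.1
  · have h1 : p.1 = q.1 := Subtype.ext h
    have h2 : p.2 ≠ q.2 := fun h2 => hpq (Prod.ext h1 h2)
    rw [disjoint_left]
    intro e he he'
    unfold bl at he he'
    rcases hp : p.2 with _ | _ <;> rcases hq : q.2 with _ | _
    · exact h2 (hp.trans hq.symm)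
    · rw [hp] at he
      rw [hq] at he'
      simp [fU] at he he'
      rw [he.2.1] at he'
      exact absurd he'.2.2 (by decide)
    · rw [hp] at he
      rw [hq] at he'
      simp [fU] at he he'
      rw [he.2.1] at he'
      exact absurd he'.2.2 (by decide)
    · exact h2 (hp.trans hq.symm)
  · exact (hB _ _ h).mono (bl_sub B Z Z' D p) (bl_sub B Z Z' D q)

end EXPB

open EXPB in
/-- **EXPB**. -/
theorem t_EXPB : St_EXPB := by
  intro E _ _ d J _ _ B hB Z Z' D
  refine ⟨dis B hB Z Z' D, ?_, ?_, ?_⟩
  · intro x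
    unfold gD
    exact mul_nonneg (prod_nonneg fun j _ => ga_nonneg _ _ _ _)
      (prod_nonneg fun j _ => be_nonneg _ _ _ _)
  · intro x x' hx
    have key : ∀ j e, e ∈ B j → (j ∈ D → Z e = Z' e) → x e = x' e := by
      intro j e he hj
      refine hx e fun p hp => ?_
      by_cases h : (p.1 : J) = j
      · exact bl_ne hp (hj (h ▸ p.1.2))
      · exact disjoint_left.1 (hB _ _ h) (bl_sub B Z Z' D p hp) he
    unfold gD
    congr 1
    · refine prod_congr rfl fun j hj => ?_
      have hN : ∀ e ∈ fN Z Z' (B j), x e = x' e := by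
        intro e he
        unfold fN at he
        rw [mem_filter] at he
        exact key j e he.1 fun _ => he.2.1.trans he.2.2.symm
      have hI : ∀ e ∈ fI Z Z' (B j), x e = x' e := by
        intro e he
        unfold fI at he
        rw [mem_filter] at he
        exact key j e he.1 fun _ => he.2.1.trans he.2.2.symm
      unfold ga
      rw [cw_congr hN, cw_congr hI, no1_congr hI]
    · refine prod_congr rfl fun j hj => ?_
      have hjD : j ∉ D := (Finset.mem_sdiff.1 hj).2
      have hall : ∀ e ∈ B j, x e = x' e := fun e he => key j e he fun h => absurd h hjD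
      have hU : ∀ e ∈ fU Z Z' (B j), x e = x' e := fun e he => hall e (fU_sub _ _ _ he)
      have hU' : ∀ e ∈ fU Z' Z (B j), x e = x' e := fun e he => hall e (fU_sub _ _ _ he)
      have hI : ∀ e ∈ fI Z Z' (B j), x e = x' e := fun e he => hall e (filter_subset _ _ he)
      unfold be
      rw [cw_congr hall, no1_congr hU, no1_congr hU', ex1_congr hI]
  · intro x
    have h1 : ∏ p : {j // j ∈ D} × Bool, bd d (bl B Z Z' D p).card =
        ∏ j ∈ D, (bd d (fU Z Z' (B j)).card * bd d (fU Z' Z (B j)).card) := by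
      rw [Fintype.prod_prod_type]
      rw [← Finset.prod_coe_sort D]
      refine prod_congr rfl fun j _ => ?_
      rw [Fintype.prod_bool]
      simp [bl]
    rw [h1]
    unfold gD al
    simp only [prod_mul_distrib]
    ring

end Pool.Agent.RYD
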