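import Pool.Agent.RYD.St

/-!
Project RYD, module FACT: functions of disjoint sets of coordinates are independent.
-/

set_option autoImplicit false

namespace Pool.Agent.RYD

open Finset Filter Pool.Agent.Lib_helper62.PToda Pool.Agent.Lib_helper58.RToda

namespace FACT

theorem two (hMIX : St_MIX) (E A : Type) [Fintype E] [DecidableEq E] [Fintype A]
    (B : Finset E) (G H : (E → A) → ℝ) (hG : ∀ x x', (∀ e, e ∉ B → x e = x' e) → G x = G x')
    (hH : ∀ x x', (∀ e ∈ B, x e = x' e) → H x = H x') :
    av (fun x => G x * H x) = av G * av H := by
  rw [hMIX E A B (fun x => G x * H x)]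
  have h1 : ∀ R y : E → A, G (fun e => if e ∈ B then y e else R e) = G R := by
    intro R y
    apply hG
    intro e he
    rw [if_neg he]
  have h2 : ∀ R y : E → A, H (fun e => if e ∈ B then y e else R e) = H y := by
    intro R y
    apply hH
    intro e he
    rw [if_pos he]
  simp only [h1, h2, av_mul_left]
  have h3 : (fun R : E → A => G R * av H) = fun R => av H * G R := by
    funext R
    exact mul_comm _ _
  show av (fun R : E → A => G R * av H) = av G * av H
  rw [h3, av_mul_left, mul_comm]

end FACT

theorem t_FACT (hMIX : St_MIX) : St_FACT := by
  intro E A _ _ _ _ J _ _ B hB g hg h hh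
  have key : ∀ s : Finset J, av (fun x => g x * ∏ j ∈ s, h j x) = av g * ∏ j ∈ s, av (h j) := by
    intro s
    induction s using Finset.induction_on with
    | empty => simp
    | insert j s hj ih =>
      have e1 : (fun x : E → A => g x * ∏ j' ∈ insert j s, h j' x) =
          fun x => (g x * ∏ j' ∈ s, h j' x) * h j x := by
        funext x
        rw [Finset.prod_insert hj]
        ring
      rw [e1, FACT.two hMIX E A (B j) (fun x => g x * ∏ j' ∈ s, h j' x) (h j) ?_ (hh j), ih,
        Finset.prod_insert hj]
      · ring
      · intro x x' hx
        have e2 : g x = g x' := by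
          apply hg
          intro e he
          exact hx e (he j)
        have e3 : ∏ j' ∈ s, h j' x = ∏ j' ∈ s, h j' x' := by
          refine Finset.prod_congr rfl fun j' hj' => ?_
          apply hh
          intro e he
          apply hx
          intro hej
          have hne : j' ≠ j := fun hc => hj (hc ▸ hj')
          exact Finset.disjoint_left.1 (hB j' j hne) he hej
        show g x * ∏ j' ∈ s, h j' x = g x' * ∏ j' ∈ s, h j' x'
        rw [e2, e3]
  exact key Finset.univ

end Pool.Agent.RYD
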