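import Pool.Agent.RYD.PARV

namespace Pool.Agent.RYD

open Finset Filter Pool.Agent.Lib_helper62.PToda Pool.Agent.Lib_helper58.RToda

/-- The parameters for `k = 4 c + j` and tests of depth `H n` with `2 ^ (8 H n) ≤ n ^ (4 j - 3)`. -/
theorem coreW (c j E : ℕ) (hj : 1 ≤ j) (T H : ℕ → ℕ)
    (hT : ∀ᶠ n : ℕ in atTop, T n ≤ n ^ (E * n ^ c * (Nat.log 2 n + 1)))
    (hH : ∀ᶠ n : ℕ in atTop, 2 ^ (8 * H n) ≤ n ^ (4 * j - 3)) :
    ∀ᶠ n : ℕ in atTop, H n + 2 ≤ n ∧ ∃ m l K, 1 ≤ m ∧ 1 ≤ l ∧ 1 ≤ K ∧ m * l ≤ n ^ (4 * c + j) ∧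
      20000 * K ^ 2 ≤ m ∧ (m:ℝ) * (qd (H n + 1) / Real.sqrt l) ≤ K + 1 ∧
      ((T n : ℕ) : ℝ) *
        (3 * ((m:ℝ) * (qd (H n + 1) / Real.sqrt l)) / (K + 1)) ^ (K + 1) ≤ 1 / 1000 := by
  obtain ⟨A0, hA0⟩ : ∃ A0, A0 = 320000 * (E + 1) ^ 2 := ⟨_, rfl⟩
  obtain ⟨C2, hC2⟩ : ∃ C2, C2 = 4 * A0 ^ 2 * (81 * 20000 ^ 4 * (4 * (E + 1)) ^ 4) * 16 := ⟨_, rfl⟩
  filter_upwards [eventually_ge_atTop 1000, hT, hH, PARV.ev_log A0, PARV.ev_log (C2 ^ 2),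
    PARV.ev_log (j + 2)] with n hn1 hT' hH' hl1' hl2' hl3'
  obtain ⟨L, hL⟩ : ∃ L, L = Nat.log 2 n + 1 := ⟨_, rfl⟩
  rw [← hL] at hT' hl1' hl2' hl3'
  have hL1 : 1 ≤ L := by omega
  have hn0 : 0 < n := by omega
  have hnc : 1 ≤ n ^ c := Nat.one_le_pow _ _ hn0
  have hA00 : 0 < A0 := by rw [hA0]; positivity
  obtain ⟨A, hA⟩ : ∃ A, A = A0 * L ^ 2 := ⟨_, rfl⟩
  have hApos : 0 < A := by rw [hA]; positivity
  obtain ⟨Q, hQ⟩ : ∃ Q, Q = 2 ^ (H n + 1) := ⟨_, rfl⟩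
  obtain ⟨l, hl⟩ : ∃ l, l = n ^ (2 * c + j) / A := ⟨_, rfl⟩
  obtain ⟨K, hK⟩ : ∃ K, K = 4 * (E + 1) * n ^ c * L := ⟨_, rfl⟩
  have hKE : 4 * (E * n ^ c * L + 1) ≤ K + 1 := by
    have h1 : K = 4 * (E * n ^ c * L) + 4 * (n ^ c * L) := by rw [hK]; ring
    have h2 : 1 * 1 ≤ n ^ c * L := Nat.mul_le_mul hnc hL1
    omega
  have hK1 : 1 ≤ K := by omega
  have hAn : A ≤ n := by
    rw [hA]
    refine le_trans (Nat.mul_le_mul_left _ (Nat.pow_le_pow_right hL1 (by norm_num))) hl1'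
  have hy : A ≤ n ^ (2 * c + j) := by
    calc A ≤ n := hAn
      _ = n ^ 1 := (pow_one n).symm
      _ ≤ n ^ (2 * c + j) := Nat.pow_le_pow_right hn0 (by omega)
  have hl1 : 1 ≤ l := by
    rw [hl]
    exact (Nat.le_div_iff_mul_le hApos).2 (by rw [one_mul]; exact hy)
  have hyl : n ^ (2 * c + j) ≤ 2 * A * l := by
    have h1 := Nat.lt_mul_div_succ (n ^ (2 * c + j)) hApos
    rw [← hl] at h1
    have h2 : A * (l + 1) ≤ A * (2 * l) := Nat.mul_le_mul_left _ (by omega)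
    calc n ^ (2 * c + j) ≤ A * (l + 1) := h1.le
      _ ≤ A * (2 * l) := h2
      _ = 2 * A * l := by ring
  have hm : 20000 * K ^ 2 = A * n ^ (2 * c) := by
    rw [hK, hA, hA0]
    ring
  -- the constant with the powers of L and of 2 ^ H
  have hC : C2 * L ^ 8 * 2 ^ (4 * H n) ≤ n ^ (2 * j - 1) := by
    have h1 : (C2 * L ^ 8 * 2 ^ (4 * H n)) ^ 2 ≤ (n ^ (2 * j - 1)) ^ 2 := by
      have e : (C2 * L ^ 8 * 2 ^ (4 * H n)) ^ 2 = (C2 ^ 2 * L ^ 16) * 2 ^ (8 * H n) := by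
        rw [mul_pow, mul_pow, ← pow_mul, ← pow_mul]
        have : 4 * H n * 2 = 8 * H n := by ring
        rw [this]
      have e2 : (n ^ (2 * j - 1)) ^ 2 = n * n ^ (4 * j - 3) := by
        obtain ⟨j', rfl⟩ : ∃ j', j = j' + 1 := ⟨j - 1, by omega⟩
        have e3 : 2 * (j' + 1) - 1 = 2 * j' + 1 := by omega
        have e4 : 4 * (j' + 1) - 3 = 4 * j' + 1 := by omega
        rw [e3, e4]
        ring
      rw [e, e2]
      exact Nat.mul_le_mul hl2' hH'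
    exact (Nat.pow_le_pow_iff_left (by norm_num)).1 h1
  have hbig : 81 * 20000 ^ 4 * K ^ 4 * Q ^ 4 * n ≤ l ^ 2 := by
    have hQ4 : Q ^ 4 = 16 * 2 ^ (4 * H n) := by
      rw [hQ, ← pow_mul]
      have : (H n + 1) * 4 = 4 * H n + 4 := by ring
      rw [this, pow_add]
      norm_num
      ring
    have h1 : (4 * A ^ 2) * (81 * 20000 ^ 4 * K ^ 4 * Q ^ 4 * n) ≤ (4 * A ^ 2) * l ^ 2 := by
      calc (4 * A ^ 2) * (81 * 20000 ^ 4 * K ^ 4 * Q ^ 4 * n)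
          = (C2 * L ^ 8 * 2 ^ (4 * H n)) * n ^ (4 * c + 1) := by
            rw [hK, hQ4, hA, hC2]; ring
        _ ≤ n ^ (2 * j - 1) * n ^ (4 * c + 1) := Nat.mul_le_mul_right _ hC
        _ = (n ^ (2 * c + j)) ^ 2 := by
            obtain ⟨j', rfl⟩ : ∃ j', j = j' + 1 := ⟨j - 1, by omega⟩
            have e3 : 2 * (j' + 1) - 1 = 2 * j' + 1 := by omega
            rw [e3]
            ring
        _ ≤ (2 * A * l) ^ 2 := Nat.pow_le_pow_left hyl 2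
        _ = (4 * A ^ 2) * l ^ 2 := by ring
    exact Nat.le_of_mul_le_mul_left h1 (by positivity)
  have hq0 : 0 ≤ qd (H n + 1) := by
    unfold qd
    have : (1:ℝ) ≤ 2 ^ (H n + 1) := one_le_pow₀ (by norm_num)
    linarith
  have hqQ : qd (H n + 1) ≤ (Q:ℝ) := by
    unfold qd
    rw [hQ]
    push_cast
    linarith
  have hreal := PAR4U.real_part n (20000 * K ^ 2) l K Q _ (E * n ^ c * L) (qd (H n + 1)) hq0 hqQ
    hn1 hl1 hK1 rfl hbig hT' hKE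
  refine ⟨?_, 20000 * K ^ 2, l, K, ?_, hl1, hK1, ?_, le_rfl, hreal.1, hreal.2⟩
  · have h1 : n < 2 ^ L := by
      rw [hL]
      exact Nat.lt_pow_succ_log_self (by norm_num) n
    have h2 : 2 ^ (8 * H n) ≤ 2 ^ (L * (4 * j - 3)) := by
      refine hH'.trans ?_
      rw [pow_mul]
      exact Nat.pow_le_pow_left h1.le _
    have h3 : 8 * H n ≤ L * (4 * j - 3) := (Nat.pow_le_pow_iff_right (by norm_num)).1 h2
    have h4 : L * (4 * j - 3) ≤ L * (4 * j) := Nat.mul_le_mul_left _ (by omega)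
    have h5 : L * (4 * j) = 4 * (j * L) := by ring
    have h6 : (j + 2) * L ≤ (j + 2) * L ^ 16 :=
      Nat.mul_le_mul_left _ (by
        calc L = L ^ 1 := (pow_one L).symm
          _ ≤ L ^ 16 := Nat.pow_le_pow_right hL1 (by norm_num))
    have h7 : (j + 2) * L = j * L + 2 * L := by ring
    omega
  · have : 1 ≤ K ^ 2 := Nat.one_le_pow _ _ (by omega)
    omega
  · rw [hm]
    calc A * n ^ (2 * c) * l = n ^ (2 * c) * (n ^ (2 * c + j) / A * A) := by rw [hl]; ring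
      _ ≤ n ^ (2 * c) * n ^ (2 * c + j) := Nat.mul_le_mul_left _ (Nat.div_mul_le_self _ _)
      _ = n ^ (4 * c + j) := by ring

end Pool.Agent.RYD
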