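import Pool.Agent.RYD.BOTHW
import Pool.Agent.RYD.PARW

namespace Pool.Agent.RYD

open Pool.Agent.Lib_helper62.PToda Pool.Agent.Lib_helper58.RToda

theorem coreStmtW : St_COREW := fun c j E hj T H hT hH => coreW c j E hj T H hT hH

/-- The final theorem: long tuples, tests of depth about `(k / 2) log n`, at most one solution in the
first part. -/
theorem bothW : St_BOTHW := t_BOTHW t_DIAG one4U one8 coreStmtW

end Pool.Agent.RYD
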