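import Pool.Agent.RYD.Main4
import Pool.Agent.RYD.BOTH8
import Pool.Agent.RYD.DIAG

namespace Pool.Agent.RYD

open Pool.Agent.Lib_helper62.PToda Pool.Agent.Lib_helper58.RToda

theorem one4 : St_ONE4 := t_ONE4 t_NEM t_CHI t_UNC small t_INST

theorem one8 : St_ONE8 := t_ONE8 t_NEM t_CHI t_UNC (t_MSM t_COV cor) t_INST

/-- The W[2] type property is decided by no randomised fpt algorithm with exact counting queries and
its complement by no Merlin-Arthur one, relative to one oracle. -/
theorem both8 : St_BOTH8 := t_BOTH8 t_DIAG one4 t_PAR4 one8 t_MPAR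

end Pool.Agent.RYD
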