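import Pool.Agent.RYD.BOTHV
import Pool.Agent.RYD.PARV

namespace Pool.Agent.RYD

open Pool.Agent.Lib_helper62.PToda Pool.Agent.Lib_helper58.RToda

theorem coreStmt : St_COREV := fun c k E hk T H hT hH => coreV c k E hk T H hT hH

/-- The final theorem: long tuples, tests of depth `(log n) / 8`, at most one solution in the first
part. -/
theorem bothV : St_BOTHV := t_BOTHV t_DIAG one4U one8 coreStmt

end Pool.Agent.RYD
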