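import Pool.Agent.RYD.St

/-!
# Project RYD, module INST: the oracle of a point
-/

set_option autoImplicit false

namespace Pool.Agent.RYD

open Finset Filter Pool.Agent.Lib_helper62.PToda Pool.Agent.Lib_helper58.RToda

namespace INST

variable {m l d k n : ℕ}

theorem congr (emb : (Fin m × Fin l) ↪ (Fin k → Fin n)) (A₀ : Bits → Bool) (t : Fin (d+1))
    (w w' : Pt (Fin m × Fin l) d) (h : AgO t w w') (b : Bits) (hb : mkO k n d b ≠ some t) :
    mkI emb A₀ w b = mkI emb A₀ w' b := by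
  classical
  unfold mkO at hb
  unfold mkI
  by_cases h1 : b.1 = k ∧ b.2.1 = n
  · rw [if_pos h1] at hb ⊢
    rw [if_pos h1]
    have hv : ∀ h' : b.2.2.2 < d + 1, (⟨b.2.2.2, h'⟩ : Fin (d+1)) ≠ t := by
      intro h' hE
      apply hb
      rw [dif_pos h', hE]
    have e : ∀ (e : Fin m × Fin l) (h' : b.2.2.2 < d + 1),
        w e ⟨b.2.2.2, h'⟩ = w' e ⟨b.2.2.2, h'⟩ := fun e h' => h e _ (hv h')
    simp only [e]
  · rw [if_neg h1, if_neg h1]

theorem off (emb : (Fin m × Fin l) ↪ (Fin k → Fin n)) (A₀ : Bits → Bool)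
    (w : Pt (Fin m × Fin l) d) (b : Bits) (hb : ¬ (b.1 = k ∧ b.2.1 = n)) :
    mkI emb A₀ w b = A₀ b := by
  classical
  unfold mkI
  rw [if_neg hb]

theorem slice (emb : (Fin m × Fin l) ↪ (Fin k → Fin n)) (A₀ : Bits → Bool)
    (w : Pt (Fin m × Fin l) d) (s : Fin k → Fin n) (v : ℕ) :
    mkI emb A₀ w (k, n, code s, v) = true ↔
      ∃ e, emb e = s ∧ ∀ h : v < d + 1, w e ⟨v, h⟩ = true := by
  classical
  unfold mkI
  rw [if_pos ⟨rfl, rfl⟩, decide_eq_true_eq]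
  constructor
  · rintro ⟨e, h1, h2⟩
    exact ⟨e, code_injective h1, h2⟩
  · rintro ⟨e, h1, h2⟩
    exact ⟨e, by rw [h1], h2⟩

end INST

theorem t_INST : St_INST := by
  intro m l d k n hn emb A₀
  refine ⟨fun t w w' h b hb => INST.congr emb A₀ t w w' h b hb,
    fun w b hb => INST.off emb A₀ w b hb, fun w => ?_⟩
  constructor
  · rintro ⟨s, hs⟩
    have hs' : ∀ v : Fin n, ∃ e, emb e = s ∧ ∀ h : (v : ℕ) < d + 1, w e ⟨v, h⟩ = true :=
      fun v => (INST.slice emb A₀ w s v).1 (hs v)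
    obtain ⟨e, he, -⟩ := hs' ⟨0, by omega⟩
    refine ⟨e.1, e.2, fun t => ?_⟩
    obtain ⟨e', he', h'⟩ := hs' ⟨t.1, by have := t.2; omega⟩
    have : e' = e := emb.injective (he'.trans he.symm)
    rw [this] at h'
    exact h' t.2
  · rintro ⟨j, i, h⟩
    refine ⟨emb (j, i), fun v => ?_⟩
    exact (INST.slice emb A₀ w (emb (j, i)) v).2 ⟨(j, i), rfl, fun h' => h ⟨v, h'⟩⟩

end Pool.Agent.RYD
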