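import Pool.Agent.RYD.St

set_option autoImplicit false

namespace Pool.Agent.RYD

open Finset Filter Pool.Agent.Lib_helper62.PToda Pool.Agent.Lib_helper58.RToda

namespace LCV

/-- The data of all elements together. -/
def eqv (E : Type) (d : ℕ) : (E → El d) ≃ (E → Bool) × (E → Bool) × Pt E d where
  toFun y := (fun e => (y e).1, fun e => (y e).2.1, fun e => (y e).2.2)
  invFun z e := (z.1 e, z.2.1 e, z.2.2 e)
  left_inv y := by
    funext e
    rfl
  right_inv z := by
    rcases z with ⟨a, b, c⟩
    rfl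

end LCV

theorem t_LCV : St_LCV := by
  intro E _ _ d G
  have h1 : av (fun Z : E → Bool => av (fun Z' : E → Bool => av (fun x : Pt E d => G Z Z' x)))
      = av (fun Z : E → Bool => av (fun p : (E → Bool) × Pt E d => G Z p.1 p.2)) := by
    congr 1
    funext Z
    exact (av_prod (fun (Z' : E → Bool) (x : Pt E d) => G Z Z' x)).symm
  have h2 : av (fun Z : E → Bool => av (fun p : (E → Bool) × Pt E d => G Z p.1 p.2))
      = av (fun z : (E → Bool) × (E → Bool) × Pt E d => G z.1 z.2.1 z.2.2) :=
    (av_prod (fun (Z : E → Bool) (p : (E → Bool) × Pt E d) => G Z p.1 p.2)).symm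
  rw [h1, h2]
  exact (av_equiv (LCV.eqv E d) (fun z => G z.1 z.2.1 z.2.2)).symm

end Pool.Agent.RYD
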