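import Pool.Agent.RYD.St

set_option autoImplicit false

/-!
# RYD, module LOC1: the average of one block
-/

namespace Pool.Agent.RYD

open Finset Filter Pool.Agent.Lib_helper62.PToda Pool.Agent.Lib_helper58.RToda

namespace LOC1

theorem av_add' {Y : Type*} [Fintype Y] (f g : Y → ℝ) :
    av (fun y => f y + g y) = av f + av g := by
  unfold av
  rw [Finset.sum_add_distrib, add_div]

end LOC1

theorem t_LOC1 (hLCV : St_LCV) (hELT : St_ELT) (hAVE : St_AVE) (hALE : St_ALE) (hBEE : St_BEE) :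
    St_LOC1 := by
  intro E _ _ d B
  obtain ⟨hA, hB, hPA, hPB⟩ := hAVE d
  rw [hLCV E d (fun Z Z' x => al Z Z' B x + be Z Z' B x)]
  have h1 : av (fun y : E → El d =>
      al (fun e => (y e).1) (fun e => (y e).2.1) B (fun e => (y e).2.2) +
        be (fun e => (y e).1) (fun e => (y e).2.1) B (fun e => (y e).2.2)) ≤
      av (fun y : E → El d => (∑ i ∈ B, psA (y i) * ∏ e ∈ B.erase i, phA (y e)) +
        ∑ i ∈ B, psB (y i) * ∏ e ∈ B.erase i, phB (y e)) := by
    apply av_mono
    intro y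
    exact add_le_add (hALE E d B y) (hBEE E d B y).le
  refine h1.trans (le_of_eq ?_)
  rw [LOC1.av_add', (hELT E (El d) B phA psA).2, (hELT E (El d) B phB psB).2, hA, hB, hPA, hPB]
  rcases Nat.eq_zero_or_pos B.card with h0 | hpos
  · rw [h0]; simp
  · obtain ⟨l, hl⟩ : ∃ l, B.card = l + 1 := ⟨B.card - 1, by omega⟩
    rw [hl, Nat.add_sub_cancel]
    have h2 : qd d / 2 ^ (d + 1) + 1 / 2 ^ (d + 2) = qd (d + 1) / 2 ^ (d + 2) := by
      unfold qd
      field_simp
      ring
    rw [pow_succ (qd (d + 1) / 2 ^ (d + 2)) l, ← h2]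
    ring

end Pool.Agent.RYD
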