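import Pool.Agent.RYD.St

namespace Pool.Agent.RYD

open Finset Filter Pool.Agent.Lib_helper62.PToda Pool.Agent.Lib_helper58.RToda

namespace LOCM

variable {E : Type} {d : ℕ}

lemma one_congr (x x' : Pt E d) (e : E) (h : x e = x' e) : one x e ↔ one x' e := by
  unfold one
  rw [h]

lemma cw_congr (B : Finset E) (x x' : Pt E d) (h : ∀ e ∈ B, x e = x' e) : cw B x = cw B x' := by
  unfold cw
  refine Finset.prod_congr rfl fun e he => ?_
  simp only [one_congr x x' e (h e he)]

lemma no1_congr (B : Finset E) (x x' : Pt E d) (h : ∀ e ∈ B, x e = x' e) :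
    no1 B x = no1 B x' := by
  unfold no1
  refine Finset.prod_congr rfl fun e he => ?_
  simp only [one_congr x x' e (h e he)]

lemma ex1_congr [DecidableEq E] (B : Finset E) (x x' : Pt E d) (h : ∀ e ∈ B, x e = x' e) :
    ex1 B x = ex1 B x' := by
  unfold ex1
  refine Finset.sum_congr rfl fun i hi => ?_
  rw [no1_congr (B.erase i) x x' (fun e he => h e (Finset.mem_of_mem_erase he))]
  simp only [one_congr x x' i (h i hi)]

lemma fU_congr (Z Z' W W' : E → Bool) (B : Finset E) (h : ∀ e ∈ B, Z e = W e)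
    (h' : ∀ e ∈ B, Z' e = W' e) : fU Z Z' B = fU W W' B := by
  unfold fU
  refine Finset.filter_congr fun e he => ?_
  rw [h e he, h' e he]

lemma fI_congr (Z Z' W W' : E → Bool) (B : Finset E) (h : ∀ e ∈ B, Z e = W e)
    (h' : ∀ e ∈ B, Z' e = W' e) : fI Z Z' B = fI W W' B := by
  unfold fI
  refine Finset.filter_congr fun e he => ?_
  rw [h e he, h' e he]

lemma fN_congr (Z Z' W W' : E → Bool) (B : Finset E) (h : ∀ e ∈ B, Z e = W e)
    (h' : ∀ e ∈ B, Z' e = W' e) : fN Z Z' B = fN W W' B := by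
  unfold fN
  refine Finset.filter_congr fun e he => ?_
  rw [h e he, h' e he]

lemma fU_sub (Z Z' : E → Bool) (B : Finset E) : fU Z Z' B ⊆ B := Finset.filter_subset _ _

lemma fI_sub (Z Z' : E → Bool) (B : Finset E) : fI Z Z' B ⊆ B := Finset.filter_subset _ _

lemma fN_sub (Z Z' : E → Bool) (B : Finset E) : fN Z Z' B ⊆ B := Finset.filter_subset _ _

lemma al_congr [DecidableEq E] (Z Z' W W' : E → Bool) (B : Finset E) (x x' : Pt E d)
    (h : ∀ e ∈ B, Z e = W e) (h' : ∀ e ∈ B, Z' e = W' e) (hx : ∀ e ∈ B, x e = x' e) :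
    al Z Z' B x = al W W' B x' := by
  unfold al ga
  rw [fU_congr Z Z' W W' B h h', fU_congr Z' Z W' W B h' h, fN_congr Z Z' W W' B h h',
    fI_congr Z Z' W W' B h h',
    cw_congr (fN W W' B) x x' (fun e he => hx e (fN_sub _ _ _ he)),
    cw_congr (fI W W' B) x x' (fun e he => hx e (fI_sub _ _ _ he)),
    no1_congr (fI W W' B) x x' (fun e he => hx e (fI_sub _ _ _ he))]

lemma be_congr [DecidableEq E] (Z Z' W W' : E → Bool) (B : Finset E) (x x' : Pt E d)
    (h : ∀ e ∈ B, Z e = W e) (h' : ∀ e ∈ B, Z' e = W' e) (hx : ∀ e ∈ B, x e = x' e) :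
    be Z Z' B x = be W W' B x' := by
  unfold be
  rw [fU_congr Z Z' W W' B h h', fU_congr Z' Z W' W B h' h, fI_congr Z Z' W W' B h h',
    cw_congr B x x' hx,
    no1_congr (fU W W' B) x x' (fun e he => hx e (fU_sub _ _ _ he)),
    no1_congr (fU W' W B) x x' (fun e he => hx e (fU_sub _ _ _ he)),
    ex1_congr (fI W W' B) x x' (fun e he => hx e (fI_sub _ _ _ he))]

end LOCM

theorem t_LOCM (hLCV : St_LCV) (hFACT : St_FACT) : St_LOCM := by
  intro E _ _ d J _ _ B hB
  rw [hLCV E d (fun Z Z' x => ∏ j, (al Z Z' (B j) x + be Z Z' (B j) x))]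
  have h1 : ∀ j, av (fun Z : E → Bool => av (fun Z' : E → Bool => av (fun x : Pt E d =>
      al Z Z' (B j) x + be Z Z' (B j) x)))
      = av (fun y : E → El d =>
          al (fun e => (y e).1) (fun e => (y e).2.1) (B j) (fun e => (y e).2.2)
            + be (fun e => (y e).1) (fun e => (y e).2.1) (B j) (fun e => (y e).2.2)) :=
    fun j => hLCV E d (fun Z Z' x => al Z Z' (B j) x + be Z Z' (B j) x)
  simp only [h1]
  have h2 := hFACT E (El d) J B hB (fun _ => 1) (fun _ _ _ => rfl)
    (fun j y => al (fun e => (y e).1) (fun e => (y e).2.1) (B j) (fun e => (y e).2.2)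
            + be (fun e => (y e).1) (fun e => (y e).2.1) (B j) (fun e => (y e).2.2))
    (by
      intro j y y' hy
      show al (fun e => (y e).1) (fun e => (y e).2.1) (B j) (fun e => (y e).2.2)
            + be (fun e => (y e).1) (fun e => (y e).2.1) (B j) (fun e => (y e).2.2)
          = al (fun e => (y' e).1) (fun e => (y' e).2.1) (B j) (fun e => (y' e).2.2)
            + be (fun e => (y' e).1) (fun e => (y' e).2.1) (B j) (fun e => (y' e).2.2)
      have e1 : ∀ e ∈ B j, (y e).1 = (y' e).1 := fun e he => by rw [hy e he]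
      have e2 : ∀ e ∈ B j, (y e).2.1 = (y' e).2.1 := fun e he => by rw [hy e he]
      have e3 : ∀ e ∈ B j, (y e).2.2 = (y' e).2.2 := fun e he => by rw [hy e he]
      rw [LOCM.al_congr (fun e => (y e).1) (fun e => (y e).2.1) (fun e => (y' e).1)
          (fun e => (y' e).2.1) (B j) (fun e => (y e).2.2) (fun e => (y' e).2.2) e1 e2 e3,
        LOCM.be_congr (fun e => (y e).1) (fun e => (y e).2.1) (fun e => (y' e).1)
          (fun e => (y' e).2.1) (B j) (fun e => (y e).2.2) (fun e => (y' e).2.2) e1 e2 e3])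
  simp only [one_mul, av_const] at h2
  exact h2

end Pool.Agent.RYD
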