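import Pool.Agent.RYD.St

/-!
Project RYD, module MIX (helper33): resampling of some coordinates.
-/

namespace Pool.Agent.RYD

open Finset Filter Pool.Agent.Lib_helper62.PToda Pool.Agent.Lib_helper58.RToda

namespace MIX

/-- Exchange of the coordinates in `B`. -/
def sw {E A : Type} [DecidableEq E] (B : Finset E) :
    (E → A) × (E → A) → (E → A) × (E → A) :=
  fun z => (fun e => if e ∈ B then z.2 e else z.1 e, fun e => if e ∈ B then z.1 e else z.2 e)

theorem sw_sw {E A : Type} [DecidableEq E] (B : Finset E) :
    Function.Involutive (sw (A := A) B) := by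
  rintro ⟨R, y⟩
  unfold sw
  refine Prod.ext ?_ ?_
  · funext e
    by_cases h : e ∈ B <;> simp [h]
  · funext e
    by_cases h : e ∈ B <;> simp [h]

end MIX

theorem t_MIX : St_MIX := by
  intro E A _ _ _ B F
  rcases isEmpty_or_nonempty (E → A) with h | h
  · unfold av
    simp
  · have h1 := av_prod (fun (R y : E → A) => F (fun e => if e ∈ B then y e else R e))
    have h2 := av_equiv (Function.Involutive.toPerm _ (MIX.sw_sw (A := A) B))
      (fun z : (E → A) × (E → A) => F z.1)
    have h3 := av_prod (fun (R _ : E → A) => F R)
    have h4 : (fun R : E → A => av (fun _ : E → A => F R)) = F := by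
      funext R
      exact av_const (F R)
    rw [h4] at h3
    rw [← h1, ← h3, ← h2]
    rfl

end Pool.Agent.RYD
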