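import Pool.Agent.RYD.St2

/-!
# Project RYD, MON: more depth (helper50)
-/

namespace Pool.Agent.RYD

open Finset Filter Pool.Agent.Lib_helper62.PToda Pool.Agent.Lib_helper58.RToda

namespace MON

theorem within_mono {β : Type} {N₀ κ₀ d d' : ℕ} (h : d ≤ d') : ∀ (S : Strat β) (D : ℕ),
    S.Within N₀ κ₀ d D → S.Within N₀ κ₀ d' D
  | .answer b, D, _ => by cases D <;> trivial
  | .guess s0 s1, 0, hS => by exact hS.elim
  | .guess s0 s1, D + 1, hS => ⟨within_mono h s0 D hS.1, within_mono h s1 D hS.2⟩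
  | .count N κ T next, 0, hS => by exact hS.elim
  | .count N κ T next, D + 1, hS =>
    ⟨hS.1, hS.2.1, fun y => (hS.2.2.1 y).trans h, fun c => within_mono h (next c) D (hS.2.2.2 c)⟩

end MON

theorem t_MON : St_MON := fun _ S _ _ _ _ D h hS => MON.within_mono h S D hS

end Pool.Agent.RYD
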