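import Pool.Agent.RYD.St

namespace Pool.Agent.RYD

open Finset Filter Pool.Agent.Lib_helper62.PToda Pool.Agent.Lib_helper58.RToda

namespace PAR

lemma T_le (c F G n : ℕ) (hn : 2 ≤ n) (hF : F + 1 ≤ n) :
    (((F * n ^ c + 1) ^ G + 1) ^ (G + 1 + 1)) ^ (F * n ^ c)
      ≤ n ^ ((((c + 1) * G + 1) * (G + 2) * F) * n ^ c) := by
  have h1 : F * n ^ c + 1 ≤ n ^ (c + 1) := by
    have : 1 ≤ n ^ c := Nat.one_le_pow _ _ (by omega)
    calc F * n ^ c + 1 ≤ F * n ^ c + n ^ c := by omega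
      _ = (F + 1) * n ^ c := by ring
      _ ≤ n * n ^ c := Nat.mul_le_mul_right _ hF
      _ = n ^ (c + 1) := by ring
  have h2 : (F * n ^ c + 1) ^ G + 1 ≤ n ^ ((c + 1) * G + 1) := by
    calc (F * n ^ c + 1) ^ G + 1 ≤ (n ^ (c + 1)) ^ G + 1 := by gcongr
      _ = n ^ ((c + 1) * G) + 1 := by rw [← pow_mul]
      _ ≤ n ^ ((c + 1) * G) + n ^ ((c + 1) * G) := by
        have : 1 ≤ n ^ ((c + 1) * G) := Nat.one_le_pow _ _ (by omega)
        omega
      _ = 2 * n ^ ((c + 1) * G) := by ring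
      _ ≤ n * n ^ ((c + 1) * G) := Nat.mul_le_mul_right _ hn
      _ = n ^ ((c + 1) * G + 1) := by ring
  calc (((F * n ^ c + 1) ^ G + 1) ^ (G + 1 + 1)) ^ (F * n ^ c)
      ≤ ((n ^ ((c + 1) * G + 1)) ^ (G + 1 + 1)) ^ (F * n ^ c) := by gcongr
    _ = n ^ ((((c + 1) * G + 1) * (G + 2) * F) * n ^ c) := by
      rw [← pow_mul, ← pow_mul]
      congr 1
      ring

end PAR

theorem t_PAR : St_PAR := by
  intro c k F G hk
  set E : ℕ := ((c + 1) * G + 1) * (G + 2) * F with hE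
  have hev : ∀ᶠ n : ℕ in atTop, G + 2 + (F + 1) + 200 * (E + 1) ^ 2 + 4 ^ (G + 1) + 18 ≤ n :=
    eventually_ge_atTop _
  filter_upwards [hev] with n hn
  have h4 : 0 < 4 ^ (G + 1) := by positivity
  have hn1 : 1 ≤ n := by omega
  refine ⟨by omega, n ^ (2 * c + 1), n ^ (4 * c + 5), E * n ^ c + 1, Nat.one_le_pow _ _ hn1,
    Nat.one_le_pow _ _ hn1, Nat.le_add_left 1 _, ?_, ?_, ?_⟩
  · rw [← pow_add]
    exact Nat.pow_le_pow_right hn1 (by omega)
  · have h1 : 1 ≤ n ^ c := Nat.one_le_pow _ _ hn1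
    have h2 : E * n ^ c + 1 ≤ (E + 1) * n ^ c := by
      calc E * n ^ c + 1 ≤ E * n ^ c + n ^ c := by omega
        _ = (E + 1) * n ^ c := by ring
    have h3 : 200 * (E + 1) ^ 2 ≤ n := by omega
    calc 200 * (E * n ^ c + 1) ^ 2 ≤ 200 * ((E + 1) * n ^ c) ^ 2 := by gcongr
      _ = (200 * (E + 1) ^ 2) * n ^ (2 * c) := by
        rw [mul_pow, ← pow_mul, mul_comm c 2]; ring
      _ ≤ n * n ^ (2 * c) := Nat.mul_le_mul_right _ h3
      _ = n ^ (2 * c + 1) := by ring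
  · have hnR : (1:ℝ) ≤ n := by exact_mod_cast hn1
    have hn0 : (0:ℝ) < n := by linarith
    have hq : qd (G + 1) ≤ 2 ^ (G + 1) := by unfold qd; linarith
    have hq0 : 0 ≤ qd (G + 1) := by
      unfold qd
      have : (1:ℝ) ≤ 2 ^ (G + 1) := one_le_pow₀ (by norm_num)
      linarith
    have h4n : ((4:ℝ) ^ (G + 1)) ≤ n := by
      have : 4 ^ (G + 1) ≤ n := by omega
      exact_mod_cast this
    have hs : (2:ℝ) ^ (G + 1) * n ^ (2 * c + 2) ≤ Real.sqrt ((n ^ (4 * c + 5) : ℕ) : ℝ) := by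
      apply Real.le_sqrt_of_sq_le
      push_cast
      calc ((2:ℝ) ^ (G + 1) * n ^ (2 * c + 2)) ^ 2
          = 4 ^ (G + 1) * (n:ℝ) ^ (4 * c + 4) := by
            rw [mul_pow, ← pow_mul, ← pow_mul, mul_comm (G + 1) 2, pow_mul]
            norm_num
            ring
        _ ≤ n * (n:ℝ) ^ (4 * c + 4) := by gcongr
        _ = (n:ℝ) ^ (4 * c + 5) := by ring
    have hs0 : 0 < Real.sqrt ((n ^ (4 * c + 5) : ℕ) : ℝ) :=
      lt_of_lt_of_le (by positivity) hs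
    have hd : ((n ^ (2 * c + 1) : ℕ) : ℝ) * (qd (G + 1) / Real.sqrt ((n ^ (4 * c + 5) : ℕ) : ℝ))
        ≤ 1 / n := by
      rw [← mul_div_assoc, div_le_div_iff₀ hs0 hn0, one_mul]
      refine le_trans ?_ hs
      push_cast
      calc (n:ℝ) ^ (2 * c + 1) * qd (G + 1) * n ≤ (n:ℝ) ^ (2 * c + 1) * 2 ^ (G + 1) * n := by
            gcongr
        _ = (2:ℝ) ^ (G + 1) * n ^ (2 * c + 2) := by ring
    have hd0 : 0 ≤ ((n ^ (2 * c + 1) : ℕ) : ℝ) *
        (qd (G + 1) / Real.sqrt ((n ^ (4 * c + 5) : ℕ) : ℝ)) := by positivity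
    refine ⟨hd.trans ?_, ?_⟩
    · rw [div_le_one hn0]; exact hnR
    · have hT := PAR.T_le c F G n (by omega) (by omega)
      rw [← hE] at hT
      have hT' : ((((((F * n ^ c + 1) ^ G + 1) ^ (G + 1 + 1)) ^ (F * n ^ c) : ℕ)) : ℝ)
          ≤ (n:ℝ) ^ (E * n ^ c) := by exact_mod_cast hT
      have h18 : (18:ℝ) ≤ n := by
        have : 18 ≤ n := by omega
        exact_mod_cast this
      calc _ ≤ (n:ℝ) ^ (E * n ^ c) * (3 * (1 / (n:ℝ)) ^ (E * n ^ c + 1 + 1)) := by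
            gcongr
        _ = 3 / (n:ℝ) ^ 2 := by
            rw [one_div, inv_pow, show E * n ^ c + 1 + 1 = E * n ^ c + 2 by ring, pow_add]
            have : (n:ℝ) ^ (E * n ^ c) ≠ 0 := by positivity
            field_simp
        _ ≤ 1 / 100 := by
            rw [div_le_div_iff₀ (by positivity) (by norm_num)]
            nlinarith

end Pool.Agent.RYD
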