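import Pool.Agent.RYD.St

/-! Project RYD, module SGS (helper34): the sign with a new coordinate. -/

set_option autoImplicit false

namespace Pool.Agent.RYD

open Finset Filter Pool.Agent.Lib_helper62.PToda Pool.Agent.Lib_helper58.RToda

namespace SGS

variable {E : Type} {d : ℕ}

theorem one_sn (x : Pt E d) (Z : E → Bool) (e : E) :
    one (sn x Z) e ↔ one x e ∧ Z e = true := by
  unfold one
  constructor
  · intro h
    constructor
    · intro t
      have h1 := h t.castSucc
      rw [Fin.succ_castSucc] at h1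
      unfold sn at h1
      rwa [Fin.snoc_castSucc] at h1
    · have h1 := h (Fin.last d)
      rw [Fin.succ_last] at h1
      unfold sn at h1
      rwa [Fin.snoc_last] at h1
  · rintro ⟨h, hZ⟩ t
    refine Fin.lastCases ?_ (fun t => ?_) t
    · rw [Fin.succ_last]
      unfold sn
      rwa [Fin.snoc_last]
    · rw [Fin.succ_castSucc]
      unfold sn
      rw [Fin.snoc_castSucc]
      exact h t

theorem sn_zero (x : Pt E d) (Z : E → Bool) (e : E) : sn x Z e 0 = x e 0 := by
  unfold sn
  rw [← Fin.castSucc_zero, Fin.snoc_castSucc]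

theorem no1_sn (B : Finset E) (x : Pt E d) (Z : E → Bool) :
    no1 B (sn x Z) = no1 (fil Z B) x := by
  unfold no1 fil
  rw [prod_filter]
  refine prod_congr rfl fun e _ => ?_
  have h := one_sn x Z e
  by_cases h1 : one x e <;> by_cases h2 : Z e = true
  · rw [if_pos (h.2 ⟨h1, h2⟩), if_pos h2, if_pos h1]
  · rw [if_neg (fun g => h2 (h.1 g).2), if_neg h2]
  · rw [if_neg (fun g => h1 (h.1 g).1), if_pos h2, if_neg h1]
  · rw [if_neg (fun g => h1 (h.1 g).1), if_neg h2]

end SGS

/-- SGS: the sign with a new coordinate. -/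
theorem t_SGS : St_SGS := by
  intro E _ d B x Z
  unfold sg
  have hf : (fil Z B) = B.filter (fun e => Z e = true) := rfl
  rw [hf, sum_filter]
  refine sum_congr rfl fun i _ => ?_
  have h := SGS.one_sn x Z i
  have he : fil Z (B.erase i) = (B.filter (fun e => Z e = true)).erase i := by
    unfold fil
    ext e
    simp only [mem_filter, mem_erase]
    tauto
  rw [SGS.no1_sn, he, SGS.sn_zero]
  by_cases h1 : one x i <;> by_cases h2 : Z i = true
  · rw [if_pos (h.2 ⟨h1, h2⟩), if_pos h2, if_pos h1]
  · rw [if_neg (fun g => h2 (h.1 g).2), if_neg h2, zero_mul]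
  · rw [if_neg (fun g => h1 (h.1 g).1), if_pos h2, if_neg h1]
  · rw [if_neg (fun g => h1 (h.1 g).1), if_neg h2, zero_mul]

end Pool.Agent.RYD
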