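import Pool.Agent.RYD.St

namespace Pool.Agent.RYD

open Finset Filter Pool.Agent.Lib_helper62.PToda Pool.Agent.Lib_helper58.RToda

theorem t_SMALL (hC : St_COV) (hR : St_COR) : St_SMALL := by
  intro β m l d hl hd inst owner hown N₀ κ₀ B hB1 hB S hdet D hS U
  obtain ⟨ι, _, φ, hc, hi, ha⟩ := hC β (Fin m × Fin l) d inst owner hown N₀ κ₀ B hB1 hB S hdet D hS
  have e : (fun w : Sm m l d => ind (S.Accepts (inst w.1)) * ∏ j ∈ U, ch w j)
      = (fun w : Sm m l d =>
        ∑ i, (∏ t, (if φ i t w.1 = true then (1:ℝ) else 0)) * ∏ j ∈ U, ch w j) := by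
    funext w
    rw [ha, Finset.sum_mul]
  rw [e, av_sum]
  refine (Finset.abs_sum_le_sum_abs _ _).trans ?_
  have hcor : ∀ i, |av (fun w : Sm m l d =>
      (∏ t, (if φ i t w.1 = true then (1:ℝ) else 0)) * ∏ j ∈ U, ch w j)|
      ≤ (qd d / Real.sqrt l) ^ U.card := by
    intro i
    refine hR m l d hl hd U (fun t x => if φ i t x = true then (1:ℝ) else 0) ?_ ?_
    · intro t x
      split_ifs <;> simp
    · intro t x x' h
      simp only [hi i t x x' h]
  refine (Finset.sum_le_sum fun i _ => hcor i).trans ?_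
  rw [Finset.sum_const, Finset.card_univ, nsmul_eq_mul]
  apply mul_le_mul_of_nonneg_right
  · exact_mod_cast hc
  · apply pow_nonneg
    apply div_nonneg _ (Real.sqrt_nonneg _)
    unfold qd
    have : (1:ℝ) ≤ 2 ^ d := one_le_pow₀ (by norm_num)
    linarith

end Pool.Agent.RYD
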