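import Pool.Agent.RYD.St

/-!
# The new coordinate (module RYD_SNAV, helper73)
-/

set_option autoImplicit false

namespace Pool.Agent.RYD

open Finset Filter Pool.Agent.Lib_helper62.PToda Pool.Agent.Lib_helper58.RToda

namespace SNAV

/-- The points with one more coordinate. -/
def eqv (E : Type) (d : ℕ) : Pt E d × (E → Bool) ≃ Pt E (d+1) where
  toFun p := sn p.1 p.2
  invFun y := (fun e t => y e t.castSucc, fun e => y e (Fin.last _))
  left_inv := by
    rintro ⟨x, Z⟩
    refine Prod.ext ?_ ?_
    · funext e t
      show Fin.snoc (α := fun _ => Bool) (x e) (Z e) t.castSucc = x e t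
      exact Fin.snoc_castSucc (α := fun _ => Bool) (Z e) (x e) t
    · funext e
      show Fin.snoc (α := fun _ => Bool) (x e) (Z e) (Fin.last _) = Z e
      exact Fin.snoc_last (α := fun _ => Bool) (Z e) (x e)
  right_inv := by
    intro y
    funext e t
    show Fin.snoc (α := fun _ => Bool) (fun t : Fin (d+1) => y e t.castSucc) (y e (Fin.last _)) t
      = y e t
    refine Fin.lastCases ?_ (fun i => ?_) t
    · exact Fin.snoc_last (α := fun _ => Bool) _ _
    · exact Fin.snoc_castSucc (α := fun _ => Bool) _ _ i

end SNAV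

theorem t_SNAV : St_SNAV := by
  intro E _ _ d F
  rw [← av_equiv (SNAV.eqv E d) F]
  exact av_prod (fun (x : Pt E d) (Z : E → Bool) => F (sn x Z))

end Pool.Agent.RYD
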