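import Pool.Agent.RYD.St

namespace Pool.Agent.RYD

open Finset Filter Pool.Agent.Lib_helper62.PToda Pool.Agent.Lib_helper58.RToda

namespace STEP

variable {E : Type} {d : ℕ}

lemma qd_nonneg (d : ℕ) : 0 ≤ qd d := by
  unfold qd
  have : (1:ℝ) ≤ 2 ^ d := one_le_pow₀ (by norm_num)
  linarith

lemma bd_nonneg (d l : ℕ) : 0 ≤ bd d l := by
  unfold bd
  exact mul_nonneg (Real.sqrt_nonneg _) (pow_nonneg (div_nonneg (qd_nonneg d) (by positivity)) _)

lemma cw_inv_nonneg (B : Finset E) (x : Pt E d) : 0 ≤ (cw B x)⁻¹ := by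
  unfold cw
  refine inv_nonneg.2 (Finset.prod_nonneg fun e _ => ?_)
  split_ifs <;> norm_num

lemma no1_nonneg (B : Finset E) (x : Pt E d) : 0 ≤ no1 B x := by
  unfold no1
  refine Finset.prod_nonneg fun e _ => ?_
  split_ifs <;> norm_num

lemma ex1_nonneg [DecidableEq E] (B : Finset E) (x : Pt E d) : 0 ≤ ex1 B x := by
  unfold ex1
  refine Finset.sum_nonneg fun i _ => mul_nonneg ?_ (no1_nonneg _ _)
  split_ifs <;> norm_num

lemma al_nonneg [DecidableEq E] (Z Z' : E → Bool) (B : Finset E) (x : Pt E d) :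
    0 ≤ al Z Z' B x := by
  unfold al ga
  refine mul_nonneg (mul_nonneg (mul_nonneg (cw_inv_nonneg _ _)
    (mul_nonneg (cw_inv_nonneg _ _) (no1_nonneg _ _))) (by positivity))
    (mul_nonneg (bd_nonneg _ _) (bd_nonneg _ _))

lemma be_nonneg [DecidableEq E] (Z Z' : E → Bool) (B : Finset E) (x : Pt E d) :
    0 ≤ be Z Z' B x := by
  unfold be
  exact mul_nonneg (cw_inv_nonneg _ _) (mul_nonneg (mul_nonneg (no1_nonneg _ _) (no1_nonneg _ _))
    (ex1_nonneg _ _))

lemma AgO_sn (t : Fin (d+1)) (x x' : Pt E d) (Z : E → Bool) (h : AgO t x x') :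
    AgO t.castSucc (sn x Z) (sn x' Z) := by
  intro e t' ht'
  unfold sn
  induction t' using Fin.lastCases with
  | last => simp
  | cast s =>
    simp only [Fin.snoc_castSucc]
    exact h e s (fun hs => ht' (by rw [hs]))

lemma bd_sq (d l : ℕ) : (qd (d+1) / 2 ^ d) ^ l * (l * (qd (d+1) / 2 ^ (d+2)) ^ l)
    = bd (d+1) l ^ 2 := by
  unfold bd
  rw [mul_pow, Real.sq_sqrt (Nat.cast_nonneg l), mul_left_comm, ← mul_pow, ← pow_mul, mul_comm l 2,
    pow_mul]
  congr 2
  rw [div_pow, div_mul_div_comm]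
  congr 1
  · ring
  · rw [← pow_mul, ← pow_add]
    congr 1
    ring

end STEP

theorem t_STEP (hCLG : St_CLG) (hCS : St_CS) (hEXP : St_EXP) (hLOC1 : St_LOC1)
    (hLOCM : St_LOCM) : St_STEP := by
  intro E _ _ d hCl J _ _ B hB f hf1 hf2
  have hG : ClaimG E d := hCLG E d hCl
  have h1 := hCS E d J B hB f hf1 hf2
  have hin : ∀ Z Z' : E → Bool, inner B Z Z' (dF f Z Z')
      ≤ av (fun x : Pt E d => ∏ j, (al Z Z' (B j) x + be Z Z' (B j) x)) := by
    intro Z Z'
    refine hEXP E d hG J B hB Z Z' (dF f Z Z') ?_ ?_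
    · intro t x
      unfold dF
      rw [abs_mul]
      exact mul_le_one₀ (hf1 _ _) (abs_nonneg _) (hf1 _ _)
    · intro t x x' hx
      unfold dF
      rw [hf2 t.castSucc _ _ (STEP.AgO_sn t x x' Z hx), hf2 t.castSucc _ _ (STEP.AgO_sn t x x' Z' hx)]
  have h2 : av (fun Z : E → Bool => av (fun Z' : E → Bool => inner B Z Z' (dF f Z Z')))
      ≤ ∏ j, ((B j).card * (qd (d+1) / 2 ^ (d+2)) ^ (B j).card) := by
    calc av (fun Z : E → Bool => av (fun Z' : E → Bool => inner B Z Z' (dF f Z Z')))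
        ≤ av (fun Z : E → Bool => av (fun Z' : E → Bool => av (fun x : Pt E d =>
            ∏ j, (al Z Z' (B j) x + be Z Z' (B j) x)))) :=
          av_mono fun Z => av_mono fun Z' => hin Z Z'
      _ = ∏ j, av (fun Z : E → Bool => av (fun Z' : E → Bool => av (fun x : Pt E d =>
            al Z Z' (B j) x + be Z Z' (B j) x))) := hLOCM E d J B hB
      _ ≤ ∏ j, ((B j).card * (qd (d+1) / 2 ^ (d+2)) ^ (B j).card) := by
          refine Finset.prod_le_prod (fun j _ => ?_) (fun j _ => hLOC1 E d (B j))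
          exact av_nonneg fun Z => av_nonneg fun Z' => av_nonneg fun x =>
            add_nonneg (STEP.al_nonneg _ _ _ _) (STEP.be_nonneg _ _ _ _)
  have h3 : (av (fun x => (∏ j, sg (B j) x) * ∏ t, f t x)) ^ 2
      ≤ (∏ j, bd (d+1) (B j).card) ^ 2 := by
    refine h1.trans ?_
    refine (mul_le_mul_of_nonneg_left h2 (Finset.prod_nonneg fun j _ =>
      pow_nonneg (div_nonneg (STEP.qd_nonneg _) (by positivity)) _)).trans (le_of_eq ?_)
    rw [← Finset.prod_mul_distrib, ← Finset.prod_pow]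
    exact Finset.prod_congr rfl fun j _ => STEP.bd_sq d (B j).card
  exact abs_le_of_sq_le_sq h3 (Finset.prod_nonneg fun j _ => STEP.bd_nonneg _ _)

end Pool.Agent.RYD
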