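import Pool.Agent.RYD.St

set_option autoImplicit false

/-!
# Project RYD: module UNC (signs are uncorrelated)
-/

namespace Pool.Agent.RYD

open Finset Filter Pool.Agent.Lib_helper62.PToda Pool.Agent.Lib_helper58.RToda

namespace UNC

variable {m l d : ℕ}

/-- Flip coordinate `0` of the elements of block `j0`. -/
def fl (j0 : Fin m) (x : Pt (Fin m × Fin l) d) : Pt (Fin m × Fin l) d :=
  fun e t => if e.1 = j0 ∧ t = 0 then !(x e t) else x e t

theorem fl_fl (j0 : Fin m) (x : Pt (Fin m × Fin l) d) : fl j0 (fl j0 x) = x := by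
  funext e t
  unfold fl
  by_cases h : e.1 = j0 ∧ t = 0
  · simp [h]
  · simp [h]

theorem one_fl (j0 : Fin m) (x : Pt (Fin m × Fin l) d) (e : Fin m × Fin l) :
    one (fl j0 x) e ↔ one x e := by
  unfold one
  refine forall_congr' fun t => ?_
  have h : fl j0 x e t.succ = x e t.succ := by
    unfold fl
    rw [if_neg]
    rintro ⟨_, h⟩
    exact Fin.succ_ne_zero t h
  rw [h]

theorem ite_fl (j0 : Fin m) (x : Pt (Fin m × Fin l) d) (e : Fin m × Fin l) (a b : ℝ) :
    (if one (fl j0 x) e then a else b) = if one x e then a else b := by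
  by_cases h : one x e
  · rw [if_pos h, if_pos ((one_fl j0 x e).2 h)]
  · rw [if_neg h, if_neg (fun h' => h ((one_fl j0 x e).1 h'))]

theorem no1_fl (j0 : Fin m) (x : Pt (Fin m × Fin l) d) (B : Finset (Fin m × Fin l)) :
    no1 B (fl j0 x) = no1 B x := by
  unfold no1
  exact Finset.prod_congr rfl fun e _ => ite_fl j0 x e 0 1

theorem ex1_fl (j0 : Fin m) (x : Pt (Fin m × Fin l) d) (B : Finset (Fin m × Fin l)) :
    ex1 B (fl j0 x) = ex1 B x := by
  unfold ex1
  refine Finset.sum_congr rfl fun e _ => ?_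
  rw [ite_fl, no1_fl]

theorem sg_fl (j0 j : Fin m) (x : Pt (Fin m × Fin l) d) :
    sg (blk m l j) (fl j0 x) = (if j = j0 then -1 else 1) * sg (blk m l j) x := by
  unfold sg
  rw [Finset.mul_sum]
  refine Finset.sum_congr rfl fun e he => ?_
  have he1 : e.1 = j := (Finset.mem_filter.1 he).2
  rw [ite_fl, no1_fl, ← mul_assoc]
  congr 1
  by_cases ho : one x e
  · rw [if_pos ho, if_pos ho]
    by_cases hj : j = j0
    · have h1 : fl j0 x e 0 = !(x e 0) := by
        unfold fl
        rw [if_pos ⟨he1.trans hj, rfl⟩]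
      rw [h1, if_pos hj]
      cases x e 0 <;> simp [sgn]
    · have h1 : fl j0 x e 0 = x e 0 := by
        unfold fl
        rw [if_neg]
        rintro ⟨h, _⟩
        exact hj (he1.symm.trans h)
      rw [h1, if_neg hj, one_mul]
  · rw [if_neg ho, if_neg ho, mul_zero]

/-- The involution of the sample space. -/
def eq (j0 : Fin m) : Sm m l d ≃ Sm m l d where
  toFun w := ⟨fl j0 w.1, fun j => (ex1_fl j0 w.1 _).trans (w.2 j)⟩
  invFun w := ⟨fl j0 w.1, fun j => (ex1_fl j0 w.1 _).trans (w.2 j)⟩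
  left_inv w := Subtype.ext (fl_fl j0 w.1)
  right_inv w := Subtype.ext (fl_fl j0 w.1)

end UNC

theorem t_UNC : St_UNC := by
  intro m l d S hS
  obtain ⟨j0, hj0⟩ := hS
  have h1 := av_equiv (UNC.eq (l := l) (d := d) j0) (fun w : Sm m l d => ∏ j ∈ S, ch w j)
  have h2 : (fun w : Sm m l d => ∏ j ∈ S, ch (UNC.eq j0 w) j) =
      fun w : Sm m l d => (-1) * ∏ j ∈ S, ch w j := by
    funext w
    have h3 : ∀ j, ch (UNC.eq j0 w) j = (if j = j0 then -1 else 1) * ch w j :=
      fun j => UNC.sg_fl j0 j w.1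
    rw [Finset.prod_congr rfl fun j _ => h3 j, Finset.prod_mul_distrib, Finset.prod_ite_eq',
      if_pos hj0]
  rw [h2, av_mul_left] at h1
  linarith

end Pool.Agent.RYD
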