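import Pool.Agent.RYD.NEM
import Pool.Agent.RYD.MIX
import Pool.Agent.RYD.FACT
import Pool.Agent.RYD.ELT
import Pool.Agent.RYD.SNAV
import Pool.Agent.RYD.SGS
import Pool.Agent.RYD.DBL
import Pool.Agent.RYD.CWS
import Pool.Agent.RYD.CWA
import Pool.Agent.RYD.CLG
import Pool.Agent.RYD.BASE
import Pool.Agent.RYD.CS
import Pool.Agent.RYD.EXPA
import Pool.Agent.RYD.EXPB
import Pool.Agent.RYD.EXP
import Pool.Agent.RYD.LCV
import Pool.Agent.RYD.AVE
import Pool.Agent.RYD.ALE
import Pool.Agent.RYD.BEE
import Pool.Agent.RYD.LOC1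
import Pool.Agent.RYD.LOCM
import Pool.Agent.RYD.STEP
import Pool.Agent.RYD.CHI
import Pool.Agent.RYD.UNC
import Pool.Agent.RYD.COR
import Pool.Agent.RYD.COV
import Pool.Agent.RYD.SMALL
import Pool.Agent.RYD.INST
import Pool.Agent.RYD.PAR
import Pool.Agent.RYD.ONE
import Pool.Agent.RYD.SEP

namespace Pool.Agent.RYD

open Pool.Agent.Lib_helper62.PToda Pool.Agent.Lib_helper58.RToda

theorem fact : St_FACT := t_FACT t_MIX
theorem elt : St_ELT := t_ELT fact
theorem loc1 : St_LOC1 := t_LOC1 t_LCV elt t_AVE t_ALE t_BEE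
theorem locm : St_LOCM := t_LOCM t_LCV fact
theorem expan : St_EXP := t_EXP (t_EXPA t_DBL t_CWS) t_EXPB
theorem cs : St_CS := t_CS t_SNAV t_SGS (t_CWA fact elt)
theorem clg : St_CLG := t_CLG t_MIX
theorem step : St_STEP := t_STEP clg cs expan loc1 locm

theorem claim_all (E : Type) [Fintype E] [DecidableEq E] (d : ℕ) : Claim E d := by
  induction d with
  | zero => exact t_BASE E
  | succ d ih => exact step E d ih

theorem claimG_all (E : Type) [Fintype E] [DecidableEq E] (d : ℕ) : ClaimG E d :=
  clg E d (claim_all E d)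

theorem cor : St_COR := t_COR (fun E _ _ d => claimG_all E d) fact elt
theorem small : St_SMALL := t_SMALL t_COV cor
theorem oneInst : St_ONE := t_ONE t_NEM t_CHI t_UNC small t_INST

/-- The W[2] type property is decided by no randomised fpt algorithm with exact counting queries,
relative to a suitable oracle. -/
theorem separation2 : St_SEP := t_SEP oneInst t_PAR

end Pool.Agent.RYD
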