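import Pool.Agent.RYD.Main
import Pool.Agent.RYD.SEP4

namespace Pool.Agent.RYD

/-- The W[2] type property is decided by no randomised fpt algorithm with exact counting queries,
relative to a suitable oracle, for every parameter above four times the exponent. -/
theorem separation4 : St_SEP4 := t_SEP4 (t_ONE4 t_NEM t_CHI t_UNC small t_INST) t_PAR4

end Pool.Agent.RYD
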