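import Pool.Agent.RYD.St

namespace Pool.Agent.RYD

open Finset

theorem t_NEM : St_NEM := by
  intro m l d hl hd
  refine ⟨⟨fun e _ => decide ((e.2 : ℕ) = 0), ?_⟩⟩
  intro j
  have hone : ∀ e : Fin m × Fin l,
      one (fun (e : Fin m × Fin l) (_ : Fin (d+1)) => decide ((e.2 : ℕ) = 0)) e ↔ (e.2 : ℕ) = 0 := by
    intro e
    unfold one
    constructor
    · intro h
      have := h ⟨0, by omega⟩
      simpa using this
    · intro h t
      simpa using h
  let i0 : Fin m × Fin l := (j, ⟨0, by omega⟩)
  have hi0 : i0 ∈ blk m l j := by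
    unfold blk
    simp [i0]
  unfold ex1
  rw [Finset.sum_eq_single i0]
  · rw [if_pos ((hone i0).2 rfl), one_mul]
    unfold no1
    refine Finset.prod_eq_one fun e he => ?_
    rw [Finset.mem_erase] at he
    rw [if_neg]
    intro h
    have h2 := (hone e).1 h
    apply he.1
    have h3 := he.2
    unfold blk at h3
    rw [Finset.mem_filter] at h3
    refine Prod.ext h3.2 (Fin.ext ?_)
    simpa [i0] using h2
  · intro e he hne
    rw [if_neg, zero_mul]
    intro h
    have h2 := (hone e).1 h
    apply hne
    unfold blk at he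
    rw [Finset.mem_filter] at he
    refine Prod.ext he.2 (Fin.ext ?_)
    simpa [i0] using h2
  · intro h
    exact absurd hi0 h

end Pool.Agent.RYD
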