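import Pool.Agent.RYD.St2

/-!
Project RYD (MP_95e38d_lc), second part: one instance against Merlin-Arthur algorithms
(module ONEM).
-/

namespace Pool.Agent.RYD

open Finset Filter Pool.Agent.Lib_helper62.PToda Pool.Agent.Lib_helper58.RToda

namespace ONEM

lemma dens_one_eq_zero {W M : Type} [Fintype M] (χ : W → M → ℝ) (w : W) (j : M)
    (h : χ w j = -1) : dens χ 1 w = 0 := by
  unfold Pool.Agent.Lib_helper58.RToda.dens
  exact Finset.prod_eq_zero (Finset.mem_univ j) (by rw [h]; norm_num)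

lemma prob_nonneg {β : Type} (S : RandAlg β) (x : β → Bool) : 0 ≤ S.prob x := by
  rw [RandAlg.prob_eq]
  exact av_nonneg fun ω => ind_nonneg _

lemma prob_le_one {β : Type} (S : RandAlg β) (x : β → Bool) : S.prob x ≤ 1 := by
  rw [RandAlg.prob_eq]
  exact (av_mono fun ω => ind_le_one _).trans (le_of_eq (av_const 1))

end ONEM

open ONEM in
/-- ONEM: one instance. -/
theorem t_ONEM (hNEM : St_NEM) (hCHI : St_CHI) (hUNC : St_UNC) (hPOW : St_POW)
    (hINST : St_INST) (hANM : St_ANM) (hMON : St_MON) : St_ONEM := by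
  intro k n G m l K N₀ κ₀ D g hn hm1 hl hK hm hδ hsm herr A₀ S hwits hdet hS
  by_contra hcon
  have hdec : ∀ A : Bits → Bool, (∀ b : Bits, ¬ (b.1 = k ∧ b.2.1 = n) → A b = A₀ b) →
      SolvesCo S A k n := fun A hA => by_contra fun h => hcon ⟨A, hA, h⟩
  have hne : Nonempty (Sm m l (G+1)) := hNEM m l (G+1) hl (by omega)
  have hcard : Fintype.card (Fin m × Fin l) ≤ Fintype.card (Fin k → Fin n) := by
    simp only [Fintype.card_prod, Fintype.card_fin, Fintype.card_fun]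
    exact hm
  obtain ⟨emb⟩ := Function.Embedding.nonempty_of_card_le hcard
  obtain ⟨h1, h2, h3⟩ := hINST m l (G+1) k n (by omega) emb A₀
  have hB1 : 1 ≤ ((N₀ + 1) ^ κ₀ + 1) ^ (G + 1 + 1) := Nat.one_le_pow _ _ (by omega)
  have hyes : ∀ w : Sm m l (G+1), Yes (mkI emb A₀ w.1) k n ↔ ∃ j, ch w j = -1 := by
    intro w
    rw [h3 w.1]
    constructor
    · rintro ⟨j, i, h⟩
      exact ⟨j, ((hCHI m l (G+1) w j).2).2 ⟨i, h⟩⟩
    · rintro ⟨j, h⟩
      obtain ⟨i, hi⟩ := ((hCHI m l (G+1) w j).2).1 h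
      exact ⟨j, i, hi⟩
  have hq : 0 ≤ qd (G+1) := by
    unfold qd
    have : (1:ℝ) ≤ 2 ^ (G+1) := one_le_pow₀ (by norm_num)
    linarith
  have hχ : ∀ (w : Sm m l (G+1)) (j : Fin m), ch w j = 1 ∨ ch w j = -1 :=
    fun w j => (hCHI m l (G+1) w j).1
  -- the bound for every witness
  have hy : ∀ y : Fin (S.wits + 1),
      av (fun w : Sm m l (G+1) => ((S.run y).prob (mkI emb A₀ w.1)) ^ (g + 5) *
        dens (fun w j => ch w j) 1 w) ≤ 12 * (1 / 3) ^ (g + 5) := by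
    intro y
    have key := hANM (Sm m l (G+1)) (Fin m) (fun w j => ch w j) hχ
      (fun U hU => hUNC m l (G+1) U hU)
      (fun w => ((S.run y).prob (mkI emb A₀ w.1)) ^ (g + 5))
      (fun w => pow_nonneg (prob_nonneg _ _) _)
      (fun w => pow_le_one₀ (prob_nonneg _ _) (prob_le_one _ _))
      (((((((N₀ + 1) ^ κ₀ + 1) ^ (G + 1 + 1)) ^ D : ℕ) : ℝ)) ^ (g + 5))
      (qd (G+1) / Real.sqrt l) ((1 / 3) ^ (g + 5)) (by positivity) (by positivity)
      (by positivity) ?_ ?_ m K (by simp) hm1 hK hδ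
    · refine key.trans ?_
      have h12 : (12 : ℝ) * (1 / 3) ^ (g + 5)
          = 4 * ((1 / 3) ^ (g + 5) + (1 / 3) ^ (g + 5) + (1 / 3) ^ (g + 5)) := by ring
      rw [h12]
      linarith
    · intro U
      have := hPOW Bits m l (G+1) hl (by omega) (mkI emb A₀) (mkO k n (G+1)) h1 N₀ κ₀
        (((N₀ + 1) ^ κ₀ + 1) ^ (G + 1 + 1)) hB1 le_rfl (S.run y) (hdet y) D
        (fun ω => hMON Bits _ N₀ κ₀ G (G+1) D (Nat.le_succ G) (hS y ω)) (g + 5) U
      push_cast at this ⊢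
      exact this
    · intro w hw
      have hle := (hdec (mkI emb A₀ w.1) (h2 w.1)).2 ((hyes w).2 hw) y
      exact pow_le_pow_left₀ (prob_nonneg _ _) hle _
  -- the pointwise inequality
  have hpt : ∀ w : Sm m l (G+1), (2 / 3 : ℝ) ^ (g + 5) * dens (fun w j => ch w j) 1 w
      ≤ ∑ y : Fin (S.wits + 1), ((S.run y).prob (mkI emb A₀ w.1)) ^ (g + 5) *
        dens (fun w j => ch w j) 1 w := by
    intro w
    by_cases hw : ∃ j, ch w j = -1
    · obtain ⟨j, hj⟩ := hw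
      rw [dens_one_eq_zero (fun w j => ch w j) w j hj]
      simp
    · have hno : ¬ Yes (mkI emb A₀ w.1) k n := fun h => hw ((hyes w).1 h)
      obtain ⟨y, hy23⟩ := (hdec (mkI emb A₀ w.1) (h2 w.1)).1 hno
      have hd : 0 ≤ dens (fun w j => ch w j) 1 w :=
        dens_nonneg (fun (w : Sm m l (G+1)) j => ch w j) hχ 1 (by norm_num) le_rfl w
      rw [← Finset.sum_mul]
      apply mul_le_mul_of_nonneg_right _ hd
      calc (2 / 3 : ℝ) ^ (g + 5) ≤ ((S.run y).prob (mkI emb A₀ w.1)) ^ (g + 5) :=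
            pow_le_pow_left₀ (by norm_num) hy23 _
        _ ≤ _ := Finset.single_le_sum
            (f := fun y : Fin (S.wits + 1) => ((S.run y).prob (mkI emb A₀ w.1)) ^ (g + 5))
            (fun y _ => pow_nonneg (prob_nonneg _ _) _) (Finset.mem_univ y)
  have hav := av_mono hpt
  rw [av_mul_left, av_dens (fun (w : Sm m l (G+1)) j => ch w j)
    (fun U hU => hUNC m l (G+1) U hU) 1, mul_one, av_sum] at hav
  have hsum : ∑ y : Fin (S.wits + 1), av (fun w : Sm m l (G+1) =>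
      ((S.run y).prob (mkI emb A₀ w.1)) ^ (g + 5) * dens (fun w j => ch w j) 1 w)
      ≤ ((S.wits : ℝ) + 1) * (12 * (1 / 3) ^ (g + 5)) := by
    refine (Finset.sum_le_sum fun y _ => hy y).trans (le_of_eq ?_)
    rw [Finset.sum_const, Finset.card_univ, Fintype.card_fin, nsmul_eq_mul]
    push_cast
    ring
  have hw2 : ((S.wits : ℝ) + 1) ≤ 2 ^ g := by exact_mod_cast hwits
  have hpos : (0:ℝ) < (1 / 3) ^ (g + 5) := by positivity
  have h23 : (2 / 3 : ℝ) ^ (g + 5) = 32 * 2 ^ g * (1 / 3) ^ (g + 5) := by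
    rw [show (2 / 3 : ℝ) = 2 * (1 / 3) by norm_num, mul_pow, pow_add 2 g 5]
    ring
  have h2g : (0:ℝ) < 2 ^ g := by positivity
  have hfin : (2 / 3 : ℝ) ^ (g + 5) ≤ 2 ^ g * (12 * (1 / 3) ^ (g + 5)) :=
    (hav.trans hsum).trans (mul_le_mul_of_nonneg_right hw2 (by positivity))
  rw [h23] at hfin
  nlinarith [mul_pos h2g hpos]

end Pool.Agent.RYD
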