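import Pool.Agent.RYD.St2

/-!
Module PARM of project RYD: parameters.
-/

set_option autoImplicit false

namespace Pool.Agent.RYD

open Finset Filter Pool.Agent.Lib_helper62.PToda Pool.Agent.Lib_helper58.RToda

namespace PARM

lemma T_le (c F G n : ℕ) (hn : 2 ≤ n) (hF : F + 1 ≤ n) :
    (((F * n ^ c + 1) ^ G + 1) ^ (G + 1 + 1)) ^ (F * n ^ c)
      ≤ n ^ ((((c + 1) * G + 1) * (G + 2) * F) * n ^ c) := by
  have h1 : F * n ^ c + 1 ≤ n ^ (c + 1) := by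
    have : 1 ≤ n ^ c := Nat.one_le_pow _ _ (by omega)
    calc F * n ^ c + 1 ≤ F * n ^ c + n ^ c := by omega
      _ = (F + 1) * n ^ c := by ring
      _ ≤ n * n ^ c := Nat.mul_le_mul_right _ hF
      _ = n ^ (c + 1) := by ring
  have h2 : (F * n ^ c + 1) ^ G + 1 ≤ n ^ ((c + 1) * G + 1) := by
    calc (F * n ^ c + 1) ^ G + 1 ≤ (n ^ (c + 1)) ^ G + 1 := by gcongr
      _ = n ^ ((c + 1) * G) + 1 := by rw [← pow_mul]
      _ ≤ n ^ ((c + 1) * G) + n ^ ((c + 1) * G) := by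
        have : 1 ≤ n ^ ((c + 1) * G) := Nat.one_le_pow _ _ (by omega)
        omega
      _ = 2 * n ^ ((c + 1) * G) := by ring
      _ ≤ n * n ^ ((c + 1) * G) := Nat.mul_le_mul_right _ hn
      _ = n ^ ((c + 1) * G + 1) := by ring
  calc (((F * n ^ c + 1) ^ G + 1) ^ (G + 1 + 1)) ^ (F * n ^ c)
      ≤ ((n ^ ((c + 1) * G + 1)) ^ (G + 1 + 1)) ^ (F * n ^ c) := by gcongr
    _ = n ^ ((((c + 1) * G + 1) * (G + 2) * F) * n ^ c) := by
      rw [← pow_mul, ← pow_mul]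
      congr 1
      ring

lemma base (x : ℝ) (hx1 : x ≤ 1) (m N : ℕ) (h : 2 * (N : ℝ) ≤ m * x) :
    (1 - x) ^ m ≤ (1 / 3) ^ N := by
  have h1 : (1 - x) ^ m ≤ Real.exp (-x) ^ m := by
    apply pow_le_pow_left₀ (by linarith)
    have := Real.add_one_le_exp (-x)
    linarith
  have h2 : Real.exp (-x) ^ m = Real.exp (-(m * x)) := by
    rw [← Real.exp_nat_mul]
    congr 1
    ring
  have h3 : Real.exp (-(m * x)) ≤ Real.exp (-(2 * (N : ℝ))) := Real.exp_le_exp.2 (by linarith)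
  have h4 : Real.exp (-(2 * (N : ℝ))) = Real.exp (-2) ^ N := by
    rw [← Real.exp_nat_mul]
    congr 1
    ring
  have h5 : Real.exp (-2) ≤ 1 / 3 := by
    rw [Real.exp_neg, ← one_div]
    apply one_div_le_one_div_of_le (by norm_num)
    have := Real.add_one_le_exp (2 : ℝ)
    linarith
  calc (1 - x) ^ m ≤ Real.exp (-x) ^ m := h1
    _ = Real.exp (-(m * x)) := h2
    _ ≤ Real.exp (-(2 * (N : ℝ))) := h3
    _ = Real.exp (-2) ^ N := h4
    _ ≤ (1 / 3) ^ N := pow_le_pow_left₀ (Real.exp_pos _).le h5 N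

lemma last (n : ℕ) (hn : 3 ≤ n) (A y : ℝ) (hy0 : 0 ≤ y) (M N : ℕ) (hNM : N ≤ M)
    (hA : A ≤ (n : ℝ) ^ M) (hy : y ≤ 1 / n) :
    A * (3 * y ^ (3 * M + 1)) ≤ (1 / 3) ^ N := by
  have hn3 : (3 : ℝ) ≤ n := by exact_mod_cast hn
  have hn0 : (0 : ℝ) < n := by linarith
  have h1 : y ^ (3 * M + 1) ≤ (1 / (n : ℝ)) ^ (3 * M + 1) := pow_le_pow_left₀ hy0 hy _
  have h2 : (1 / (n : ℝ)) ^ M ≤ (1 / 3) ^ N := by
    calc (1 / (n : ℝ)) ^ M ≤ (1 / 3) ^ M := by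
          apply pow_le_pow_left₀ (by positivity)
          exact one_div_le_one_div_of_le (by norm_num) hn3
      _ ≤ (1 / 3) ^ N := pow_le_pow_of_le_one (by norm_num) (by norm_num) hNM
  have hpM : (0 : ℝ) < (n : ℝ) ^ M := by positivity
  have hpM1 : (1 : ℝ) ≤ (n : ℝ) ^ M := one_le_pow₀ (by linarith)
  calc A * (3 * y ^ (3 * M + 1)) ≤ (n : ℝ) ^ M * (3 * (1 / (n : ℝ)) ^ (3 * M + 1)) := by
        apply mul_le_mul hA _ (by positivity) hpM.le
        linarith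
    _ = (3 / n) * (1 / (n : ℝ)) ^ M * (1 / (n : ℝ)) ^ M := by
        have e : (1 / (n : ℝ)) ^ (3 * M + 1) =
            (1 / (n : ℝ)) ^ M * (1 / (n : ℝ)) ^ M * (1 / (n : ℝ)) ^ M * (1 / n) := by
          rw [pow_succ]
          congr 1
          rw [← pow_add, ← pow_add]
          congr 1
          ring
        have e2 : (n : ℝ) ^ M * (1 / (n : ℝ)) ^ M = 1 := by
          rw [← mul_pow, mul_one_div_cancel hn0.ne', one_pow]
        rw [e]
        calc (n : ℝ) ^ M * (3 * ((1 / (n : ℝ)) ^ M * (1 / (n : ℝ)) ^ M * (1 / (n : ℝ)) ^ M * (1 / n)))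
            = ((n : ℝ) ^ M * (1 / (n : ℝ)) ^ M) *
                ((3 / n) * (1 / (n : ℝ)) ^ M * (1 / (n : ℝ)) ^ M) := by ring
          _ = _ := by rw [e2, one_mul]
    _ ≤ 1 * (1 / (n : ℝ)) ^ M * 1 := by
        have h3 : (3 : ℝ) / n ≤ 1 := by rw [div_le_one hn0]; exact hn3
        have h4 : (1 / (n : ℝ)) ^ M ≤ 1 := by
          apply pow_le_one₀ (by positivity)
          rw [div_le_one hn0]
          linarith
        have h5 : (0 : ℝ) ≤ (1 / (n : ℝ)) ^ M := by positivity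
        apply mul_le_mul _ h4 h5 (by positivity)
        exact mul_le_mul_of_nonneg_right h3 h5
    _ = (1 / (n : ℝ)) ^ M := by ring
    _ ≤ (1 / 3) ^ N := h2

end PARM

/-- PARMN: St_PARM with natural numbers `m`, `l`, `K`. -/
def St_PARMN : Prop := ∀ (c k F G : ℕ), 15 * c + 20 < k →
    ∀ᶠ n : ℕ in atTop, G + 2 ≤ n ∧ ∃ m l K : ℕ, 1 ≤ m ∧ 1 ≤ l ∧ 1 ≤ K ∧ m * l ≤ n ^ k ∧
      (m:ℝ) * (qd (G+1) / Real.sqrt l) ≤ 1 ∧
      (1 - 1 / (100 * (K:ℝ) ^ 2)) ^ m ≤ (1 / 3) ^ (F * n ^ c + 5) ∧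
      ((((((F * n ^ c + 1) ^ G + 1) ^ (G + 1 + 1)) ^ (F * n ^ c) : ℕ) : ℝ)) ^ (F * n ^ c + 5) *
        (3 * ((m:ℝ) * (qd (G+1) / Real.sqrt l)) ^ (K + 1)) ≤ (1 / 3) ^ (F * n ^ c + 5)

theorem t_PARMN : St_PARMN := by
  intro c k F G hk
  obtain ⟨E, hE⟩ : ∃ E, E = ((c + 1) * G + 1) * (G + 2) * F := ⟨_, rfl⟩
  have hev : ∀ᶠ n : ℕ in atTop, G + 2 + (F + 5) * 1800 + E + 4 ^ (G + 1) + 18 ≤ n :=
    eventually_ge_atTop _
  filter_upwards [hev] with n hn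
  have h4 : 0 < 4 ^ (G + 1) := by positivity
  have hn1 : 1 ≤ n := by omega
  have hnc : 1 ≤ n ^ c := Nat.one_le_pow _ _ hn1
  have hM1 : 1 ≤ n ^ (2 * c + 2) := Nat.one_le_pow _ _ hn1
  have hnR : (1:ℝ) ≤ n := by exact_mod_cast hn1
  have hn0 : (0:ℝ) < n := by linarith
  -- N ≤ n ^ (c + 1)
  have hN : F * n ^ c + 5 ≤ n ^ (c + 1) := by
    calc F * n ^ c + 5 ≤ F * n ^ c + 5 * n ^ c := by omega
      _ = (F + 5) * n ^ c := by ring
      _ ≤ n * n ^ c := Nat.mul_le_mul_right _ (by omega)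
      _ = n ^ (c + 1) := by ring
  have hNM : F * n ^ c + 5 ≤ n ^ (2 * c + 2) :=
    hN.trans (Nat.pow_le_pow_right hn1 (by omega))
  refine ⟨by omega, n ^ (5 * c + 6), n ^ (10 * c + 15), 3 * n ^ (2 * c + 2),
    Nat.one_le_pow _ _ hn1, Nat.one_le_pow _ _ hn1, by omega, ?_, ?_⟩
  · rw [← pow_add]
    exact Nat.pow_le_pow_right hn1 (by omega)
  have hq : qd (G + 1) ≤ 2 ^ (G + 1) := by unfold qd; linarith
  have hq0 : 0 ≤ qd (G + 1) := by
    unfold qd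
    have : (1:ℝ) ≤ 2 ^ (G + 1) := one_le_pow₀ (by norm_num)
    linarith
  have h4n : ((4:ℝ) ^ (G + 1)) ≤ n := by
    have : 4 ^ (G + 1) ≤ n := by omega
    exact_mod_cast this
  have hs : (2:ℝ) ^ (G + 1) * n ^ (5 * c + 7) ≤ Real.sqrt ((n ^ (10 * c + 15) : ℕ) : ℝ) := by
    apply Real.le_sqrt_of_sq_le
    push_cast
    calc ((2:ℝ) ^ (G + 1) * n ^ (5 * c + 7)) ^ 2
        = 4 ^ (G + 1) * (n:ℝ) ^ (10 * c + 14) := by
          rw [mul_pow, ← pow_mul, ← pow_mul, mul_comm (G + 1) 2, pow_mul]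
          norm_num
          ring
      _ ≤ n * (n:ℝ) ^ (10 * c + 14) := by gcongr
      _ = (n:ℝ) ^ (10 * c + 15) := by ring
  have hs0 : 0 < Real.sqrt ((n ^ (10 * c + 15) : ℕ) : ℝ) :=
    lt_of_lt_of_le (by positivity) hs
  have hd : ((n ^ (5 * c + 6) : ℕ) : ℝ) * (qd (G + 1) / Real.sqrt ((n ^ (10 * c + 15) : ℕ) : ℝ))
      ≤ 1 / n := by
    rw [← mul_div_assoc, div_le_div_iff₀ hs0 hn0, one_mul]
    refine le_trans ?_ hs
    push_cast
    calc (n:ℝ) ^ (5 * c + 6) * qd (G + 1) * n ≤ (n:ℝ) ^ (5 * c + 6) * 2 ^ (G + 1) * n := by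
          gcongr
      _ = (2:ℝ) ^ (G + 1) * n ^ (5 * c + 7) := by ring
  have hd0 : 0 ≤ ((n ^ (5 * c + 6) : ℕ) : ℝ) *
      (qd (G + 1) / Real.sqrt ((n ^ (10 * c + 15) : ℕ) : ℝ)) := by positivity
  refine ⟨hd.trans ?_, ?_, ?_⟩
  · rw [div_le_one hn0]; exact hnR
  · have hK1 : (1:ℝ) ≤ ((3 * n ^ (2 * c + 2) : ℕ) : ℝ) := by
      have : 1 ≤ 3 * n ^ (2 * c + 2) := by omega
      exact_mod_cast this
    have hK2 : (1:ℝ) ≤ ((3 * n ^ (2 * c + 2) : ℕ) : ℝ) ^ 2 := one_le_pow₀ hK1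
    apply PARM.base
    · rw [div_le_one (by positivity)]
      linarith
    · -- 2 N ≤ m / (100 K ^ 2)
      rw [mul_one_div, le_div_iff₀ (by positivity)]
      have hnat : 2 * (F * n ^ c + 5) * (100 * (3 * n ^ (2 * c + 2)) ^ 2) ≤ n ^ (5 * c + 6) := by
        have h1 : (F * n ^ c + 5) * 1800 ≤ n ^ (c + 1) := by
          calc (F * n ^ c + 5) * 1800 ≤ ((F + 5) * n ^ c) * 1800 := by
                apply Nat.mul_le_mul_right
                calc F * n ^ c + 5 ≤ F * n ^ c + 5 * n ^ c := by omega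
                  _ = (F + 5) * n ^ c := by ring
            _ = ((F + 5) * 1800) * n ^ c := by ring
            _ ≤ n * n ^ c := Nat.mul_le_mul_right _ (by omega)
            _ = n ^ (c + 1) := by ring
        calc 2 * (F * n ^ c + 5) * (100 * (3 * n ^ (2 * c + 2)) ^ 2)
            = ((F * n ^ c + 5) * 1800) * n ^ (4 * c + 4) := by ring
          _ ≤ n ^ (c + 1) * n ^ (4 * c + 4) := Nat.mul_le_mul_right _ h1
          _ = n ^ (5 * c + 5) := by rw [← pow_add]; congr 1; ring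
          _ ≤ n ^ (5 * c + 6) := Nat.pow_le_pow_right hn1 (by omega)
      have hcast : ((2 * (F * n ^ c + 5) * (100 * (3 * n ^ (2 * c + 2)) ^ 2) : ℕ) : ℝ) ≤
          ((n ^ (5 * c + 6) : ℕ) : ℝ) := by exact_mod_cast hnat
      refine le_trans (le_of_eq ?_) hcast
      push_cast
      ring
  · refine PARM.last n (by omega) _ _ hd0 (n ^ (2 * c + 2)) _ hNM ?_ hd
    have hT := PARM.T_le c F G n (by omega) (by omega)
    rw [← hE] at hT
    have hTN : ((((F * n ^ c + 1) ^ G + 1) ^ (G + 1 + 1)) ^ (F * n ^ c)) ^ (F * n ^ c + 5) ≤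
        n ^ (n ^ (2 * c + 2)) := by
      calc ((((F * n ^ c + 1) ^ G + 1) ^ (G + 1 + 1)) ^ (F * n ^ c)) ^ (F * n ^ c + 5)
          ≤ (n ^ (E * n ^ c)) ^ (F * n ^ c + 5) := Nat.pow_le_pow_left hT _
        _ = n ^ (E * n ^ c * (F * n ^ c + 5)) := by rw [← pow_mul]
        _ ≤ n ^ (n ^ (2 * c + 2)) := by
            apply Nat.pow_le_pow_right hn1
            calc E * n ^ c * (F * n ^ c + 5) ≤ n * n ^ c * n ^ (c + 1) := by
                  apply Nat.mul_le_mul _ hN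
                  exact Nat.mul_le_mul_right _ (by omega)
              _ = n ^ (2 * c + 2) := by ring
    exact_mod_cast hTN

theorem t_PARM : St_PARM := by
  intro c k F G hk
  filter_upwards [t_PARMN c k F G hk] with n hn
  obtain ⟨h1, m, l, K, h2, h3, h4, h5, h6, h7, h8⟩ := hn
  refine ⟨h1, m, l, (K : ℝ), h2, h3, by exact_mod_cast h4, h5, h6, h7, ?_⟩
  have e : ((m:ℝ) * (qd (G+1) / Real.sqrt l)) ^ ((K : ℝ) + 1) =
      ((m:ℝ) * (qd (G+1) / Real.sqrt l)) ^ (K + 1) := by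
    rw [← Real.rpow_natCast]
    push_cast
    rfl
  rw [e]
  exact h8

end Pool.Agent.RYD
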