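import Pool.Agent.RYD.St2

namespace Pool.Agent.RYD

open Finset Filter Pool.Agent.Lib_helper62.PToda Pool.Agent.Lib_helper58.RToda

namespace POW

theorem abs_prod_le_one {J : Type} [Fintype J] (h : J → ℝ) (h1 : ∀ j, |h j| ≤ 1) :
    |∏ j, h j| ≤ 1 := by
  rw [Finset.abs_prod]
  exact Finset.prod_le_one (fun j _ => abs_nonneg _) (fun j _ => h1 j)

theorem abs_av_le_of {Y : Type} [Fintype Y] [Nonempty Y] (f : Y → ℝ) (c : ℝ)
    (h : ∀ y, |f y| ≤ c) : |av f| ≤ c :=
  (abs_av_le f).trans ((av_mono h).trans (av_const c).le)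

theorem qd_nonneg (d l : ℕ) : 0 ≤ qd d / Real.sqrt l := by
  apply div_nonneg _ (Real.sqrt_nonneg _)
  unfold qd
  have : (1:ℝ) ≤ 2 ^ d := one_le_pow₀ (by norm_num)
  linarith

end POW

theorem t_POW (hC : St_COV) (hR : St_COR) : St_POW := by
  intro β m l d hl hd inst owner hown N₀ κ₀ B hB1 hB S hdet D hS r U
  choose ι hf φ hc hi ha using fun ω => hC β (Fin m × Fin l) d inst owner hown N₀ κ₀ B hB1 hB
    (S.run ω) (hdet ω) D (hS ω)
  have e : (fun w : Sm m l d => (S.prob (inst w.1)) ^ r * ∏ j ∈ U, ch w j)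
      = (fun w : Sm m l d => av (fun a : Fin r → Fin (S.coins + 1) =>
          (∏ s, ind ((S.run (a s)).Accepts (inst w.1))) * ∏ j ∈ U, ch w j)) := by
    funext w
    have h1 := av_pi (J := Fin r)
      (fun (_ : Fin r) (ω : Fin (S.coins + 1)) => ind ((S.run ω).Accepts (inst w.1)))
    rw [Finset.prod_const, Finset.card_univ, Fintype.card_fin, ← RandAlg.prob_eq] at h1
    rw [← h1, mul_comm, ← av_mul_left]
    congr 1
    funext a
    rw [mul_comm]
  rw [e, av_swap]
  refine POW.abs_av_le_of _ _ fun a => ?_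
  have e2 : (fun w : Sm m l d =>
        (∏ s, ind ((S.run (a s)).Accepts (inst w.1))) * ∏ j ∈ U, ch w j)
      = (fun w : Sm m l d =>
        ∑ p ∈ Fintype.piFinset (fun s : Fin r => (Finset.univ : Finset (ι (a s)))),
          (∏ t, ∏ s, (if φ (a s) (p s) t w.1 = true then (1:ℝ) else 0)) *
            ∏ j ∈ U, ch w j) := by
    funext w
    rw [← Finset.sum_mul]
    congr 1
    have h1 : ∀ s : Fin r, ind ((S.run (a s)).Accepts (inst w.1))
        = ∑ i : ι (a s), ∏ t, (if φ (a s) i t w.1 = true then (1:ℝ) else 0) :=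
      fun s => ha (a s) w.1
    rw [Finset.prod_congr rfl (fun s _ => h1 s), Finset.prod_univ_sum]
    refine Finset.sum_congr rfl fun p _ => ?_
    rw [Finset.prod_comm]
  rw [e2, av_sum]
  refine (Finset.abs_sum_le_sum_abs _ _).trans ?_
  have hcor : ∀ p : (s : Fin r) → ι (a s), |av (fun w : Sm m l d =>
      (∏ t, ∏ s, (if φ (a s) (p s) t w.1 = true then (1:ℝ) else 0)) * ∏ j ∈ U, ch w j)|
      ≤ (qd d / Real.sqrt l) ^ U.card := by
    intro p
    refine hR m l d hl hd U
      (fun t x => ∏ s, (if φ (a s) (p s) t x = true then (1:ℝ) else 0)) ?_ ?_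
    · intro t x
      apply POW.abs_prod_le_one
      intro s
      split_ifs <;> simp
    · intro t x x' h
      apply Finset.prod_congr rfl
      intro s _
      rw [hi (a s) (p s) t x x' h]
  refine (Finset.sum_le_sum fun p _ => hcor p).trans ?_
  rw [Finset.sum_const, Fintype.card_piFinset, nsmul_eq_mul]
  apply mul_le_mul_of_nonneg_right _ (pow_nonneg (POW.qd_nonneg d l) _)
  have h2 : ∏ s : Fin r, (Finset.univ : Finset (ι (a s))).card ≤ (B ^ D) ^ r := by
    calc ∏ s : Fin r, (Finset.univ : Finset (ι (a s))).card ≤ ∏ s : Fin r, B ^ D :=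
          Finset.prod_le_prod' fun s _ => by rw [Finset.card_univ]; exact hc (a s)
      _ = (B ^ D) ^ r := by rw [Finset.prod_const, Finset.card_univ, Fintype.card_fin]
  exact_mod_cast h2

end Pool.Agent.RYD
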