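import Pool.Agent.Lib_helper58.RToda.Diag

/-!
Project RYD (MP_95e38d_lc): relative to an oracle the W[2] type property `Yes` is decided by no
randomised fpt algorithm with exact counting queries.

Notation. `E` is a finite set, `Pt E d = E → Fin (d+1) → Bool`: coordinate `0` is the set `S` of
the sign player, the coordinates `t.succ` are the sets `X_1, ..., X_d`. `one x e`: `e` is in all
the sets `X_t`. `sg B x`: 0 unless exactly one element of `B` is one, then the sign of its bit in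
`S`. Products over `B` are over elements, the functions `f t` do not depend on coordinate `t`.
-/

namespace Pool.Agent.RYD

open Finset Filter Pool.Agent.Lib_helper62.PToda Pool.Agent.Lib_helper58.RToda

/-- The bits of the players at every element. -/
abbrev Pt (E : Type) (d : ℕ) : Type := E → Fin (d+1) → Bool

section defs
variable {E : Type} {d : ℕ}

/-- The element is in all the sets `X_1, ..., X_d`. -/
def one (x : Pt E d) (e : E) : Prop := ∀ t : Fin d, x e t.succ = true

instance (x : Pt E d) (e : E) : Decidable (one x e) := by unfold one; infer_instance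

/-- 1 if no element of `B` is one, otherwise 0. -/
noncomputable def no1 (B : Finset E) (x : Pt E d) : ℝ := ∏ e ∈ B, if one x e then 0 else 1

/-- 1 if exactly one element of `B` is one, otherwise 0. -/
noncomputable def ex1 [DecidableEq E] (B : Finset E) (x : Pt E d) : ℝ :=
  ∑ i ∈ B, (if one x i then 1 else 0) * no1 (B.erase i) x

/-- The sign of the only element of `B` which is one (0 if there is not exactly one). -/
noncomputable def sg [DecidableEq E] (B : Finset E) (x : Pt E d) : ℝ :=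
  ∑ i ∈ B, (if one x i then sgn (x i 0) else 0) * no1 (B.erase i) x

/-- The weight of the Cauchy-Schwarz step. -/
noncomputable def cw (B : Finset E) (x : Pt E d) : ℝ := ∏ e ∈ B, if one x e then 1 else 2

/-- `2^d - 1`. -/
noncomputable def qd (d : ℕ) : ℝ := 2 ^ d - 1

/-- The two points differ at most in coordinate `t`. -/
def AgO (t : Fin (d+1)) (x x' : Pt E d) : Prop := ∀ e, ∀ t', t' ≠ t → x e t' = x' e t'

/-- `f` does not depend on coordinate `t`. -/
def Ind (t : Fin (d+1)) (f : Pt E d → ℝ) : Prop := ∀ x x', AgO t x x' → f x = f x'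

/-- The elements of `B` in the set `Z`. -/
def fil (Z : E → Bool) (B : Finset E) : Finset E := B.filter (fun e => Z e = true)

/-- `B ∩ Z - Z'`. -/
def fU (Z Z' : E → Bool) (B : Finset E) : Finset E := B.filter (fun e => Z e = true ∧ Z' e = false)

/-- `B ∩ Z ∩ Z'`. -/
def fI (Z Z' : E → Bool) (B : Finset E) : Finset E := B.filter (fun e => Z e = true ∧ Z' e = true)

/-- `B - Z - Z'`. -/
def fN (Z Z' : E → Bool) (B : Finset E) : Finset E := B.filter (fun e => Z e = false ∧ Z' e = false)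

/-- A new last coordinate. -/
def sn (x : Pt E d) (Z : E → Bool) : Pt E (d+1) :=
  fun e => Fin.snoc (α := fun _ => Bool) (x e) (Z e)

/-- Disjoint blocks. -/
def Dis {J : Type} (B : J → Finset E) : Prop := ∀ i j, i ≠ j → Disjoint (B i) (B j)

/-- The bound of a block. -/
noncomputable def bd (d l : ℕ) : ℝ := Real.sqrt l * (qd d / 2 ^ d) ^ l

end defs

/-- The main claim for `d + 1` players. -/
def Claim (E : Type) [Fintype E] [DecidableEq E] (d : ℕ) : Prop :=
  ∀ (J : Type) [Fintype J] [DecidableEq J] (B : J → Finset E), Dis B →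
    ∀ f : Fin (d+1) → Pt E d → ℝ, (∀ t x, |f t x| ≤ 1) → (∀ t, Ind t (f t)) →
      |av (fun x => (∏ j, sg (B j) x) * ∏ t, f t x)| ≤ ∏ j, bd d (B j).card

/-- The claim with a nonnegative weight which lives outside the blocks. -/
def ClaimG (E : Type) [Fintype E] [DecidableEq E] (d : ℕ) : Prop :=
  ∀ (J : Type) [Fintype J] [DecidableEq J] (B : J → Finset E), Dis B →
    ∀ f : Fin (d+1) → Pt E d → ℝ, (∀ t x, |f t x| ≤ 1) → (∀ t, Ind t (f t)) →
      ∀ g : Pt E d → ℝ, (∀ x, 0 ≤ g x) →
        (∀ x x', (∀ e, (∀ j, e ∉ B j) → x e = x' e) → g x = g x') →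
      |av (fun x => g x * ((∏ j, sg (B j) x) * ∏ t, f t x))| ≤ av g * ∏ j, bd d (B j).card

/-! ### General facts on averages -/

/-- MIX: resample the elements of `B`. PROOF: `(R, y) ↦ (mix, comix)` with mix = y on B, R off B,
comix = R on B, y off B is a bijection (an involution up to order) of `(E → A) × (E → A)`; so
`av_R av_y F(mix) = av_(R,y) F(R) = av F` (`av_prod`, `av_prod'`, `av_equiv`, `av_const`; if
`E → A` is empty both sides are 0). No hypotheses. -/
def St_MIX : Prop := ∀ (E A : Type) [Fintype E] [DecidableEq E] [Fintype A] (B : Finset E)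
  (F : (E → A) → ℝ),
  av F = av (fun R : E → A => av (fun y : E → A => F (fun e => if e ∈ B then y e else R e)))

/-- FACT: functions of disjoint sets of coordinates are independent. PROOF (hypothesis MIX): by
induction on a finset `s` of `J`: `av (g * ∏ j ∈ s, h j) = av g * ∏ j ∈ s, av (h j)`, for all `g`
which do not depend on the coordinates in `B j`, `j ∈ s`. For `insert j s`: G = g * ∏ j ∈ s, h j
does not depend on the coordinates in `B j`; by MIX for `B j`: av (G * h j) =
av_R av_y G(mix) h_j(mix) = av_R av_y G(R) h_j(y) = av G * av (h j). -/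
def St_FACT : Prop := ∀ (E A : Type) [Fintype E] [DecidableEq E] [Fintype A] [Nonempty A]
  (J : Type) [Fintype J] [DecidableEq J] (B : J → Finset E), Dis B →
  ∀ g : (E → A) → ℝ, (∀ x x', (∀ e, (∀ j, e ∉ B j) → x e = x' e) → g x = g x') →
  ∀ h : J → (E → A) → ℝ, (∀ j x x', (∀ e ∈ B j, x e = x' e) → h j x = h j x') →
  av (fun x => g x * ∏ j, h j x) = av g * ∏ j, av (h j)

/-- ELT: products over the elements of `B`, one of them special. PROOF (hypothesis FACT): FACT with
`J` = the subtype of `B`, singletons as blocks, `g = 1`, and the average over `E → A` of a function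
of one coordinate `e` is its average over `A` (FACT or `av_pi`; or directly from `av_pi` of
PToda.Disc with factors 1 off `B`). Second part: `av_sum`, for each `i ∈ B` the product of `ψ` at
`i` and `φ` elsewhere. -/
def St_ELT : Prop := ∀ (E A : Type) [Fintype E] [DecidableEq E] [Fintype A] [Nonempty A]
  (B : Finset E) (φ ψ : A → ℝ),
  av (fun x : E → A => ∏ e ∈ B, φ (x e)) = av φ ^ B.card ∧
  av (fun x : E → A => ∑ i ∈ B, ψ (x i) * ∏ e ∈ B.erase i, φ (x e))
    = B.card * (av ψ * av φ ^ (B.card - 1))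

/-- SNAV: the new coordinate. PROOF: `(x, Z) ↦ sn x Z` is an equivalence
`Pt E d × (E → Bool) ≃ Pt E (d+1)` (inverse: castSucc part and last coordinate); `av_prod`,
`av_equiv`. No hypotheses. -/
def St_SNAV : Prop := ∀ (E : Type) [Fintype E] [DecidableEq E] (d : ℕ) (F : Pt E (d+1) → ℝ),
  av F = av (fun x : Pt E d => av (fun Z : E → Bool => F (sn x Z)))

/-! ### Algebra of one block -/

/-- SGS. PROOF: `one (sn x Z) e ↔ one x e ∧ Z e = true` (the coordinates `t.succ` with `t` =
`castSucc` are those of `x`, the last one is `Z`; also for `d = 0`), coordinate `0` is that of `x`;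
so the terms with `Z e = false` contribute 0 to the sum and the factor 1 to `no1`. -/
def St_SGS : Prop := ∀ (E : Type) [DecidableEq E] (d : ℕ) (B : Finset E) (x : Pt E d)
  (Z : E → Bool), sg B (sn x Z) = sg (fil Z B) x

/-- DBL. PROOF: for disjoint `U`, `I`: `no1 (U ∪ I) = no1 U * no1 I`,
`sg (U ∪ I) = sg U * no1 I + no1 U * sg I`; `no1 ^ 2 = no1`, `no1 I * sg I = 0`, `sg I ^ 2 = ex1 I`
(if two elements are one all terms vanish; otherwise clear). Then `fil Z B = fU Z Z' B ∪ fI Z Z' B`,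
`fil Z' B = fU Z' Z B ∪ fI Z Z' B`, expand. No hypotheses. -/
def St_DBL : Prop := ∀ (E : Type) [DecidableEq E] (d : ℕ) (B : Finset E) (x : Pt E d)
  (Z Z' : E → Bool), sg (fil Z B) x * sg (fil Z' B) x
    = sg (fU Z Z' B) x * sg (fU Z' Z B) x * no1 (fI Z Z' B) x
      + no1 (fU Z Z' B) x * no1 (fU Z' Z B) x * ex1 (fI Z Z' B) x

/-- CWS: the weight where the sign does not vanish. PROOF: term by term in the sum `sg`: if `i` is
one and no other element of `U` is, then `cw U x = 2 ^ (card U - 1)`; otherwise the term is 0. -/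
def St_CWS : Prop := ∀ (E : Type) [DecidableEq E] (d : ℕ) (U : Finset E) (x : Pt E d),
  (cw U x)⁻¹ * sg U x = 2 * (1 / 2) ^ U.card * sg U x

/-- CWA: the average of the weight. PROOF (hypotheses FACT, ELT): FACT with `g = 1`, then ELT with
`φ a = if ∀ t : Fin d, a t.succ = true then 1 else 2` on `A = Fin (d+1) → Bool`, whose average is
`(2 * 2^d - 1) / 2^d = qd (d+1) / 2^d` (exactly 2 of the 2^(d+1) functions have all `t.succ`
coordinates true). -/
def St_CWA : Prop := ∀ (E : Type) [Fintype E] [DecidableEq E] (d : ℕ) (J : Type) [Fintype J]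
  [DecidableEq J] (B : J → Finset E), Dis B →
  av (fun x : Pt E d => ∏ j, cw (B j) x) = ∏ j, (qd (d+1) / 2 ^ d) ^ (B j).card

/-! ### The induction -/

/-- CLG. PROOF (hypothesis MIX): with `W = ⋃ B j`, MIX for `W` gives
`av (g * (∏ sg * ∏ f)) = av_R av_y (g(R) * (∏ sg (B j) y * ∏ f t (mix y R)))`, as `g` depends only on
coordinates off `W` and `sg (B j)` only on those in `B j`. For fixed `R` the functions
`y ↦ f t (mix y R)` are admissible; Claim bounds the inner average. -/
def St_CLG : Prop := ∀ (E : Type) [Fintype E] [DecidableEq E] (d : ℕ), Claim E d → ClaimG E d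

/-- BASE. PROOF: `d = 0`: `qd 0 = 0`, all elements are one, `f 0` is constant (it depends on no
coordinate). If `J` is empty the right side is 1 (empty product) and the left side at most 1. If
`J` has an element `j0`: the right side has the factor `bd 0 (card (B j0)) = 0` (also when the card
is 0: `sqrt 0 = 0`); the left side is 0: if card (B j0) is not 1 then `sg (B j0) = 0`; if
`B j0 = {i}`, flipping the bit of `i` changes the sign of `sg (B j0)` and nothing else
(disjointness), so the average is 0. -/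
def St_BASE : Prop := ∀ (E : Type) [Fintype E] [DecidableEq E], Claim E 0

section step
variable {E : Type} [Fintype E] [DecidableEq E] {d : ℕ}

/-- The doubled functions. -/
def dF (f : Fin (d+1+1) → Pt E (d+1) → ℝ) (Z Z' : E → Bool) (t : Fin (d+1)) (x : Pt E d) : ℝ :=
  f t.castSucc (sn x Z) * f t.castSucc (sn x Z')

/-- The inner average after the Cauchy-Schwarz step. -/
noncomputable def inner {J : Type} [Fintype J] (B : J → Finset E) (Z Z' : E → Bool)
    (F : Fin (d+1) → Pt E d → ℝ) : ℝ :=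
  av (fun x : Pt E d => (∏ j, ((cw (B j) x)⁻¹ * (sg (fil Z (B j)) x * sg (fil Z' (B j)) x))) *
    ∏ t, F t x)

/-- The weight of a block whose two common elements differ. -/
noncomputable def ga (Z Z' : E → Bool) (B : Finset E) (x : Pt E d) : ℝ :=
  (cw (fN Z Z' B) x)⁻¹ * ((cw (fI Z Z' B) x)⁻¹ * no1 (fI Z Z' B) x) *
    (4 * (1 / 2) ^ ((fU Z Z' B).card + (fU Z' Z B).card))

/-- The term of a block whose two common elements differ. -/
noncomputable def al (Z Z' : E → Bool) (B : Finset E) (x : Pt E d) : ℝ :=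
  ga Z Z' B x * (bd d (fU Z Z' B).card * bd d (fU Z' Z B).card)

/-- The term of a block with one common element of both. -/
noncomputable def be (Z Z' : E → Bool) (B : Finset E) (x : Pt E d) : ℝ :=
  (cw B x)⁻¹ * (no1 (fU Z Z' B) x * no1 (fU Z' Z B) x * ex1 (fI Z Z' B) x)

/-- The weight for the set `D` of the blocks whose two common elements differ. -/
noncomputable def gD {J : Type} [Fintype J] [DecidableEq J] (B : J → Finset E) (Z Z' : E → Bool)
    (D : Finset J) (x : Pt E d) : ℝ :=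
  (∏ j ∈ D, ga Z Z' (B j) x) * ∏ j ∈ univ \ D, be Z Z' (B j) x

/-- The blocks for the set `D`. -/
def bl {J : Type} (B : J → Finset E) (Z Z' : E → Bool) (D : Finset J)
    (p : {j // j ∈ D} × Bool) : Finset E :=
  if p.2 = true then fU Z Z' (B p.1) else fU Z' Z (B p.1)

/-- Data of one element: `Z`, `Z'` and the coordinates. -/
abbrev El (d : ℕ) : Type := Bool × Bool × (Fin (d+1) → Bool)

/-- The element is one. -/
def oneE (y : El d) : Prop := ∀ t : Fin d, y.2.2 t.succ = true

instance (y : El d) : Decidable (oneE y) := by unfold oneE; infer_instance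

/-- Factor of an element in `al`. -/
noncomputable def phA (y : El d) : ℝ :=
  if y.1 = y.2.1 then (if y.1 = true then (if oneE y then 0 else 1 / 2)
    else (if oneE y then 1 else 1 / 2)) else 1 / 2 * (qd d / 2 ^ d)

/-- Factor of the special element in `al`. -/
noncomputable def psA (y : El d) : ℝ :=
  if y.1 = y.2.1 then 0 else 2 * (1 / 2 * (qd d / 2 ^ d))

/-- Factor of an element in `be`. -/
noncomputable def phB (y : El d) : ℝ :=
  if y.1 = false ∧ y.2.1 = false then (if oneE y then 1 else 1 / 2)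
    else (if oneE y then 0 else 1 / 2)

/-- Factor of the special element in `be`. -/
noncomputable def psB (y : El d) : ℝ :=
  if y.1 = true ∧ y.2.1 = true ∧ oneE y then 1 else 0

end step

/-- CS: Cauchy-Schwarz for the last player. PROOF (hypotheses SNAV, SGS, CWA, in this order): by SNAV
and SGS the average is `av_x (f_last x * G x)`, `f_last x = f (last) (sn x Z)` for any `Z` (it does
not depend on `Z`), `G x = av_Z (∏ j, sg (fil Z (B j)) x * ∏ t : Fin (d+1), f t.castSucc (sn x Z))`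
(`Fin.prod_univ_castSucc`). With `c x = ∏ j, cw (B j) x > 0`: (av (f_last * G))^2 ≤
av c * av (G^2 / c) (`av_mul_sq_le` with u = sqrt c, v = f_last * G / sqrt c, and f_last^2 ≤ 1), av c
is CWA, and G^2 is the average over Z and Z' of the products; exchange the averages (`av_swap`). -/
def St_CS : Prop := ∀ (E : Type) [Fintype E] [DecidableEq E] (d : ℕ) (J : Type) [Fintype J]
  [DecidableEq J] (B : J → Finset E), Dis B →
  ∀ f : Fin (d+1+1) → Pt E (d+1) → ℝ, (∀ t x, |f t x| ≤ 1) → (∀ t, Ind t (f t)) →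
  (av (fun x => (∏ j, sg (B j) x) * ∏ t, f t x)) ^ 2
    ≤ (∏ j, (qd (d+1) / 2 ^ d) ^ (B j).card) *
      av (fun Z : E → Bool => av (fun Z' : E → Bool => inner B Z Z' (dF f Z Z')))

/-- EXPA. PROOF (hypotheses DBL, CWS): for each `j`: `cw B = cw U * cw U' * cw I * cw N` (partition),
so by DBL and CWS `(cw B)⁻¹ * (sg * sg) = ga * (sg U * sg U') + be`; then `Finset.prod_add` over
`univ` (or `Finset.prod_add` with powerset, `Finset.powerset_univ`) and
`∏ p, sg (bl p) = ∏ j ∈ D, (sg U * sg U')` (product over a subtype times Bool). -/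
def St_EXPA : Prop := ∀ (E : Type) [Fintype E] [DecidableEq E] (d : ℕ) (J : Type) [Fintype J]
  [DecidableEq J] (B : J → Finset E) (Z Z' : E → Bool) (x : Pt E d),
  (∏ j, ((cw (B j) x)⁻¹ * (sg (fil Z (B j)) x * sg (fil Z' (B j)) x)))
    = ∑ D : Finset J, gD B Z Z' D x * ∏ p, sg (bl B Z Z' D p) x

/-- EXPB. PROOF: `ga ≥ 0`, `be ≥ 0`; `ga` of block `j` depends only on the elements of
`fN ∪ fI` of `B j`, `be` only on `B j`, both are outside all `bl B Z Z' D p` if `j ∈ D`, resp.
`j ∉ D`, by disjointness of the `B j`; last part: product over a subtype times Bool, and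
`Finset.prod_mul_distrib`. No hypotheses. -/
def St_EXPB : Prop := ∀ (E : Type) [Fintype E] [DecidableEq E] (d : ℕ) (J : Type) [Fintype J]
  [DecidableEq J] (B : J → Finset E), Dis B → ∀ (Z Z' : E → Bool) (D : Finset J),
  Dis (bl B Z Z' D) ∧
  (∀ x : Pt E d, 0 ≤ gD B Z Z' D x) ∧
  (∀ x x' : Pt E d, (∀ e, (∀ p, e ∉ bl B Z Z' D p) → x e = x' e) →
    gD B Z Z' D x = gD B Z Z' D x') ∧
  (∀ x : Pt E d, gD B Z Z' D x * ∏ p, bd d (bl B Z Z' D p).card
    = (∏ j ∈ D, al Z Z' (B j) x) * ∏ j ∈ univ \ D, be Z Z' (B j) x)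

/-- EXP: expansion over the set of the blocks whose two common elements differ. PROOF (hypotheses
EXPA, EXPB): by EXPA `inner = ∑ D, av (gD * (∏ p, sg (bl p) * ∏ F))`, each term is at most
`av gD * ∏ p, bd d (card (bl p))` by ClaimG for the blocks `bl B Z Z' D`, this is
`av (∏ j ∈ D, al * ∏ j ∉ D, be)` by EXPB, and the sum over `D` is `av (∏ j, (al + be))`
(`Finset.prod_add`). -/
def St_EXP : Prop := ∀ (E : Type) [Fintype E] [DecidableEq E] (d : ℕ), ClaimG E d →
  ∀ (J : Type) [Fintype J] [DecidableEq J] (B : J → Finset E), Dis B →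
  ∀ (Z Z' : E → Bool) (F : Fin (d+1) → Pt E d → ℝ), (∀ t x, |F t x| ≤ 1) → (∀ t, Ind t (F t)) →
  inner B Z Z' F ≤ av (fun x : Pt E d => ∏ j, (al Z Z' (B j) x + be Z Z' (B j) x))

/-- LCV: the data of all elements together. PROOF: the equivalence
`(E → Bool) × (E → Bool) × Pt E d ≃ (E → El d)`; `av_prod`, `av_equiv`. No hypotheses. -/
def St_LCV : Prop := ∀ (E : Type) [Fintype E] [DecidableEq E] (d : ℕ)
  (G : (E → Bool) → (E → Bool) → Pt E d → ℝ),
  av (fun Z : E → Bool => av (fun Z' : E → Bool => av (fun x : Pt E d => G Z Z' x)))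
    = av (fun y : E → El d => G (fun e => (y e).1) (fun e => (y e).2.1) (fun e => (y e).2.2))

/-- AVE: averages over one element. PROOF: `av` over `Bool × Bool × (Fin (d+1) → Bool)` by
`av_prod`, the proportion of the `a : Fin (d+1) → Bool` with all `a t.succ = true` is `1 / 2^d`:
phA: (1/4)(2 * qd/2^(d+1) + qd/2^(d+1) + 1/2^d + qd/2^(d+1)), the same for phB. No hypotheses. -/
def St_AVE : Prop := ∀ d : ℕ, av (phA (d := d)) = qd (d+1) / 2 ^ (d+2) ∧
  av (phB (d := d)) = qd (d+1) / 2 ^ (d+2) ∧ av (psA (d := d)) = qd d / 2 ^ (d+1) ∧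
  av (psB (d := d)) = 1 / 2 ^ (d+2)

/-- ALE. PROOF: `al = 4 * sqrt u * sqrt u' * ∏ e ∈ B, phA (y e)` (partition of `B` in fU, fU', fI,
fN; u, u' the cards of fU Z Z' B, fU Z' Z B), `sqrt u * sqrt u' ≤ (u + u') / 2`, and
`2 * (u + u') * ∏ phA = ∑ i ∈ B, psA (y i) * ∏ e ∈ B.erase i, phA (y e)`. (`phA ≥ 0` as
`qd d ≥ 0`.) No hypotheses. -/
def St_ALE : Prop := ∀ (E : Type) [Fintype E] [DecidableEq E] (d : ℕ) (B : Finset E)
  (y : E → El d), al (fun e => (y e).1) (fun e => (y e).2.1) B (fun e => (y e).2.2)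
    ≤ ∑ i ∈ B, psA (y i) * ∏ e ∈ B.erase i, phA (y e)

/-- BEE. PROOF: expand `ex1` of `fI`, for the term of `i` (one, in both sets) the factor of `cw` at
`i` is 1, the other factors are `phB`. No hypotheses. -/
def St_BEE : Prop := ∀ (E : Type) [Fintype E] [DecidableEq E] (d : ℕ) (B : Finset E)
  (y : E → El d), be (fun e => (y e).1) (fun e => (y e).2.1) B (fun e => (y e).2.2)
    = ∑ i ∈ B, psB (y i) * ∏ e ∈ B.erase i, phB (y e)

/-- LOC1: the average of one block. PROOF (hypotheses LCV, ELT, AVE, ALE, BEE): LCV, ALE, BEE, then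
ELT and AVE: at most `l * (qd d/2^(d+1) + 1/2^(d+2)) * (qd (d+1)/2^(d+2))^(l-1)` and
`2 * qd d + 1 = qd (d+1)`; `l = 0`: both sides are 0. -/
def St_LOC1 : Prop := ∀ (E : Type) [Fintype E] [DecidableEq E] (d : ℕ) (B : Finset E),
  av (fun Z : E → Bool => av (fun Z' : E → Bool => av (fun x : Pt E d =>
    al Z Z' B x + be Z Z' B x))) ≤ B.card * (qd (d+1) / 2 ^ (d+2)) ^ B.card

/-- LOCM: all blocks. PROOF (hypotheses LCV, FACT): LCV on both sides, FACT with `A = El d`, `g = 1`;
`al`, `be` of a block depend only on the data of its elements. -/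
def St_LOCM : Prop := ∀ (E : Type) [Fintype E] [DecidableEq E] (d : ℕ) (J : Type) [Fintype J]
  [DecidableEq J] (B : J → Finset E), Dis B →
  av (fun Z : E → Bool => av (fun Z' : E → Bool => av (fun x : Pt E d =>
    ∏ j, (al Z Z' (B j) x + be Z Z' (B j) x))))
    = ∏ j, av (fun Z : E → Bool => av (fun Z' : E → Bool => av (fun x : Pt E d =>
      al Z Z' (B j) x + be Z Z' (B j) x)))

/-- STEP. PROOF (hypotheses CLG, CS, EXP, LOC1, LOCM): CLG gives ClaimG; by CS, EXP, LOCM, LOC1 the
square of the average is at most `∏ j, (qd (d+1)/2^d)^l_j * ∏ j, (l_j * (qd (d+1)/2^(d+2))^l_j)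
= ∏ j, (bd (d+1) l_j)^2` (the averages in LOCM are nonnegative: al, be ≥ 0); take roots. The
functions `dF f Z Z'` are admissible: bounded by 1, `Ind t`. -/
def St_STEP : Prop := ∀ (E : Type) [Fintype E] [DecidableEq E] (d : ℕ),
  Claim E d → Claim E (d+1)

/-! ### The sample space -/

section sample
variable {m l d : ℕ}

/-- Block `j`. -/
def blk (m l : ℕ) (j : Fin m) : Finset (Fin m × Fin l) := Finset.univ.filter (fun e => e.1 = j)

/-- Every block has exactly one element which is one. -/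
def Good (x : Pt (Fin m × Fin l) d) : Prop := ∀ j, ex1 (blk m l j) x = 1

/-- The sample space. -/
abbrev Sm (m l d : ℕ) : Type := {x : Pt (Fin m × Fin l) d // Good x}

noncomputable instance : Fintype (Sm m l d) := by
  classical
  exact Subtype.fintype _

/-- The sign of block `j`. -/
noncomputable def ch (w : Sm m l d) (j : Fin m) : ℝ := sg (blk m l j) w.1

end sample

/-- NEM. PROOF: `x (j, i) t = true` iff `i = 0` (for all `t`). -/
def St_NEM : Prop := ∀ (m l d : ℕ), 1 ≤ l → 1 ≤ d → Nonempty (Sm m l d)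

/-- CHI. PROOF: `ex1 (blk m l j) x = 1` means exactly one element of the block is one
(`ex1` is 1 or 0 accordingly); `sg` is the sign of its coordinate `0`; `sgn true = -1`. -/
def St_CHI : Prop := ∀ (m l d : ℕ) (w : Sm m l d) (j : Fin m),
  (ch w j = 1 ∨ ch w j = -1) ∧ (ch w j = -1 ↔ ∃ i : Fin l, ∀ t, w.1 (j, i) t = true)

/-- UNC. PROOF: take `j0 ∈ S`, flip coordinate `0` of all elements of block `j0`: an involution of
the sample space, `ch w j0` changes its sign, the other `ch w j` do not change (`av_equiv`). -/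
def St_UNC : Prop := ∀ (m l d : ℕ) (S : Finset (Fin m)), S.Nonempty →
  av (fun w : Sm m l d => ∏ j ∈ S, ch w j) = 0

/-- COR: correlation of products with the signs. PROOF (hypotheses ClaimG for all E and d, FACT,
ELT): let `P x = ∏ j, ex1 (blk j) x` (1 on good points, 0 on the others: ex1 is 0 or 1), so
`av_Sm F = av_x (P * F) / av_x P`. `P * ∏ j ∈ S, sg = ∏ j ∉ S, ex1 * ∏ j ∈ S, sg` (sg * ex1 = sg).
ClaimG with `J = {j // j ∈ S}`, `g = ∏ j ∉ S, ex1 (blk j)`:
|.| ≤ av g * (bd d l)^(card S). FACT and ELT: `av (ex1 (blk j)) = l * (1/2^d) * (qd d/2^d)^(l-1)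
=: q > 0`, `av P = q^m`, `av g = q^(m - card S)`; `bd d l / q = qd d / sqrt l`. -/
def St_COR : Prop := ∀ (m l d : ℕ), 1 ≤ l → 1 ≤ d → ∀ S : Finset (Fin m),
  ∀ f : Fin (d+1) → Pt (Fin m × Fin l) d → ℝ, (∀ t x, |f t x| ≤ 1) → (∀ t, Ind t (f t)) →
  |av (fun w : Sm m l d => (∏ t, f t w.1) * ∏ j ∈ S, ch w j)| ≤ (qd d / Real.sqrt l) ^ S.card

/-- COV: exact decomposition of a deterministic algorithm. PROOF: as `coverDet` in
Lib_helper58/RToda/Cover.lean, `AgreeOff` replaced by `AgO` (which is symmetric). -/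
def St_COV : Prop := ∀ (β E : Type) (d : ℕ) (inst : Pt E d → β → Bool)
    (owner : β → Option (Fin (d+1))),
    (∀ t w w', AgO t w w' → ∀ b, owner b ≠ some t → inst w b = inst w' b) →
    ∀ (N₀ κ₀ : ℕ) (B : ℕ), 1 ≤ B → ((N₀ + 1) ^ κ₀ + 1) ^ (d + 1) ≤ B → ∀ S : Strat β,
    S.Deterministic →
    ∀ D, S.Within N₀ κ₀ d D → ∃ (ι : Type) (_ : Fintype ι)
      (φ : ι → Fin (d+1) → Pt E d → Bool), Fintype.card ι ≤ B ^ D ∧
      (∀ i t w w', AgO t w w' → φ i t w = φ i t w') ∧
      ∀ w, ind (S.Accepts (inst w)) = ∑ i, ∏ t, (if φ i t w = true then (1:ℝ) else 0)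

/-- SMALL: deterministic algorithms have small correlation with the signs. PROOF (hypotheses COV,
COR): as `strat_small` in RToda/Fourier.lean. -/
def St_SMALL : Prop := ∀ (β : Type) (m l d : ℕ), 1 ≤ l → 1 ≤ d →
    ∀ (inst : Pt (Fin m × Fin l) d → β → Bool) (owner : β → Option (Fin (d+1))),
    (∀ t w w', AgO t w w' → ∀ b, owner b ≠ some t → inst w b = inst w' b) →
    ∀ (N₀ κ₀ : ℕ) (B : ℕ), 1 ≤ B → ((N₀ + 1) ^ κ₀ + 1) ^ (d + 1) ≤ B → ∀ S : Strat β,
    S.Deterministic → ∀ D, S.Within N₀ κ₀ d D → ∀ U : Finset (Fin m),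
    |av (fun w : Sm m l d => ind (S.Accepts (inst w.1)) * ∏ j ∈ U, ch w j)|
      ≤ (B:ℝ) ^ D * (qd d / Real.sqrt l) ^ U.card

/-! ### Instances -/

section inst
variable {m l d k n : ℕ}

open Classical in
/-- The oracle of a point: for the code of the element `e` the bits are those of the players (true
for `v > d`); other tuples get false; the other slices are those of `A₀`. -/
noncomputable def mkI (emb : (Fin m × Fin l) ↪ (Fin k → Fin n)) (A₀ : Bits → Bool)
    (x : Pt (Fin m × Fin l) d) : Bits → Bool := fun b =>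
  if b.1 = k ∧ b.2.1 = n then
    decide (∃ e, code (emb e) = b.2.2.1 ∧ ∀ h : b.2.2.2 < d + 1, x e ⟨b.2.2.2, h⟩ = true)
  else A₀ b

open Classical in
/-- The player who owns a bit. -/
noncomputable def mkO (k n d : ℕ) : Bits → Option (Fin (d+1)) := fun b =>
  if b.1 = k ∧ b.2.1 = n then
    (if h' : b.2.2.2 < d + 1 then some ⟨b.2.2.2, h'⟩ else none)
  else none

end inst

/-- INST. PROOF: as `mkInst3_congr`, `mkInst3_off`, `yes3_mkInst` in RToda/Inst.lean (or `rowBit_congr`,
`mkInst_congr`, `yes_mkInst` in PToda/Main.lean); `n ≥ d + 1 ≥ 1`, so a tuple which is no code fails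
at `v = 0`; `code_injective`. -/
def St_INST : Prop := ∀ (m l d k n : ℕ), d + 1 ≤ n →
  ∀ (emb : (Fin m × Fin l) ↪ (Fin k → Fin n)) (A₀ : Bits → Bool),
  (∀ t (w w' : Pt (Fin m × Fin l) d), AgO t w w' → ∀ b, mkO k n d b ≠ some t →
    mkI emb A₀ w b = mkI emb A₀ w' b) ∧
  (∀ (w : Pt (Fin m × Fin l) d) (b : Bits), ¬ (b.1 = k ∧ b.2.1 = n) → mkI emb A₀ w b = A₀ b) ∧
  (∀ (w : Pt (Fin m × Fin l) d), Yes (mkI emb A₀ w) k n ↔ ∃ j i, ∀ t, w (j, i) t = true)

/-- PAR: parameters. PROOF: `m = n^(2c+1)`, `l = n^(4c+5)`, `K = E n^c + 1` with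
`E = (c+1)(G+2)(G+1)F` or so, as in `params3` (RToda/Params.lean): T ≤ n^(K-1),
`m * (qd (G+1) / sqrt l) ≤ 1 / n` because `sqrt l ≥ 2^(G+1) n^(2c+2)` for `n ≥ 4^(G+1)`;
`m * l = n^(6c+6) ≤ n^k`; `200 K^2 ≤ n^(2c+1)` for large `n`. -/
def St_PAR : Prop := ∀ (c k F G : ℕ), 6 * c + 5 < k →
    ∀ᶠ n : ℕ in atTop, G + 2 ≤ n ∧ ∃ m l K, 1 ≤ m ∧ 1 ≤ l ∧ 1 ≤ K ∧ m * l ≤ n ^ k ∧
      200 * K ^ 2 ≤ m ∧ (m:ℝ) * (qd (G+1) / Real.sqrt l) ≤ 1 ∧
      (((((F * n ^ c + 1) ^ G + 1) ^ (G + 1 + 1)) ^ (F * n ^ c) : ℕ) : ℝ) *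
        (3 * ((m:ℝ) * (qd (G+1) / Real.sqrt l)) ^ (K + 1)) ≤ 1 / 100

/-- Bounded error at `(k, n)` for the W[2] type property. -/
def Solves2 (S : RandAlg Bits) (A : Bits → Bool) (k n : ℕ) : Prop :=
  (Yes A k n → 2 / 3 ≤ S.prob A) ∧ (¬ Yes A k n → S.prob A ≤ 1 / 3)

/-- ONE: one instance; `d = G + 1` players have sets, the tests have depth at most `G`. PROOF
(hypotheses NEM, CHI, UNC, SMALL, INST): as `instance_contra` in RToda/Diag.lean: `analytic_core`
with `W = Sm m l (G+1)`, `χ = ch`, `P w = S.prob (mkI emb A₀ w.1)`, `T = (...)^D`,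
`δ = qd (G+1) / sqrt l`; `Within N₀ κ₀ G D → Within N₀ κ₀ (G+1) D`; `emb` from `m * l ≤ n^k`. -/
def St_ONE : Prop := ∀ (k n G m l K N₀ κ₀ D : ℕ), G + 2 ≤ n → 1 ≤ m → 1 ≤ l → 1 ≤ K →
    m * l ≤ n ^ k → 200 * K ^ 2 ≤ m → (m:ℝ) * (qd (G+1) / Real.sqrt l) ≤ 1 →
    (((((N₀ + 1) ^ κ₀ + 1) ^ (G + 1 + 1)) ^ D : ℕ) : ℝ) *
        (3 * ((m:ℝ) * (qd (G+1) / Real.sqrt l)) ^ (K + 1)) ≤ 1 / 100 →
    ∀ (A₀ : Bits → Bool) (S : RandAlg Bits), (∀ ω, (S.run ω).Deterministic) →
    (∀ ω, (S.run ω).Within N₀ κ₀ G D) →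
    ∃ A : Bits → Bool, (∀ b : Bits, ¬ (b.1 = k ∧ b.2.1 = n) → A b = A₀ b) ∧ ¬ Solves2 S A k n

/-- SEP: the theorem. PROOF (hypotheses ONE, PAR): as `separation3` in RToda/Diag.lean. -/
def St_SEP : Prop := ∀ (ι : Type) [Countable ι] (alg : ι → ℕ → ℕ → RandAlg Bits),
    (∀ i k n ω, ((alg i k n).run ω).Deterministic) →
    ∀ (F G : ι → ℕ → ℕ) (c : ι → ℕ),
    (∀ i k n ω, ((alg i k n).run ω).Within (F i k * n ^ c i) (G i k) (G i k)
      (F i k * n ^ c i)) →
    ∃ A : Bits → Bool, ∀ i k, 6 * c i + 5 < k → ∀ n₀, ∃ n, n₀ ≤ n ∧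
      ¬ Solves2 (alg i k n) A k n

end Pool.Agent.RYD
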