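import Pool.Agent.RYD.BOTHU

/-! Project RYD, module TBV: bounds for the number of summands, for long tuples and deep tests. -/

namespace Pool.Agent.RYD

open Filter

namespace TBV

lemma base (c F n : ℕ) (hn : F + 2 ≤ n) : F * n ^ c + 1 ≤ n ^ (c + 1) := by
  have hn0 : 0 < n := by omega
  have hc : 1 ≤ n ^ c := Nat.one_le_pow _ _ hn0
  calc F * n ^ c + 1 ≤ F * n ^ c + n ^ c := by omega
    _ = (F + 1) * n ^ c := by ring
    _ ≤ n * n ^ c := Nat.mul_le_mul_right _ (by omega)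
    _ = n ^ (c + 1) := by ring

lemma inner (c e F n : ℕ) (hn : F + 2 ≤ n) :
    (F * n ^ c + 1) ^ (F * n ^ e) + 1 ≤ n ^ (((c + 1) * F + 1) * n ^ e) := by
  have hn0 : 0 < n := by omega
  have he : 1 ≤ n ^ e := Nat.one_le_pow _ _ hn0
  have h1 : (F * n ^ c + 1) ^ (F * n ^ e) ≤ n ^ ((c + 1) * F * n ^ e) := by
    calc (F * n ^ c + 1) ^ (F * n ^ e) ≤ (n ^ (c + 1)) ^ (F * n ^ e) :=
          Nat.pow_le_pow_left (base c F n hn) _
      _ = n ^ ((c + 1) * F * n ^ e) := by rw [← pow_mul]; congr 1; ring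
  have h2 : 1 ≤ n ^ ((c + 1) * F * n ^ e) := Nat.one_le_pow _ _ hn0
  calc (F * n ^ c + 1) ^ (F * n ^ e) + 1 ≤ 2 * n ^ ((c + 1) * F * n ^ e) := by omega
    _ ≤ n * n ^ ((c + 1) * F * n ^ e) := Nat.mul_le_mul_right _ (by omega)
    _ = n ^ ((c + 1) * F * n ^ e + 1) := by ring
    _ ≤ n ^ (((c + 1) * F + 1) * n ^ e) := by
        apply Nat.pow_le_pow_right hn0
        nlinarith

lemma powH (c e F n H : ℕ) (hn : F + 2 ≤ n) (hH : H + 2 ≤ Nat.log 2 n + 1) :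
    ((F * n ^ c + 1) ^ (F * n ^ e) + 1) ^ (H + 1 + 1)
      ≤ n ^ (((c + 1) * F + 1) * n ^ e * (Nat.log 2 n + 1)) := by
  have hn0 : 0 < n := by omega
  calc ((F * n ^ c + 1) ^ (F * n ^ e) + 1) ^ (H + 1 + 1)
      ≤ (n ^ (((c + 1) * F + 1) * n ^ e)) ^ (H + 1 + 1) := Nat.pow_le_pow_left (inner c e F n hn) _
    _ = n ^ (((c + 1) * F + 1) * n ^ e * (H + 1 + 1)) := by rw [← pow_mul]
    _ ≤ _ := by
        apply Nat.pow_le_pow_right hn0
        exact Nat.mul_le_mul_left _ (by omega)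

/-- Randomised algorithms. -/
lemma rand (c e F n H : ℕ) (hn : F + 2 ≤ n) (hH : H + 2 ≤ Nat.log 2 n + 1) :
    (((F * n ^ c + 1) ^ (F * n ^ e) + 1) ^ (H + 1 + 1)) ^ (F * n ^ c)
      ≤ n ^ ((((c + 1) * F + 1) * F) * n ^ (c + e) * (Nat.log 2 n + 1)) := by
  have hn0 : 0 < n := by omega
  calc (((F * n ^ c + 1) ^ (F * n ^ e) + 1) ^ (H + 1 + 1)) ^ (F * n ^ c)
      ≤ (n ^ (((c + 1) * F + 1) * n ^ e * (Nat.log 2 n + 1))) ^ (F * n ^ c) :=
        Nat.pow_le_pow_left (powH c e F n H hn hH) _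
    _ = _ := by rw [← pow_mul]; congr 1; rw [pow_add]; ring

/-- Merlin-Arthur algorithms. -/
lemma ma (c e F n H : ℕ) (hn : F + 2 ≤ n) (h3 : 3 ≤ n) (hH : H + 2 ≤ Nat.log 2 n + 1) :
    (3 * (((F * n ^ c + 1) ^ (F * n ^ e) + 1) ^ (H + 1 + 1)) ^ (F * n ^ c)) ^ (F * n ^ c + 2)
      ≤ n ^ ((((((c + 1) * F + 1) * F) + 1) * (F + 2)) * n ^ (2 * c + e) * (Nat.log 2 n + 1)) := by
  have hn0 : 0 < n := by omega
  set L := Nat.log 2 n + 1 with hL
  set B := ((c + 1) * F + 1) * F with hB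
  have hL1 : 1 ≤ L := by omega
  have hc : 1 ≤ n ^ c := Nat.one_le_pow _ _ hn0
  have hce : 1 ≤ n ^ (c + e) := Nat.one_le_pow _ _ hn0
  have h1 : 3 * (((F * n ^ c + 1) ^ (F * n ^ e) + 1) ^ (H + 1 + 1)) ^ (F * n ^ c)
      ≤ n ^ ((B + 1) * n ^ (c + e) * L) := by
    calc 3 * (((F * n ^ c + 1) ^ (F * n ^ e) + 1) ^ (H + 1 + 1)) ^ (F * n ^ c)
        ≤ n * n ^ (B * n ^ (c + e) * L) := Nat.mul_le_mul h3 (rand c e F n H hn hH)
      _ = n ^ (B * n ^ (c + e) * L + 1) := by ring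
      _ ≤ n ^ ((B + 1) * n ^ (c + e) * L) := by
          apply Nat.pow_le_pow_right hn0
          have : 1 ≤ n ^ (c + e) * L := Nat.mul_pos hce hL1
          calc B * n ^ (c + e) * L + 1 ≤ B * n ^ (c + e) * L + n ^ (c + e) * L := by omega
            _ = (B + 1) * n ^ (c + e) * L := by ring
  calc (3 * (((F * n ^ c + 1) ^ (F * n ^ e) + 1) ^ (H + 1 + 1)) ^ (F * n ^ c)) ^ (F * n ^ c + 2)
      ≤ (n ^ ((B + 1) * n ^ (c + e) * L)) ^ (F * n ^ c + 2) := Nat.pow_le_pow_left h1 _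
    _ = n ^ ((B + 1) * n ^ (c + e) * L * (F * n ^ c + 2)) := by rw [← pow_mul]
    _ ≤ n ^ ((B + 1) * (F + 2) * n ^ (2 * c + e) * L) := by
        apply Nat.pow_le_pow_right hn0
        have : F * n ^ c + 2 ≤ (F + 2) * n ^ c := by nlinarith
        calc (B + 1) * n ^ (c + e) * L * (F * n ^ c + 2)
            ≤ (B + 1) * n ^ (c + e) * L * ((F + 2) * n ^ c) := Nat.mul_le_mul_left _ this
          _ = (B + 1) * (F + 2) * n ^ (2 * c + e) * L := by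
              rw [show 2 * c + e = (c + e) + c by ring, pow_add n (c + e) c]; ring

/-- From `2 ^ (8 H) ≤ n` to `H + 2 ≤ log n + 1`. -/
lemma logH (n H : ℕ) (hn : 2 ≤ n) (h : 2 ^ (8 * H) ≤ n) : H + 2 ≤ Nat.log 2 n + 1 := by
  have h1 : 8 * H ≤ Nat.log 2 n := by
    have := Nat.log_mono_right (b := 2) h
    rwa [Nat.log_pow (by norm_num)] at this
  have h2 : 1 ≤ Nat.log 2 n := Nat.log_pos (by norm_num) hn
  omega

end TBV

end Pool.Agent.RYD
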