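import Pool.Agent.RYD.TBV

/-! Project RYD, module TBW: bounds for the number of summands, for tests of depth
`O(k log n)`. -/

namespace Pool.Agent.RYD

open Filter

namespace TBW

lemma powH (c e F n H J : ℕ) (hn : F + 2 ≤ n) (hH : H + 2 ≤ J * (Nat.log 2 n + 1)) :
    ((F * n ^ c + 1) ^ (F * n ^ e) + 1) ^ (H + 1 + 1)
      ≤ n ^ (((c + 1) * F + 1) * n ^ e * (J * (Nat.log 2 n + 1))) := by
  have hn0 : 0 < n := by omega
  calc ((F * n ^ c + 1) ^ (F * n ^ e) + 1) ^ (H + 1 + 1)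
      ≤ (n ^ (((c + 1) * F + 1) * n ^ e)) ^ (H + 1 + 1) :=
        Nat.pow_le_pow_left (TBV.inner c e F n hn) _
    _ = n ^ (((c + 1) * F + 1) * n ^ e * (H + 1 + 1)) := by rw [← pow_mul]
    _ ≤ _ := by
        apply Nat.pow_le_pow_right hn0
        exact Nat.mul_le_mul_left _ (by omega)

/-- Randomised algorithms. -/
lemma rand (c e F n H J : ℕ) (hn : F + 2 ≤ n) (hH : H + 2 ≤ J * (Nat.log 2 n + 1)) :
    (((F * n ^ c + 1) ^ (F * n ^ e) + 1) ^ (H + 1 + 1)) ^ (F * n ^ c)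
      ≤ n ^ ((((c + 1) * F + 1) * F * J) * n ^ (c + e) * (Nat.log 2 n + 1)) := by
  have hn0 : 0 < n := by omega
  calc (((F * n ^ c + 1) ^ (F * n ^ e) + 1) ^ (H + 1 + 1)) ^ (F * n ^ c)
      ≤ (n ^ (((c + 1) * F + 1) * n ^ e * (J * (Nat.log 2 n + 1)))) ^ (F * n ^ c) :=
        Nat.pow_le_pow_left (powH c e F n H J hn hH) _
    _ = _ := by rw [← pow_mul]; congr 1; rw [pow_add]; ring

/-- Merlin-Arthur algorithms. -/
lemma ma (c e F n H J : ℕ) (hn : F + 2 ≤ n) (h3 : 3 ≤ n) (hH : H + 2 ≤ J * (Nat.log 2 n + 1)) :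
    (3 * (((F * n ^ c + 1) ^ (F * n ^ e) + 1) ^ (H + 1 + 1)) ^ (F * n ^ c)) ^ (F * n ^ c + 2)
      ≤ n ^ ((((((c + 1) * F + 1) * F * J) + 1) * (F + 2)) * n ^ (2 * c + e) *
        (Nat.log 2 n + 1)) := by
  have hn0 : 0 < n := by omega
  set L := Nat.log 2 n + 1 with hL
  set B := ((c + 1) * F + 1) * F * J with hB
  have hL1 : 1 ≤ L := by omega
  have hc : 1 ≤ n ^ c := Nat.one_le_pow _ _ hn0
  have hce : 1 ≤ n ^ (c + e) := Nat.one_le_pow _ _ hn0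
  have h1 : 3 * (((F * n ^ c + 1) ^ (F * n ^ e) + 1) ^ (H + 1 + 1)) ^ (F * n ^ c)
      ≤ n ^ ((B + 1) * n ^ (c + e) * L) := by
    calc 3 * (((F * n ^ c + 1) ^ (F * n ^ e) + 1) ^ (H + 1 + 1)) ^ (F * n ^ c)
        ≤ n * n ^ (B * n ^ (c + e) * L) := Nat.mul_le_mul h3 (rand c e F n H J hn hH)
      _ = n ^ (B * n ^ (c + e) * L + 1) := by ring
      _ ≤ n ^ ((B + 1) * n ^ (c + e) * L) := by
          apply Nat.pow_le_pow_right hn0
          have : 1 ≤ n ^ (c + e) * L := Nat.mul_pos hce hL1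
          calc B * n ^ (c + e) * L + 1 ≤ B * n ^ (c + e) * L + n ^ (c + e) * L := by omega
            _ = (B + 1) * n ^ (c + e) * L := by ring
  calc (3 * (((F * n ^ c + 1) ^ (F * n ^ e) + 1) ^ (H + 1 + 1)) ^ (F * n ^ c)) ^ (F * n ^ c + 2)
      ≤ (n ^ ((B + 1) * n ^ (c + e) * L)) ^ (F * n ^ c + 2) := Nat.pow_le_pow_left h1 _
    _ = n ^ ((B + 1) * n ^ (c + e) * L * (F * n ^ c + 2)) := by rw [← pow_mul]
    _ ≤ n ^ ((B + 1) * (F + 2) * n ^ (2 * c + e) * L) := by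
        apply Nat.pow_le_pow_right hn0
        have : F * n ^ c + 2 ≤ (F + 2) * n ^ c := by nlinarith
        calc (B + 1) * n ^ (c + e) * L * (F * n ^ c + 2)
            ≤ (B + 1) * n ^ (c + e) * L * ((F + 2) * n ^ c) := Nat.mul_le_mul_left _ this
          _ = (B + 1) * (F + 2) * n ^ (2 * c + e) * L := by
              rw [show 2 * c + e = (c + e) + c by ring, pow_add n (c + e) c]; ring

/-- The depth is at most a multiple of `log n`. -/
lemma logH (n H j : ℕ) (hj : 1 ≤ j) (h : 2 ^ (8 * H) ≤ n ^ (4 * j - 3)) :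
    H + 2 ≤ (j + 2) * (Nat.log 2 n + 1) := by
  set L := Nat.log 2 n + 1 with hL
  have h1 : n < 2 ^ L := Nat.lt_pow_succ_log_self (by norm_num) n
  have h2 : n ^ (4 * j - 3) < (2 ^ L) ^ (4 * j - 3) := Nat.pow_lt_pow_left h1 (by omega)
  have h3 : 2 ^ (8 * H) < 2 ^ (L * (4 * j - 3)) := by
    rw [pow_mul 2 L]; exact lt_of_le_of_lt h h2
  have h4 : 8 * H < L * (4 * j - 3) := (Nat.pow_lt_pow_iff_right (by norm_num)).1 h3
  have h5 : L * (4 * j - 3) ≤ L * (8 * j) := Nat.mul_le_mul_left _ (by omega)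
  have h6 : L * (8 * j) = 8 * (j * L) := by ring
  have h7 : H ≤ j * L := by omega
  have hL1 : 1 ≤ L := by omega
  calc H + 2 ≤ j * L + 2 * L := by omega
    _ = (j + 2) * L := by ring

end TBW

end Pool.Agent.RYD
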